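import Mathlib

/-!
# Generic local freeness

`B` is a commutative domain and `T` a `B`-algebra, mainly `T = B[D]`. A `T`-module `K` has the
property `GenLF` when every finite subset of `K` can be moved, after multiplication by a nonzero
element of `B`, into a finitely generated free submodule of `K × Tᵐ`.
-/

set_option autoImplicit false

namespace Pool.Agent.Lib.MP_551055_al.T4

universe u v w x

/-- Every finitely presented module over `k[D]` has projective dimension at most two, for all
fields `k`: the kernel of a map between finitely generated free modules is projective. -/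
def TWO (D : Type u) [Group D] : Prop :=
  ∀ (k : Type v) [Field k] (a b : ℕ)
    (φ : (Fin a → MonoidAlgebra k D) →ₗ[MonoidAlgebra k D] (Fin b → MonoidAlgebra k D)),
    Module.Projective (MonoidAlgebra k D) (LinearMap.ker φ)

/-- Generic local freeness. -/
def GenLF (B : Type v) (T : Type w) (K : Type x) [CommRing B] [Ring T] [Algebra B T]
    [AddCommGroup K] [Module T K] : Prop :=
  ∀ s : Finset K, ∃ (c : B) (n m : ℕ) (j : (Fin n → T) →ₗ[T] K × (Fin m → T)),
    c ≠ 0 ∧ Function.Injective j ∧ ∀ y ∈ s, ∃ v, j v = (algebraMap B T c • y, 0)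

section Proj

variable {S : Type w} [Ring S] {K : Type x} [AddCommGroup K] [Module S K]

/-- A finite subset of a projective module lies in a finitely generated free submodule of the sum
of the module with a finitely generated free module. -/
theorem exists_free_of_proj [Module.Projective S K] (s : Finset K) :
    ∃ (n m : ℕ) (j : (Fin n → S) →ₗ[S] K × (Fin m → S)), Function.Injective j ∧
      ∀ y ∈ s, ∃ v, j v = (y, 0) := by
  classical
  obtain ⟨i, hi⟩ := Module.projective_def'.1 (inferInstance : Module.Projective S K)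
  have hi' : ∀ y, Finsupp.linearCombination S id (i y) = y := fun y => LinearMap.congr_fun hi y
  let T0 : Finset K := s.biUnion fun y => (i y).support
  let e : T0 ≃ Fin T0.card := T0.equivFin
  let n := T0.card
  let ι : (Fin n → S) →ₗ[S] (K →₀ S) :=
    (Finsupp.lmapDomain S S (fun a : Fin n => (e.symm a : K))) ∘ₗ
      (Finsupp.linearEquivFunOnFinite S S (Fin n)).symm.toLinearMap
  let r : (K →₀ S) →ₗ[S] (Fin n → S) :=
    LinearMap.pi fun a => Finsupp.lapply (e.symm a : K)
  have hinj : Function.Injective (fun a : Fin n => (e.symm a : K)) :=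
    Subtype.val_injective.comp e.symm.injective
  have hι : ∀ v a, ι v (e.symm a : K) = v a := fun v a =>
    (Finsupp.mapDomain_apply hinj _ a).trans rfl
  have hι' : ∀ v t, t ∉ T0 → ι v t = 0 := by
    intro v t ht
    refine Finsupp.mapDomain_of_notMem_range _ _ ?_
    rintro ⟨a, rfl⟩
    exact ht (e.symm a).2
  have hri : ∀ v, r (ι v) = v := fun v => funext fun a => hι v a
  have hir : ∀ y ∈ s, ι (r (i y)) = i y := by
    intro y hy
    ext t
    by_cases ht : t ∈ T0
    · have h := hι (r (i y)) (e ⟨t, ht⟩)
      rw [e.symm_apply_apply] at h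
      refine h.trans ?_
      change (i y) (e.symm (e ⟨t, ht⟩) : K) = _
      rw [e.symm_apply_apply]
    · rw [hι' _ _ ht]
      by_contra hne
      exact ht (Finset.mem_biUnion.2 ⟨y, hy, Finsupp.mem_support_iff.2 (Ne.symm hne)⟩)
  let q : (Fin n → S) →ₗ[S] K := (Finsupp.linearCombination S id) ∘ₗ ι
  refine ⟨n, n, LinearMap.prod q (LinearMap.id - r ∘ₗ i ∘ₗ q), ?_, ?_⟩
  · rw [injective_iff_map_eq_zero]
    intro v hv
    have h1 : q v = 0 := congrArg Prod.fst hv
    have h2 : v - r (i (q v)) = 0 := congrArg Prod.snd hv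
    rw [h1, map_zero, map_zero, sub_zero] at h2
    exact h2
  · intro y hy
    have h1 : q (r (i y)) = y := by
      change Finsupp.linearCombination S id (ι (r (i y))) = y
      rw [hir y hy, hi']
    refine ⟨r (i y), Prod.ext h1 ?_⟩
    change r (i y) - r (i (q (r (i y)))) = 0
    rw [h1, sub_self]

end Proj

section Transfer

variable {B : Type v} {T : Type w} [CommRing B] [Ring T] [Algebra B T]

/-- Multiplication by a central element. -/
def cmul (c : B) (M : Type*) [AddCommGroup M] [Module T M] : M →ₗ[T] M where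
  toFun y := algebraMap B T c • y
  map_add' := smul_add _
  map_smul' t y := by
    rw [RingHom.id_apply, smul_smul, smul_smul, Algebra.commutes]

theorem cmul_apply (c : B) {M : Type*} [AddCommGroup M] [Module T M] (y : M) :
    cmul (T := T) c M y = algebraMap B T c • y := rfl

theorem map_cmul (c : B) {M N : Type*} [AddCommGroup M] [Module T M] [AddCommGroup N] [Module T N]
    (f : M →ₗ[T] N) (y : M) : f (algebraMap B T c • y) = algebraMap B T c • f y :=
  map_smul f _ _

/-- A common nonzero multiple. -/
theorem exists_common [IsDomain B] {X : Type*} {p : B → X → Prop}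
    (hp : ∀ c d y, p c y → p (d * c) y)
    (s : Finset X) (h : ∀ y ∈ s, ∃ c : B, c ≠ 0 ∧ p c y) :
    ∃ c : B, c ≠ 0 ∧ ∀ y ∈ s, p c y := by
  classical
  induction s using Finset.induction_on with
  | empty => exact ⟨1, one_ne_zero, fun y hy => absurd hy (Finset.notMem_empty y)⟩
  | insert a s ha ih =>
    obtain ⟨c, hc, h1⟩ := ih fun y hy => h y (Finset.mem_insert_of_mem hy)
    obtain ⟨d, hd, h2⟩ := h a (Finset.mem_insert_self a s)
    refine ⟨d * c, mul_ne_zero hd hc, fun y hy => ?_⟩
    rcases Finset.mem_insert.1 hy with rfl | hy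
    · rw [mul_comm]
      exact hp _ _ _ h2
    · exact hp _ _ _ (h1 y hy)

variable [IsDomain B]
variable {K : Type x} [AddCommGroup K] [Module T K]

/-- The constants may depend on the elements. -/
theorem GenLF.of_local
    (h : ∀ s : Finset K, ∃ (n m : ℕ) (j : (Fin n → T) →ₗ[T] K × (Fin m → T)),
      Function.Injective j ∧ ∀ y ∈ s, ∃ c : B, c ≠ 0 ∧ ∃ v, j v = (algebraMap B T c • y, 0)) :
    GenLF B T K := by
  intro s
  obtain ⟨n, m, j, hj, h1⟩ := h s
  obtain ⟨c, hc, h2⟩ := exists_common (p := fun (c : B) y => ∃ v, j v = (algebraMap B T c • y, 0))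
    (by
      rintro c d y ⟨v, hv⟩
      refine ⟨algebraMap B T d • v, ?_⟩
      rw [map_smul, hv, map_mul, mul_smul]
      ext1
      · rfl
      · exact smul_zero _) s h1
  exact ⟨c, n, m, j, hc, hj, h2⟩

/-- Transfer along a generic isomorphism. -/
theorem GenLF.transfer {K₁ : Type*} [AddCommGroup K₁] [Module T K₁]
    (hT : ∀ c : B, c ≠ 0 → ∀ t : T, algebraMap B T c * t = 0 → t = 0)
    (hK : GenLF B T K₁) (u : K →ₗ[T] K₁)
    (h1 : ∀ y, ∃ c : B, c ≠ 0 ∧ ∃ z, u z = algebraMap B T c • y)
    (h2 : ∀ z, u z = 0 → ∃ c : B, c ≠ 0 ∧ algebraMap B T c • z = 0) : GenLF B T K := by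
  classical
  refine GenLF.of_local fun s => ?_
  obtain ⟨c₁, n, m, j, hc₁, hj, hv⟩ := hK (s.image u)
  obtain ⟨c₂, hc₂, hx⟩ := exists_common
    (p := fun (c : B) (i : Fin n) => ∃ z, u z = algebraMap B T c • (j (Pi.single i 1)).1)
    (by
      rintro c d y ⟨z, hz⟩
      refine ⟨algebraMap B T d • z, ?_⟩
      rw [map_smul, hz, map_mul, mul_smul]) Finset.univ fun i _ => h1 _
  choose z hz using fun i => hx i (Finset.mem_univ i)
  let j' : (Fin n → T) →ₗ[T] K × (Fin m → T) :=
    (Fintype.linearCombination T z).prod (cmul c₂ _ ∘ₗ LinearMap.snd _ _ _ ∘ₗ j)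
  have hj1 : ∀ v, u (j' v).1 = algebraMap B T c₂ • (j v).1 := by
    intro v
    have h3 : u ∘ₗ Fintype.linearCombination T z = cmul c₂ _ ∘ₗ LinearMap.fst _ _ _ ∘ₗ j := by
      refine LinearMap.pi_ext' fun i => LinearMap.ext_ring ?_
      rw [LinearMap.comp_apply, LinearMap.comp_apply, LinearMap.single_apply,
        Fintype.linearCombination_apply_single, one_smul, hz]
      rfl
    exact LinearMap.congr_fun h3 v
  have hj2 : ∀ v, (j' v).2 = algebraMap B T c₂ • (j v).2 := fun v => rfl
  refine ⟨n, m, j', ?_, ?_⟩
  · rw [injective_iff_map_eq_zero]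
    intro v hv0
    have h4 : j (algebraMap B T c₂ • v) = 0 := by
      rw [map_smul]
      ext1
      · change algebraMap B T c₂ • (j v).1 = 0
        rw [← hj1, hv0]
        exact map_zero u
      · change algebraMap B T c₂ • (j v).2 = 0
        rw [← hj2, hv0]
        rfl
    have h5 := (injective_iff_map_eq_zero j).1 hj _ h4
    funext i
    exact hT c₂ hc₂ _ (congrFun h5 i)
  · intro y hy
    obtain ⟨v, hv⟩ := hv (u y) (Finset.mem_image_of_mem u hy)
    have h6 : u ((j' v).1 - algebraMap B T (c₂ * c₁) • y) = 0 := by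
      rw [map_sub, hj1, hv, map_smul, map_mul, mul_smul, sub_self]
    obtain ⟨c₃, hc₃, h7⟩ := h2 _ h6
    refine ⟨c₃ * (c₂ * c₁), mul_ne_zero hc₃ (mul_ne_zero hc₂ hc₁), algebraMap B T c₃ • v, ?_⟩
    rw [map_smul]
    rw [smul_sub, sub_eq_zero] at h7
    ext1
    · change algebraMap B T c₃ • (j' v).1 = _
      rw [h7, map_mul _ c₃, mul_smul]
    · change algebraMap B T c₃ • (j' v).2 = _
      rw [hj2, hv]
      simp

end Transfer

section Base

variable {B : Type v} [CommRing B] [IsDomain B] {D : Type u} [Group D]

/-- Extension of scalars to the fraction field. -/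
noncomputable def ext (B : Type v) [CommRing B] [IsDomain B] (D : Type u) [Group D] :
    MonoidAlgebra B D →+* MonoidAlgebra (FractionRing B) D :=
  MonoidAlgebra.mapRingHom D (algebraMap B (FractionRing B))

theorem coeff_ext (t : MonoidAlgebra B D) (g : D) :
    (ext B D t).coeff g = algebraMap B (FractionRing B) (t.coeff g) :=
  MonoidAlgebra.coeff_mapRingHom _ _ _

theorem ext_injective : Function.Injective (ext B D) := by
  intro t t' h
  ext g
  exact IsFractionRing.injective B (FractionRing B) (by rw [← coeff_ext, ← coeff_ext, h])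

theorem ext_single (g : D) (b : B) :
    ext B D (MonoidAlgebra.single g b) =
      MonoidAlgebra.single g (algebraMap B (FractionRing B) b) :=
  MonoidAlgebra.mapRingHom_single _ _ _

theorem ext_algebraMap (c : B) :
    ext B D (algebraMap B (MonoidAlgebra B D) c) =
      algebraMap B (MonoidAlgebra (FractionRing B) D) c := by
  change ext B D (MonoidAlgebra.single 1 c) = MonoidAlgebra.single 1 _
  exact ext_single 1 c

omit [IsDomain B] in
theorem smul_single' (c : B) (g : D) (b : FractionRing B) :
    algebraMap B (MonoidAlgebra (FractionRing B) D) c * MonoidAlgebra.single g b =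
      MonoidAlgebra.single g (algebraMap B (FractionRing B) c * b) := by
  change MonoidAlgebra.single 1 _ * _ = _
  rw [MonoidAlgebra.single_mul_single, one_mul]

/-- Nonzero elements of the base are not zero divisors. -/
theorem tf_base (c : B) (hc : c ≠ 0) (t : MonoidAlgebra B D)
    (h : algebraMap B (MonoidAlgebra B D) c * t = 0) : t = 0 := by
  rw [← Algebra.smul_def] at h
  ext g
  have h1 : (c • t).coeff g = 0 := by rw [h]; rfl
  rw [MonoidAlgebra.coeff_smul_apply, smul_eq_mul] at h1
  exact (mul_eq_zero.1 h1).resolve_left hc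

/-- Clearing denominators. -/
theorem exists_int (w : MonoidAlgebra (FractionRing B) D) :
    ∃ c : B, c ≠ 0 ∧ ∃ t, ext B D t = algebraMap B (MonoidAlgebra (FractionRing B) D) c * w := by
  induction w using MonoidAlgebra.induction_linear with
  | zero => exact ⟨1, one_ne_zero, 0, by rw [map_zero, mul_zero]⟩
  | add w w' h h' =>
    obtain ⟨c, hc, t, ht⟩ := h
    obtain ⟨c', hc', t', ht'⟩ := h'
    refine ⟨c * c', mul_ne_zero hc hc', algebraMap B _ c' * t + algebraMap B _ c * t', ?_⟩
    rw [map_add, map_mul, map_mul, ext_algebraMap, ext_algebraMap, ht, ht', map_mul, mul_add,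
      ← mul_assoc, ← mul_assoc, Algebra.commutes c' (algebraMap B _ c)]
  | single g a =>
    obtain ⟨b, c, hc, rfl⟩ := IsFractionRing.div_surjective (A := B) a
    have hc' : c ≠ 0 := nonZeroDivisors.ne_zero hc
    have hc'' : algebraMap B (FractionRing B) c ≠ 0 := fun h =>
      hc' (IsFractionRing.injective B (FractionRing B) (by rw [h, map_zero]))
    refine ⟨c, hc', MonoidAlgebra.single g b, ?_⟩
    rw [ext_single, smul_single', mul_div_cancel₀ _ hc'']

/-- Extension of scalars for vectors. -/
noncomputable def extv (B : Type v) [CommRing B] [IsDomain B] (D : Type u) [Group D] {X : Type*}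
    (f : X → MonoidAlgebra B D) : X → MonoidAlgebra (FractionRing B) D := fun y => ext B D (f y)

theorem extv_injective {X : Type*} : Function.Injective (extv B D (X := X)) := fun _ _ h =>
  funext fun y => ext_injective (congrFun h y)

theorem extv_lc {n : ℕ} {X : Type*} (v : Fin n → MonoidAlgebra B D)
    (z : Fin n → X → MonoidAlgebra B D) :
    extv B D (Fintype.linearCombination (MonoidAlgebra B D) z v) =
      Fintype.linearCombination (MonoidAlgebra (FractionRing B) D) (fun i => extv B D (z i))
        (extv B D v) := by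
  funext y
  rw [Fintype.linearCombination_apply, Fintype.linearCombination_apply, Finset.sum_apply]
  change ext B D ((∑ i, v i • z i) y) = _
  rw [Finset.sum_apply, map_sum]
  exact Finset.sum_congr rfl fun i _ => map_mul (ext B D) _ _

theorem extv_smul {X : Type*} (c : B) (f : X → MonoidAlgebra B D) :
    extv B D (algebraMap B (MonoidAlgebra B D) c • f) =
      algebraMap B (MonoidAlgebra (FractionRing B) D) c • extv B D f := by
  funext y
  change ext B D (_ * _) = _ * _
  rw [map_mul, ext_algebraMap]
  rfl

theorem map_eq_lc {R : Type*} [Ring R] {a : ℕ} {M : Type*} [AddCommGroup M] [Module R M]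
    (φ : (Fin a → R) →ₗ[R] M) :
    φ = Fintype.linearCombination R fun i => φ (Pi.single i 1) := by
  refine LinearMap.pi_ext' fun i => LinearMap.ext_ring ?_
  rw [LinearMap.comp_apply, LinearMap.comp_apply, LinearMap.single_apply,
    Fintype.linearCombination_apply_single, one_smul]

/-- Kernels of maps between finitely generated free modules are generically locally free. -/
theorem genLF_ker_fin (hD : TWO.{u, v} D) {a b : ℕ}
    (φ : (Fin a → MonoidAlgebra B D) →ₗ[MonoidAlgebra B D] (Fin b → MonoidAlgebra B D)) :
    GenLF B (MonoidAlgebra B D) (LinearMap.ker φ) := by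
  classical
  let φ' : (Fin a → MonoidAlgebra (FractionRing B) D) →ₗ[MonoidAlgebra (FractionRing B) D]
      (Fin b → MonoidAlgebra (FractionRing B) D) :=
    Fintype.linearCombination _ fun i => extv B D (φ (Pi.single i 1))
  have hφ : ∀ v, extv B D (φ v) = φ' (extv B D v) := by
    intro v
    have h := extv_lc v fun i => φ (Pi.single i 1)
    rw [← map_eq_lc φ] at h
    exact h
  refine GenLF.of_local fun s => ?_
  let e : LinearMap.ker φ → LinearMap.ker φ' := fun y => ⟨extv B D y.1, by
    rw [LinearMap.mem_ker, ← hφ, (LinearMap.mem_ker.1 y.2)]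
    funext _
    exact map_zero (ext B D)⟩
  have hproj : Module.Projective (MonoidAlgebra (FractionRing B) D) (LinearMap.ker φ') :=
    hD (FractionRing B) a b φ'
  obtain ⟨n, m, j, hj, hv⟩ :=
    exists_free_of_proj (S := MonoidAlgebra (FractionRing B) D) (s.image e)
  let w : Fin n × (Fin a ⊕ Fin m) → MonoidAlgebra (FractionRing B) D := fun p =>
    Sum.elim (j (Pi.single p.1 1)).1.1 (j (Pi.single p.1 1)).2 p.2
  obtain ⟨c, hc, hw⟩ := exists_common
    (p := fun (c : B) p => ∃ t, ext B D t = algebraMap B (MonoidAlgebra (FractionRing B) D) c * w p)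
    (by
      rintro c d p ⟨t, ht⟩
      exact ⟨algebraMap B _ d * t, by rw [map_mul, ext_algebraMap, ht, map_mul, mul_assoc]⟩)
    Finset.univ fun p _ => exists_int (w p)
  choose t ht using fun p => hw p (Finset.mem_univ p)
  have hz : ∀ i, extv B D (fun k => t (i, Sum.inl k)) =
      algebraMap B (MonoidAlgebra (FractionRing B) D) c • (j (Pi.single i 1)).1.1 := fun i =>
    funext fun k => ht (i, Sum.inl k)
  have hf : ∀ i, extv B D (fun k => t (i, Sum.inr k)) =
      algebraMap B (MonoidAlgebra (FractionRing B) D) c • (j (Pi.single i 1)).2 := fun i =>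
    funext fun k => ht (i, Sum.inr k)
  let z : Fin n → LinearMap.ker φ := fun i => ⟨fun k => t (i, Sum.inl k), by
    rw [LinearMap.mem_ker]
    apply extv_injective
    rw [hφ, hz, map_smul, (LinearMap.mem_ker.1 (j (Pi.single i 1)).1.2), smul_zero]
    funext _
    exact (map_zero (ext B D)).symm⟩
  let f : Fin n → Fin m → MonoidAlgebra B D := fun i k => t (i, Sum.inr k)
  let j' : (Fin n → MonoidAlgebra B D) →ₗ[MonoidAlgebra B D]
      LinearMap.ker φ × (Fin m → MonoidAlgebra B D) :=
    (Fintype.linearCombination _ z).prod (Fintype.linearCombination _ f)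
  have hj1 : ∀ v, extv B D (j' v).1.1 =
      algebraMap B (MonoidAlgebra (FractionRing B) D) c • (j (extv B D v)).1.1 := by
    intro v
    have h1 : (j' v).1.1 = Fintype.linearCombination (MonoidAlgebra B D) (fun i => (z i).1) v := by
      change (LinearMap.ker φ).subtype (Fintype.linearCombination _ z v) = _
      rw [Fintype.linearCombination_apply, Fintype.linearCombination_apply, map_sum]
      rfl
    rw [h1, extv_lc, Fintype.linearCombination_apply]
    have h2 := LinearMap.congr_fun (map_eq_lc ((LinearMap.ker φ').subtype ∘ₗ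
      LinearMap.fst _ _ _ ∘ₗ j)) (extv B D v)
    change (j (extv B D v)).1.1 = _ at h2
    rw [h2, Fintype.linearCombination_apply, Finset.smul_sum]
    refine Finset.sum_congr rfl fun i _ => ?_
    change _ • extv B D (fun k => t (i, Sum.inl k)) = _
    rw [hz, smul_smul, smul_smul, Algebra.commutes]
    rfl
  have hj2 : ∀ v, extv B D (j' v).2 =
      algebraMap B (MonoidAlgebra (FractionRing B) D) c • (j (extv B D v)).2 := by
    intro v
    have h1 : (j' v).2 = Fintype.linearCombination (MonoidAlgebra B D) f v := rfl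
    rw [h1, extv_lc, Fintype.linearCombination_apply]
    have h2 := LinearMap.congr_fun (map_eq_lc (LinearMap.snd _ _ _ ∘ₗ j)) (extv B D v)
    change (j (extv B D v)).2 = _ at h2
    rw [h2, Fintype.linearCombination_apply, Finset.smul_sum]
    refine Finset.sum_congr rfl fun i _ => ?_
    change _ • extv B D (fun k => t (i, Sum.inr k)) = _
    rw [hf, smul_smul, smul_smul, Algebra.commutes]
    rfl
  have hreg : ∀ (X : Type) (y : X → MonoidAlgebra (FractionRing B) D),
      algebraMap B (MonoidAlgebra (FractionRing B) D) c • y = 0 → y = 0 := by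
    intro X y h
    funext x
    have h1 := congrFun h x
    change algebraMap B _ c * y x = 0 at h1
    have hc' : algebraMap B (FractionRing B) c ≠ 0 := fun h =>
      hc (IsFractionRing.injective B (FractionRing B) (by rw [h, map_zero]))
    rw [← Algebra.smul_def] at h1
    ext g
    have h2 : (c • y x).coeff g = 0 := by rw [h1]; rfl
    rw [MonoidAlgebra.coeff_smul_apply, Algebra.smul_def] at h2
    exact (mul_eq_zero.1 h2).resolve_left hc'
  have hzero : ∀ X : Type, extv B D (0 : X → MonoidAlgebra B D) = 0 := fun X =>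
    funext fun _ => map_zero (ext B D)
  refine ⟨n, m, j', ?_, ?_⟩
  · rw [injective_iff_map_eq_zero]
    intro v hv0
    apply extv_injective
    have h3 : j (extv B D v) = 0 := by
      ext1
      · apply Subtype.ext
        apply hreg
        rw [← hj1, hv0]
        exact hzero _
      · apply hreg
        rw [← hj2, hv0]
        exact hzero _
    rw [(injective_iff_map_eq_zero j).1 hj _ h3, hzero]
  · intro y hy
    obtain ⟨v, hv⟩ := hv (e y) (Finset.mem_image_of_mem e hy)
    obtain ⟨c', hc', hw'⟩ := exists_common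
      (p := fun (c : B) (i : Fin n) => ∃ t, ext B D t =
        algebraMap B (MonoidAlgebra (FractionRing B) D) c * v i)
      (by
        rintro c d p ⟨t, ht⟩
        exact ⟨algebraMap B _ d * t, by rw [map_mul, ext_algebraMap, ht, map_mul, mul_assoc]⟩)
      Finset.univ fun i _ => exists_int (v i)
    choose v' hv' using fun i => hw' i (Finset.mem_univ i)
    have hv'' : extv B D v' = algebraMap B (MonoidAlgebra (FractionRing B) D) c' • v :=
      funext hv'
    refine ⟨c * c', mul_ne_zero hc hc', v', ?_⟩
    ext1
    · apply Subtype.ext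
      apply extv_injective
      rw [hj1, hv'', map_smul, hv]
      change _ • _ • extv B D y.1 = extv B D (algebraMap B (MonoidAlgebra B D) (c * c') • y.1)
      rw [extv_smul, map_mul, mul_smul]
    · apply extv_injective
      rw [hj2, hv'', map_smul, hv]
      change _ • _ • (0 : Fin m → _) = extv B D 0
      rw [smul_zero, smul_zero, hzero]

/-- Kernels of maps from finitely generated free modules to free modules are generically locally
free. -/
theorem genLF_ker (hD : TWO.{u, v} D) {a : ℕ} {X : Type*}
    (φ : (Fin a → MonoidAlgebra B D) →ₗ[MonoidAlgebra B D] (X →₀ MonoidAlgebra B D)) :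
    GenLF B (MonoidAlgebra B D) (LinearMap.ker φ) := by
  classical
  let Y : Finset X := Finset.univ.biUnion fun i => (φ (Pi.single i 1)).support
  have hY : ∀ v t, t ∉ Y → φ v t = 0 := by
    intro v t ht
    rw [map_eq_lc φ, Fintype.linearCombination_apply, Finsupp.finsetSum_apply]
    refine Finset.sum_eq_zero fun i _ => ?_
    rw [Finsupp.smul_apply]
    have h0 : φ (Pi.single i 1) t = 0 := by
      by_contra hne
      exact ht (Finset.mem_biUnion.2 ⟨i, Finset.mem_univ i, Finsupp.mem_support_iff.2 hne⟩)
    rw [h0, smul_zero]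
  let r : (X →₀ MonoidAlgebra B D) →ₗ[MonoidAlgebra B D] (Fin Y.card → MonoidAlgebra B D) :=
    LinearMap.pi fun a => Finsupp.lapply (Y.equivFin.symm a : X)
  have hker : LinearMap.ker φ = LinearMap.ker (r ∘ₗ φ) := by
    ext v
    rw [LinearMap.mem_ker, LinearMap.mem_ker, LinearMap.comp_apply]
    refine ⟨fun h => by rw [h, map_zero], fun h => ?_⟩
    ext1 t
    by_cases ht : t ∈ Y
    · have h1 := congrFun h (Y.equivFin ⟨t, ht⟩)
      change φ v (Y.equivFin.symm (Y.equivFin ⟨t, ht⟩) : X) = 0 at h1
      rw [Equiv.symm_apply_apply] at h1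
      exact h1
    · exact hY v t ht
  rw [hker]
  exact genLF_ker_fin hD (r ∘ₗ φ)

end Base

section Free

variable {B : Type v} [CommRing B] [IsDomain B] {N : Type x} [AddCommGroup N] [Module B N]

/-- Finitely generated modules over a domain are generically free. -/
theorem exists_gen_free [Module.Finite B N] :
    ∃ (c : B) (n : ℕ) (α : N →ₗ[B] (Fin n → B)) (β : (Fin n → B) →ₗ[B] N), c ≠ 0 ∧
      (∀ v, α (β v) = c • v) ∧ ∀ y, β (α y) = c • y := by
  classical
  obtain ⟨k, g, hg⟩ := Module.Finite.exists_fin (R := B) (M := N)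
  obtain ⟨s, hs, hmax⟩ := exists_maximal_linearIndepOn B g
  let e : s ≃ Fin (Fintype.card s) := Fintype.equivFin s
  let b : Fin (Fintype.card s) → N := fun i => g (e.symm i)
  have hb : LinearIndependent B b :=
    LinearIndependent.comp hs e.symm e.symm.injective
  let β : (Fin (Fintype.card s) → B) →ₗ[B] N := Fintype.linearCombination B b
  have hβ : Function.Injective β := linearIndependent_iff_injective_fintypeLinearCombination.1 hb
  have hrange : LinearMap.range β = Submodule.span B (g '' s) := by
    rw [Fintype.range_linearCombination]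
    congr 1
    ext y
    constructor
    · rintro ⟨i, rfl⟩
      exact ⟨_, (e.symm i).2, rfl⟩
    · rintro ⟨i, hi, rfl⟩
      exact ⟨e ⟨i, hi⟩, by change g (e.symm (e ⟨i, hi⟩)) = g i; rw [e.symm_apply_apply]⟩
  obtain ⟨c, hc, h⟩ := exists_common (p := fun (c : B) i => c • g i ∈ LinearMap.range β)
    (by
      intro c d i h
      rw [mul_smul]
      exact Submodule.smul_mem _ _ h) Finset.univ (by
      intro i _
      by_cases hi : i ∈ s
      · exact ⟨1, one_ne_zero, by
          rw [one_smul, hrange]
          exact Submodule.subset_span ⟨i, hi, rfl⟩⟩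
      · obtain ⟨a, ha, h⟩ := hmax i hi
        exact ⟨a, ha, by rw [hrange]; exact h⟩)
  have hall : ∀ y, c • y ∈ LinearMap.range β := by
    intro y
    have hy : y ∈ Submodule.span B (Set.range g) := by rw [hg]; exact Submodule.mem_top
    induction hy using Submodule.span_induction with
    | mem y hy =>
      obtain ⟨i, rfl⟩ := hy
      exact h i (Finset.mem_univ i)
    | zero => rw [smul_zero]; exact Submodule.zero_mem _
    | add y y' _ _ h h' => rw [smul_add]; exact Submodule.add_mem _ h h'
    | smul a y _ h => rw [smul_comm]; exact Submodule.smul_mem _ _ h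
  let E := LinearEquiv.ofInjective β hβ
  let α : N →ₗ[B] (Fin (Fintype.card s) → B) :=
    E.symm.toLinearMap ∘ₗ LinearMap.codRestrict (LinearMap.range β) (c • LinearMap.id) hall
  have hβα : ∀ y, β (α y) = c • y := by
    intro y
    have h1 : E (α y) = ⟨c • y, hall y⟩ := E.apply_symm_apply _
    exact congrArg Subtype.val h1
  refine ⟨c, _, α, β, hc, fun v => hβ ?_, hβα⟩
  rw [hβα, map_smul]

variable (T : Type w) [Ring T] [Algebra B T]

omit [IsDomain B] in
theorem baseChange_smul {M : Type*} [AddCommGroup M] [Module B M] {c : B} (f : M →ₗ[B] M)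
    (hf : ∀ y, f y = c • y) (y : TensorProduct B T M) :
    LinearMap.baseChange T f y = algebraMap B T c • y := by
  induction y using TensorProduct.induction_on with
  | zero => rw [map_zero, smul_zero]
  | add y y' h h' => rw [map_add, h, h', smul_add]
  | tmul t y =>
    rw [LinearMap.baseChange_tmul, hf, TensorProduct.tmul_smul, algebraMap_smul]

/-- Generic freeness after extension of scalars. -/
theorem exists_gen_free_baseChange [Module.Finite B N] :
    ∃ (c : B) (n : ℕ) (α : TensorProduct B T N →ₗ[T] (Fin n → T))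
      (β : (Fin n → T) →ₗ[T] TensorProduct B T N), c ≠ 0 ∧
      (∀ v, α (β v) = algebraMap B T c • v) ∧ ∀ y, β (α y) = algebraMap B T c • y := by
  classical
  obtain ⟨c, n, α, β, hc, h1, h2⟩ := exists_gen_free (B := B) (N := N)
  let E : TensorProduct B T (Fin n → B) ≃ₗ[T] (Fin n → T) :=
    (Algebra.TensorProduct.basis T (Pi.basisFun B (Fin n))).equivFun
  refine ⟨c, n, E.toLinearMap ∘ₗ LinearMap.baseChange T α,
    LinearMap.baseChange T β ∘ₗ E.symm.toLinearMap, hc, fun v => ?_, fun y => ?_⟩
  · change E (LinearMap.baseChange T α (LinearMap.baseChange T β (E.symm v))) = _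
    rw [← LinearMap.comp_apply, ← LinearMap.baseChange_comp, baseChange_smul T (α ∘ₗ β) h1,
      map_smul, E.apply_symm_apply]
  · change LinearMap.baseChange T β (E.symm (E (LinearMap.baseChange T α y))) = _
    rw [E.symm_apply_apply, ← LinearMap.comp_apply, ← LinearMap.baseChange_comp,
      baseChange_smul T (β ∘ₗ α) h2]

end Free

section Kernel

variable {B : Type v} [CommRing B] [IsDomain B] {D : Type u} [Group D]

/-- Kernels of maps from a generically free module to a module which is generically contained in a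
free module are generically locally free. -/
theorem genLF_ker_of (hD : TWO.{u, v} D) {F : Type x} [AddCommGroup F]
    [Module (MonoidAlgebra B D) F] {Q : Type*} [AddCommGroup Q] [Module (MonoidAlgebra B D) Q]
    {X : Type*} {n : ℕ} {c c' : B} (hc : c ≠ 0) (hc' : c' ≠ 0)
    (α : F →ₗ[MonoidAlgebra B D] (Fin n → MonoidAlgebra B D))
    (β : (Fin n → MonoidAlgebra B D) →ₗ[MonoidAlgebra B D] F)
    (h1 : ∀ v, α (β v) = algebraMap B (MonoidAlgebra B D) c • v)
    (h2 : ∀ y, β (α y) = algebraMap B (MonoidAlgebra B D) c • y)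
    (Ψ : F →ₗ[MonoidAlgebra B D] Q)
    (γ : Q →ₗ[MonoidAlgebra B D] (X →₀ MonoidAlgebra B D))
    (hγ : ∀ y, γ y = 0 → algebraMap B (MonoidAlgebra B D) c' • y = 0) :
    GenLF B (MonoidAlgebra B D) (LinearMap.ker Ψ) := by
  let Φ : (Fin n → MonoidAlgebra B D) →ₗ[MonoidAlgebra B D] (X →₀ MonoidAlgebra B D) :=
    γ ∘ₗ Ψ ∘ₗ β
  let e : LinearMap.ker Ψ →ₗ[MonoidAlgebra B D] LinearMap.ker Φ :=
    LinearMap.codRestrict _ (α ∘ₗ (LinearMap.ker Ψ).subtype) (by
      intro y
      rw [LinearMap.mem_ker]
      change γ (Ψ (β (α y.1))) = 0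
      rw [h2, map_smul, LinearMap.mem_ker.1 y.2, smul_zero, map_zero])
  refine GenLF.transfer (fun c hc t ht => tf_base c hc t ht) (genLF_ker hD Φ) e ?_ ?_
  · intro y
    have hy : γ (Ψ (β y.1)) = 0 := LinearMap.mem_ker.1 y.2
    have hz : algebraMap B (MonoidAlgebra B D) c' • β y.1 ∈ LinearMap.ker Ψ := by
      rw [LinearMap.mem_ker, map_smul]
      exact hγ _ hy
    refine ⟨c * c', mul_ne_zero hc hc', ⟨_, hz⟩, ?_⟩
    apply Subtype.ext
    change α (algebraMap B (MonoidAlgebra B D) c' • β y.1) =
      algebraMap B (MonoidAlgebra B D) (c * c') • y.1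
    rw [map_smul, h1, smul_smul, map_mul, Algebra.commutes]
  · intro z hz
    refine ⟨c, hc, Subtype.ext ?_⟩
    have h3 : α z.1 = 0 := congrArg Subtype.val hz
    change algebraMap B (MonoidAlgebra B D) c • z.1 = 0
    rw [← h2, h3, map_zero]

end Kernel

end Pool.Agent.Lib.MP_551055_al.T4
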