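import Mathlib

/-!
# Vectors over a group ring with coefficients in ideals
-/

set_option autoImplicit false

namespace Pool.Agent.Lib.MP_551055_al.T4

universe u v

section Csub

variable {A : Type v} [CommRing A] {Γ : Type u} [Group Γ]

/-- The elements with all coefficients in `I`. -/
theorem coeff_mul_mem (I : Ideal A) (r y : MonoidAlgebra A Γ) (hy : ∀ g, y.coeff g ∈ I) (g : Γ) :
    (r * y).coeff g ∈ I := by
  classical
  rw [MonoidAlgebra.coeff_mul, Finsupp.sum]
  refine Ideal.sum_mem _ fun a _ => ?_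
  rw [Finsupp.sum]
  refine Ideal.sum_mem _ fun b _ => ?_
  split_ifs
  · exact I.mul_mem_left _ (hy b)
  · exact I.zero_mem

/-- The vectors with coefficients in the ideals `J i`. -/
def csub (Γ : Type u) [Group Γ] {ι : Type} (J : ι → Ideal A) :
    Submodule (MonoidAlgebra A Γ) (ι → MonoidAlgebra A Γ) where
  carrier := {v | ∀ i g, (v i).coeff g ∈ J i}
  add_mem' := fun h h' i g => (J i).add_mem (h i g) (h' i g)
  zero_mem' := fun i _ => (J i).zero_mem
  smul_mem' := fun r _ h i g => coeff_mul_mem (J i) r _ (h i) g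

variable {ι : Type} {J : ι → Ideal A}

theorem mem_csub {v : ι → MonoidAlgebra A Γ} : v ∈ csub Γ J ↔ ∀ i g, (v i).coeff g ∈ J i := Iff.rfl

end Csub

end Pool.Agent.Lib.MP_551055_al.T4
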