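import Pool.Agent.Lib.MP_551055_al.T4.Perf
import Pool.Agent.Lib.MP_551055_al.T4.Csub

/-!
# Base change of modules with finite resolutions

`A` is a commutative ring such that all finitely generated modules have finite resolutions. Then the
quotient of a free `A[Γ]`-module by the submodule of the vectors with coefficients in given ideals
has a finite resolution.
-/

set_option autoImplicit false

namespace Pool.Agent.Lib.MP_551055_al.T4

open Pool.Agent.Lib.MP_551055_al
open Pool.Agent.Lib.MP_551055_al.LS
open Pool.Agent.Lib.MP_551055_al.LD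

universe u

/-- Base change to a flat algebra. -/
theorem perf_baseChange {A : Type u} [CommRing A] (R : Type u) [Ring R] [Algebra A R]
    [Module.Flat A R] {N : Type u} [AddCommGroup N] [Module A N] (h : Perf A N) :
    Perf R (TensorProduct A R N) := by
  obtain ⟨d, hd⟩ := h
  induction d generalizing N with
  | zero =>
    obtain ⟨h1, h2⟩ := hd
    exact ⟨0, inferInstance, inferInstance⟩
  | succ d ih =>
    obtain ⟨n, f, hf, hK⟩ := hd
    have h1 := ih hK
    have h2 : Perf R (TensorProduct A R (Fin n → A)) := ⟨0, inferInstance, inferInstance⟩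
    refine Perf.right (i := LinearMap.baseChange R (LinearMap.ker f).subtype)
      (q := LinearMap.baseChange R f) ?_ ?_ ?_ h1 h2
    · exact Module.Flat.lTensor_preserves_injective_linearMap (LinearMap.ker f).subtype
        (LinearMap.ker f).injective_subtype
    · exact LinearMap.lTensor_surjective R hf
    · intro y
      have h3 : Function.Exact (LinearMap.ker f).subtype f := fun y =>
        ⟨fun h => ⟨⟨y, h⟩, rfl⟩, fun ⟨x, hx⟩ => by rw [← hx]; exact x.2⟩
      exact lTensor_exact R h3 hf y

section

variable {A : Type u} [CommRing A] {Γ : Type u} [Group Γ] {ι : Type} [Finite ι]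

/-- The quotient by the vectors with coefficients in given ideals. -/
theorem perf_quot_coeff
    (hA : ∀ (N : Type u) [AddCommGroup N] [Module A N], Module.Finite A N → Perf A N)
    (J : ι → Ideal A) (C : Submodule (MonoidAlgebra A Γ) (ι → MonoidAlgebra A Γ))
    (hC : ∀ v, v ∈ C ↔ ∀ i d, (v i).coeff d ∈ J i) :
    Perf (MonoidAlgebra A Γ) ((ι → MonoidAlgebra A Γ) ⧸ C) := by
  classical
  have := Fintype.ofFinite ι
  let C₀ : Submodule A (ι → A) := Submodule.pi Set.univ fun i => J i
  have hC₀ : ∀ a : ι → A, a ∈ C₀ ↔ ∀ i, a i ∈ J i := by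
    intro a
    simp [C₀]
  let N : Type u := (ι → A) ⧸ C₀
  have hN : Perf A N := hA N inferInstance
  have h1 : Perf (MonoidAlgebra A Γ) (TensorProduct A (MonoidAlgebra A Γ) N) :=
    perf_baseChange (MonoidAlgebra A Γ) hN
  -- the map to the quotient
  let φ₀ : MonoidAlgebra A Γ →ₗ[MonoidAlgebra A Γ] N →ₗ[A] ((ι → MonoidAlgebra A Γ) ⧸ C) :=
    { toFun := fun r => C₀.liftQ
        { toFun := fun a => C.mkQ fun i => a i • r
          map_add' := fun a b => by
            rw [← map_add]
            congr 1
            funext i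
            exact add_smul _ _ _
          map_smul' := fun c a => by
            have h2 : (fun i => (c • a) i • r) = c • fun i => a i • r := by
              funext i
              exact mul_smul _ _ _
            rw [h2]
            rfl } (by
          intro a ha
          rw [LinearMap.mem_ker]
          change C.mkQ (fun i => a i • r) = 0
          rw [Submodule.mkQ_apply, Submodule.Quotient.mk_eq_zero, hC]
          intro i d
          change a i * r.coeff d ∈ J i
          exact (J i).mul_mem_right _ ((hC₀ a).1 ha i))
      map_add' := fun r s => by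
        apply Submodule.linearMap_qext
        refine LinearMap.ext fun a => ?_
        change C.mkQ (fun i => a i • (r + s)) = C.mkQ (fun i => a i • r) + C.mkQ (fun i => a i • s)
        rw [← map_add]
        congr 1
        funext i
        exact smul_add _ _ _
      map_smul' := fun t r => by
        apply Submodule.linearMap_qext
        refine LinearMap.ext fun a => ?_
        change C.mkQ (fun i => a i • (t * r)) = t • C.mkQ (fun i => a i • r)
        rw [← map_smul]
        congr 1
        funext i
        exact (mul_smul_comm _ _ _).symm }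
  let φ : TensorProduct A (MonoidAlgebra A Γ) N →ₗ[MonoidAlgebra A Γ]
      ((ι → MonoidAlgebra A Γ) ⧸ C) := TensorProduct.AlgebraTensorModule.lift φ₀
  have hφ : ∀ r a, φ (r ⊗ₜ[A] C₀.mkQ a) = C.mkQ fun i => a i • r := fun r a => rfl
  let ψ₀ : (ι → MonoidAlgebra A Γ) →ₗ[MonoidAlgebra A Γ] TensorProduct A (MonoidAlgebra A Γ) N :=
    { toFun := fun v => ∑ i, v i ⊗ₜ[A] C₀.mkQ (Pi.single i 1)
      map_add' := fun v w => by
        rw [← Finset.sum_add_distrib]
        exact Finset.sum_congr rfl fun i _ => TensorProduct.add_tmul _ _ _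
      map_smul' := fun r v => by
        rw [RingHom.id_apply, Finset.smul_sum]
        exact Finset.sum_congr rfl fun i _ => rfl }
  have hsingle : ∀ (i : ι) (a : A), a ∈ J i → a • C₀.mkQ (Pi.single i 1) = 0 := by
    intro i a ha
    rw [← map_smul, Submodule.mkQ_apply, Submodule.Quotient.mk_eq_zero, hC₀]
    intro l
    by_cases hl : l = i
    · subst hl
      rw [Pi.smul_apply, Pi.single_eq_same, smul_eq_mul, mul_one]
      exact ha
    · rw [Pi.smul_apply, Pi.single_eq_of_ne hl, smul_zero]
      exact (J l).zero_mem
  have hψ₀ : C ≤ LinearMap.ker ψ₀ := by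
    intro v hv
    rw [LinearMap.mem_ker]
    refine Finset.sum_eq_zero fun i _ => ?_
    have h2 := (hC v).1 hv i
    have h3 : v i = (v i).coeff.sum fun d a => MonoidAlgebra.single d a := by
      apply MonoidAlgebra.ext
      rw [MonoidAlgebra.coeff_finsuppSum]
      exact (Finsupp.sum_single (v i).coeff).symm
    rw [h3, Finsupp.sum, TensorProduct.sum_tmul]
    refine Finset.sum_eq_zero fun d _ => ?_
    have h4 : (MonoidAlgebra.single d ((v i).coeff d) : MonoidAlgebra A Γ) =
        ((v i).coeff d) • MonoidAlgebra.single d 1 := by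
      rw [MonoidAlgebra.smul_single, smul_eq_mul, mul_one]
    rw [h4, TensorProduct.smul_tmul, hsingle i _ (h2 d), TensorProduct.tmul_zero]
  let ψ : ((ι → MonoidAlgebra A Γ) ⧸ C) →ₗ[MonoidAlgebra A Γ]
      TensorProduct A (MonoidAlgebra A Γ) N := C.liftQ ψ₀ hψ₀
  have hψ : ∀ v, ψ (C.mkQ v) = ∑ i, v i ⊗ₜ[A] C₀.mkQ (Pi.single i 1) := fun v => rfl
  have e1 : ∀ z, ψ (φ z) = z := by
    intro z
    induction z using TensorProduct.induction_on with
    | zero => rw [map_zero, map_zero]
    | add x y hx hy => rw [map_add, map_add, hx, hy]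
    | tmul r n =>
      obtain ⟨a, rfl⟩ := C₀.mkQ_surjective n
      rw [hφ, hψ]
      have h2 : a = ∑ i, a i • (Pi.single i 1 : ι → A) := by
        funext l
        rw [Finset.sum_apply, Finset.sum_eq_single l]
        · rw [Pi.smul_apply, Pi.single_eq_same, smul_eq_mul, mul_one]
        · intro i _ hi
          rw [Pi.smul_apply, Pi.single_eq_of_ne (Ne.symm hi), smul_zero]
        · intro h
          exact absurd (Finset.mem_univ l) h
      have h3 : C₀.mkQ a = ∑ i, a i • C₀.mkQ (Pi.single i 1) := by
        conv_lhs => rw [h2]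
        rw [map_sum]
        exact Finset.sum_congr rfl fun i _ => map_smul _ _ _
      rw [h3, TensorProduct.tmul_sum]
      exact Finset.sum_congr rfl fun i _ => TensorProduct.smul_tmul _ _ _
  have e2 : ∀ z, φ (ψ z) = z := by
    intro z
    obtain ⟨v, rfl⟩ := C.mkQ_surjective z
    rw [hψ, map_sum]
    have h2 : ∀ i, φ (v i ⊗ₜ[A] C₀.mkQ (Pi.single i 1)) = C.mkQ (Pi.single i (v i)) := by
      intro i
      rw [hφ]
      congr 1
      funext l
      by_cases hl : l = i
      · subst hl
        rw [Pi.single_eq_same, Pi.single_eq_same, one_smul]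
      · rw [Pi.single_eq_of_ne hl, Pi.single_eq_of_ne hl, zero_smul]
    rw [Finset.sum_congr rfl fun i _ => h2 i, ← map_sum]
    congr 1
    exact Finset.univ_sum_single v
  exact h1.congr (LinearEquiv.ofBijective φ ⟨fun x y h => by rw [← e1 x, h, e1], fun z =>
    ⟨ψ z, e2 z⟩⟩)

/-- The quotient by the vectors with coefficients in given ideals. -/
theorem perf_csub
    (hA : ∀ (N : Type u) [AddCommGroup N] [Module A N], Module.Finite A N → Perf A N)
    (J : ι → Ideal A) : Perf (MonoidAlgebra A Γ) ((ι → MonoidAlgebra A Γ) ⧸ csub Γ J) :=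
  perf_quot_coeff hA J (csub Γ J) fun _ => Iff.rfl

end

end Pool.Agent.Lib.MP_551055_al.T4
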