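import Pool.Agent.Lib.MP_551055_al.T4.SNil
import Pool.Agent.Lib.MP_551055_al.T4.Ind

/-!
# Bridge: nil modules and nilpotent matrices
-/

set_option autoImplicit false

namespace Pool.Agent.Lib.MP_551055_al.T4

open Pool.Agent.Lib.MP_551055_al
open Pool.Agent.Lib.MP_551055_al.LS
open Pool.Agent.Lib.MP_551055_al.LO
open Pool.Agent.Lib.MP_551055_al.LD

open scoped Matrix

universe u

section

variable {A : Type u} [CommRing A] {G : Type u} [Group G] {D : Subgroup G}

/-- The nil module of a matrix. -/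
noncomputable def matM {ι : Type} [Fintype ι] [DecidableEq ι]
    (B : Matrix ι ι (MonoidAlgebra A G)) :
    (ι → MonoidAlgebra A D) →ₛₗ[incD D A] Ind A D (ι → MonoidAlgebra A D) :=
  ((toSE A D ι).symm.toLinearMap.comp (Matrix.toLinearMapRight' B)).comp (incL A D ι)

theorem toS_matM {ι : Type} [Fintype ι] [DecidableEq ι] (B : Matrix ι ι (MonoidAlgebra A G))
    (v : ι → MonoidAlgebra A D) : toS A D ι (matM B v) = incV D v ᵥ* B := by
  change toS A D ι ((toSE A D ι).symm (Matrix.toLinearMapRight' B (incL A D ι v))) = _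
  rw [← toSE_apply, LinearEquiv.apply_symm_apply]
  rfl

theorem matM_apply {ι : Type} [Fintype ι] [DecidableEq ι] (B : Matrix ι ι (MonoidAlgebra A G))
    (v : ι → MonoidAlgebra A D) (x : G ⧸ D) : matM B v x = cmp D (rep D x) (incV D v ᵥ* B) := by
  funext i
  apply MonoidAlgebra.ext
  ext d
  rw [cmp_coeff, ← toS_matM, toS_coeff]

/-- The vectors killed by a power of the matrix. -/
noncomputable def matK {ι : Type} [Fintype ι] [DecidableEq ι] (D : Subgroup G)
    (B : Matrix ι ι (MonoidAlgebra A G)) (i : ℕ) :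
    Submodule (MonoidAlgebra A D) (ι → MonoidAlgebra A D) :=
  LinearMap.ker ((Matrix.toLinearMapRight' (B ^ i)).comp (incL A D ι))

theorem mem_matK {ι : Type} [Fintype ι] [DecidableEq ι] {B : Matrix ι ι (MonoidAlgebra A G)}
    {i : ℕ} {v : ι → MonoidAlgebra A D} : v ∈ matK D B i ↔ incV D v ᵥ* B ^ i = 0 := Iff.rfl

theorem matM_snil {ι : Type} [Fintype ι] [DecidableEq ι] (g : G)
    (hur : UR (Γ := G) (crel D g)) (B : Matrix ι ι (MonoidAlgebra A G)) (k : ℕ) (hB : B ^ k = 0)
    (hsupp : ∀ i l γ, (B i l).coeff γ ≠ 0 → ∃ a ∈ D, ∃ b ∈ D, γ = a * g * b) :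
    SNil (matM (D := D) B) := by
  have h0 : ∀ v : ι → MonoidAlgebra A D, v ∈ matK D B 0 → v = 0 := by
    intro v hv
    rw [mem_matK, pow_zero, Matrix.vecMul_one] at hv
    funext i
    exact inc_injective D.subtype Subtype.val_injective ((congrFun hv i).trans (map_zero _).symm)
  refine SNil.of_fil (Fil := fun j => matK D B (k - j)) (N := k) ?_ ?_ ?_
  · rw [eq_top_iff]
    intro v _
    rw [Nat.sub_zero, mem_matK, hB, Matrix.vecMul_zero]
  · intro j v hv x
    rw [matM_apply]
    by_cases hj : j < k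
    · obtain ⟨i, hi⟩ := Nat.exists_eq_add_of_lt hj
      have h1 : k - j = i + 1 := by omega
      have h2 : k - (j + 1) = i := by omega
      rw [h1] at hv
      rw [h2]
      exact cmp_step D g hur B hsupp i v hv (rep D x)
    · have h1 : k - j = 0 := by omega
      rw [h1] at hv
      have h2 : matM B v x = 0 := by
        rw [h0 v hv, map_zero, Ind.zero_apply]
      rw [← matM_apply, h2]
      exact Submodule.zero_mem _
  · rw [Nat.sub_self, eq_bot_iff]
    intro v hv
    rw [Submodule.mem_bot]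
    exact h0 v hv

/-- The bridge. -/
theorem nilOKA_of_ngm (K : K1C (MonoidAlgebra A G))
    (h : ∀ (M : Type u) [AddCommGroup M] [Module (MonoidAlgebra A D) M]
      (f : M →ₛₗ[incD D A] Ind A D M), Perf (MonoidAlgebra A D) M → SNil f → NGM K f) :
    NilOKA K D := by
  intro g hur ι _ _ B k hB hsupp
  have h1 : NGM K (matM (D := D) B) :=
    h _ (matM B) (Perf.free ι) (matM_snil g hur B k hB hsupp)
  have h2 : NG K (ι → MonoidAlgebra A G) (Matrix.toLinearMapRight' B) := by
    refine NG.congr K (toSE A D ι) (fun φ => ?_) h1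
    rw [toSE_apply, toSE_apply]
    have h3 : (toS A D ι) ∘ₗ nu (matM (D := D) B) =
        (Matrix.toLinearMapRight' B) ∘ₗ (toS A D ι) := by
      apply Ind.hom_ext
      intro v
      rw [LinearMap.comp_apply, nu_iota, toS_matM, LinearMap.comp_apply, toS_iota]
      rfl
    exact LinearMap.congr_fun h3 φ
  have h3 := NG.g K h2
  rw [map_add, Matrix.toLinearMapRight'_one]
  exact h3

end

end Pool.Agent.Lib.MP_551055_al.T4
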