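import Mathlib

/-!
# Commutative algebra for the induction over the ideals
-/

set_option autoImplicit false

namespace Pool.Agent.Lib.MP_551055_al.T4

universe u

section

variable {A : Type u} [CommRing A]

/-- A power of a minimal prime over `I` is contained in `I` away from the prime. -/
theorem exists_pow_mul_le [IsNoetherianRing A] {I q : Ideal A} (hq : q ∈ I.minimalPrimes) :
    ∃ (t : ℕ) (c : A), c ∉ q ∧ ∀ x ∈ q ^ t, c * x ∈ I := by
  classical
  have hI : q.IsPrime := hq.1.1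
  obtain ⟨n, hn⟩ := I.exists_radical_pow_le_of_fg I.radical.fg_of_isNoetherianRing
  by_cases hn0 : n = 0
  · rw [hn0, pow_zero, Ideal.one_eq_top, top_le_iff] at hn
    rw [hn, Ideal.minimalPrimes_top] at hq
    exact absurd hq (Set.notMem_empty _)
  have h := I.finite_minimalPrimes_of_isNoetherianRing A
  rw [← I.sInf_minimalPrimes, ← h.coe_toFinset, ← h.toFinset.inf_id_eq_sInf,
    ← Finset.insert_erase (h.mem_toFinset.mpr hq), Finset.inf_insert, id_eq] at hn
  have hn2 : q ^ n * (h.toFinset.erase q).inf id ^ n ≤ I := by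
    rw [← mul_pow]
    exact (Ideal.pow_right_mono Ideal.mul_le_inf n).trans hn
  have hJ : ¬ (h.toFinset.erase q).inf id ^ n ≤ q := by
    rw [hI.pow_le_iff hn0, hI.inf_le']
    rintro ⟨K, hK, hKq⟩
    rw [Finset.mem_erase, h.mem_toFinset] at hK
    exact hK.1 (le_antisymm hKq (hq.2 hK.2.1 hKq))
  obtain ⟨c, hc, hcq⟩ := Set.not_subset.1 hJ
  refine ⟨n, c, hcq, fun x hx => ?_⟩
  rw [mul_comm]
  exact hn2 (Ideal.mul_mem_mul hx hc)

/-- The contraction of the extension of `J` to the localisation at `q`. -/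
def loc (q : Ideal A) [q.IsPrime] (J : Ideal A) : Ideal A where
  carrier := {a | ∃ c ∉ q, c * a ∈ J}
  add_mem' := by
    rintro a b ⟨c, hc, hca⟩ ⟨d, hd, hdb⟩
    refine ⟨c * d, fun h => ?_, ?_⟩
    · rcases Ideal.IsPrime.mem_or_mem inferInstance h with h | h
      · exact hc h
      · exact hd h
    · have h1 : c * d * (a + b) = d * (c * a) + c * (d * b) := by ring
      rw [h1]
      exact J.add_mem (J.mul_mem_left _ hca) (J.mul_mem_left _ hdb)
  zero_mem' := ⟨1, (Ideal.ne_top_iff_one q).1 (Ideal.IsPrime.ne_top inferInstance), by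
    rw [mul_zero]
    exact J.zero_mem⟩
  smul_mem' := by
    rintro r a ⟨c, hc, hca⟩
    refine ⟨c, hc, ?_⟩
    have h1 : c * (r • a) = r * (c * a) := by rw [smul_eq_mul]; ring
    rw [h1]
    exact J.mul_mem_left _ hca

theorem mem_loc {q : Ideal A} [q.IsPrime] {J : Ideal A} {a : A} :
    a ∈ loc q J ↔ ∃ c ∉ q, c * a ∈ J := Iff.rfl

theorem le_loc (q : Ideal A) [q.IsPrime] (J : Ideal A) : J ≤ loc q J := fun a ha =>
  ⟨1, (Ideal.ne_top_iff_one q).1 (Ideal.IsPrime.ne_top inferInstance), by rwa [one_mul]⟩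

theorem loc_mono (q : Ideal A) [q.IsPrime] {J J' : Ideal A} (h : J ≤ J') : loc q J ≤ loc q J' := by
  rintro a ⟨c, hc, hca⟩
  exact ⟨c, hc, h hca⟩

theorem loc_le (q : Ideal A) [q.IsPrime] {J : Ideal A} (h : J ≤ q) : loc q J ≤ q := by
  rintro a ⟨c, hc, hca⟩
  rcases Ideal.IsPrime.mem_or_mem inferInstance (h hca) with h | h
  · exact absurd h hc
  · exact h

/-- The contraction is saturated. -/
theorem loc_sat {q : Ideal A} [q.IsPrime] {J : Ideal A} {c a : A} (hc : c ∉ q)
    (h : c * a ∈ loc q J) : a ∈ loc q J := by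
  obtain ⟨d, hd, hda⟩ := h
  refine ⟨d * c, fun h => ?_, ?_⟩
  · rcases Ideal.IsPrime.mem_or_mem inferInstance h with h | h
    · exact hd h
    · exact hc h
  · rwa [mul_assoc]

/-- One denominator for the contraction. -/
theorem exists_mul_loc [IsNoetherianRing A] (q : Ideal A) [q.IsPrime] (J : Ideal A) :
    ∃ c ∉ q, ∀ a ∈ loc q J, c * a ∈ J := by
  classical
  have hfg : (loc q J).FG := Ideal.fg_of_isNoetherianRing _
  obtain ⟨s, hs⟩ := hfg
  have h1 : ∀ a ∈ s, ∃ c ∉ q, c * a ∈ J := fun a ha => by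
    have h2 : a ∈ loc q J := by
      rw [← hs]
      exact Submodule.subset_span ha
    exact h2
  choose c hc hca using h1
  refine ⟨∏ a ∈ s.attach, c a.1 a.2, ?_, ?_⟩
  · intro h
    obtain ⟨a, _, ha⟩ := (Ideal.IsPrime.prod_mem_iff (p := q)).1 h
    exact hc a.1 a.2 ha
  · intro a ha
    rw [← hs] at ha
    induction ha using Submodule.span_induction with
    | mem x hx =>
      have h3 : c x hx ∣ ∏ a ∈ s.attach, c a.1 a.2 :=
        Finset.dvd_prod_of_mem (fun a : {x // x ∈ s} => c a.1 a.2) (Finset.mem_attach s ⟨x, hx⟩)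
      obtain ⟨d, hd⟩ := h3
      rw [hd]
      have h4 : c x hx * d * x = d * (c x hx * x) := by ring
      rw [h4]
      exact J.mul_mem_left _ (hca x hx)
    | zero =>
      rw [mul_zero]
      exact J.zero_mem
    | add x y _ _ hx hy =>
      rw [mul_add]
      exact J.add_mem hx hy
    | smul r x _ hx =>
      have h4 : (∏ a ∈ s.attach, c a.1 a.2) * (r • x) = r * ((∏ a ∈ s.attach, c a.1 a.2) * x) := by
        rw [smul_eq_mul]
        ring
      rw [h4]
      exact J.mul_mem_left _ hx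

/-- The colon ideals of the powers of an element become stationary. -/
theorem exists_pow_colon [IsNoetherianRing A] (I : Ideal A) (c : A) :
    ∃ m : ℕ, 1 ≤ m ∧ ∀ x, c ^ m * (c ^ m * x) ∈ I → c ^ m * x ∈ I := by
  let J : ℕ →o Submodule A A := ⟨fun n => Submodule.comap (LinearMap.mulLeft A (c ^ n)) I, by
    intro m n hmn x hx
    obtain ⟨k, rfl⟩ := Nat.exists_eq_add_of_le hmn
    change c ^ (m + k) * x ∈ I
    have h1 : c ^ (m + k) * x = c ^ k * (c ^ m * x) := by ring
    rw [h1]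
    exact I.mul_mem_left _ hx⟩
  obtain ⟨n, hn⟩ := monotone_stabilizes_iff_noetherian.2 (inferInstance : IsNoetherian A A) J
  refine ⟨n + 1, Nat.le_add_left 1 n, fun x hx => ?_⟩
  have h1 : x ∈ J (2 * (n + 1)) := by
    change c ^ (2 * (n + 1)) * x ∈ I
    have h2 : c ^ (2 * (n + 1)) * x = c ^ (n + 1) * (c ^ (n + 1) * x) := by ring
    rwa [h2]
  rw [← hn (2 * (n + 1)) (by omega), hn (n + 1) (by omega)] at h1
  exact h1

theorem lt_sup_span {I q : Ideal A} (h : I ≤ q) {c : A} (hc : c ∉ q) : I < I ⊔ Ideal.span {c} := by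
  refine lt_of_le_of_ne le_sup_left fun heq => hc (h ?_)
  rw [heq]
  exact (le_sup_right : Ideal.span {c} ≤ I ⊔ Ideal.span {c}) (Ideal.mem_span_singleton_self c)

end

end Pool.Agent.Lib.MP_551055_al.T4
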