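import Pool.Agent.Lib.MP_551055_al.T4.Gen
import Pool.Agent.Lib.MP_551055_al.Descent

/-!
# The group ring as a free module over the group ring of a subgroup
-/

set_option autoImplicit false

namespace Pool.Agent.Lib.MP_551055_al.T4

open Pool.Agent.Lib.MP_551055_al

universe u v w x

section Chi

variable {B : Type v} [CommRing B] {G : Type u} [Group G] (D : Subgroup G)

/-- The component at a right coset. -/
noncomputable def chiF {n : ℕ} (s : Fin n → MonoidAlgebra B G)
    (p : Fin n × Quotient (QuotientGroup.rightRel D)) : MonoidAlgebra B D :=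
  prj B D.subtype (Subgroup.subtype_injective D) (s p.1 * MonoidAlgebra.single (p.2.out)⁻¹ 1)

theorem chiF_coeff {n : ℕ} (s : Fin n → MonoidAlgebra B G)
    (p : Fin n × Quotient (QuotientGroup.rightRel D)) (d : D) :
    (chiF D s p).coeff d = (s p.1).coeff ((d : G) * p.2.out) := by
  rw [chiF, prj_coeff, MonoidAlgebra.coeff_mul_single_apply, inv_inv, mul_one]
  rfl

theorem chiF_finite {n : ℕ} (s : Fin n → MonoidAlgebra B G) : {p | chiF D s p ≠ 0}.Finite := by
  classical
  let U : Finset (Fin n × Quotient (QuotientGroup.rightRel D)) :=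
    Finset.univ.biUnion fun k => (s k).coeff.support.image fun g =>
      (k, (Quotient.mk (QuotientGroup.rightRel D) g))
  apply U.finite_toSet.subset
  intro p hp
  have h1 : ∃ d : D, (s p.1).coeff ((d : G) * p.2.out) ≠ 0 := by
    by_contra h
    push Not at h
    apply hp
    ext d
    rw [chiF_coeff, h d]
    rfl
  obtain ⟨d, hd⟩ := h1
  refine Finset.mem_coe.2 (Finset.mem_biUnion.2 ⟨p.1, Finset.mem_univ _, Finset.mem_image.2
    ⟨(d : G) * p.2.out, Finsupp.mem_support_iff.2 hd, ?_⟩⟩)
  refine Prod.ext rfl ?_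
  change Quotient.mk (QuotientGroup.rightRel D) ((d : G) * p.2.out) = p.2
  conv_rhs => rw [← Quotient.out_eq p.2]
  apply Quotient.sound
  change (QuotientGroup.rightRel D) _ _
  rw [QuotientGroup.rightRel_apply, mul_inv_rev, mul_inv_cancel_left]
  exact D.inv_mem d.2

/-- The coordinates of vectors over `B[G]` over `B[D]`. -/
noncomputable def chi (n : ℕ) : (Fin n → MonoidAlgebra B G) →+
    (Fin n × Quotient (QuotientGroup.rightRel D) →₀ MonoidAlgebra B D) where
  toFun s := Finsupp.ofSupportFinite (chiF D s) (chiF_finite D s)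
  map_zero' := by
    ext p d
    change (chiF D 0 p).coeff d = 0
    rw [chiF_coeff]
    rfl
  map_add' s s' := by
    ext p d
    change (chiF D (s + s') p).coeff d = (chiF D s p).coeff d + (chiF D s' p).coeff d
    rw [chiF_coeff, chiF_coeff, chiF_coeff]
    rfl

theorem chi_apply {n : ℕ} (s : Fin n → MonoidAlgebra B G)
    (p : Fin n × Quotient (QuotientGroup.rightRel D)) : chi D n s p = chiF D s p := rfl

theorem chi_smul {n : ℕ} (r : MonoidAlgebra B D) (s : Fin n → MonoidAlgebra B G) :
    chi D n (inc B D.subtype r • s) = r • chi D n s := by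
  ext p : 1
  rw [Finsupp.smul_apply, chi_apply, chi_apply, chiF, chiF, Pi.smul_apply, smul_eq_mul, mul_assoc,
    prj_inc_mul, smul_eq_mul]

theorem chi_eq_zero {n : ℕ} {s : Fin n → MonoidAlgebra B G} (h : chi D n s = 0) : s = 0 := by
  funext k
  ext g
  let x := Quotient.mk (QuotientGroup.rightRel D) g
  have h1 : g * x.out⁻¹ ∈ D := by
    have h2 : (QuotientGroup.rightRel D) x.out g := Quotient.mk_out g
    rwa [QuotientGroup.rightRel_apply] at h2
  have h3 : (chiF D s (k, x)).coeff ⟨_, h1⟩ = 0 := by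
    rw [← chi_apply, h]
    rfl
  rw [chiF_coeff] at h3
  simpa using h3

end Chi

section Descend

variable {A : Type v} [CommRing A] {D : Type u} [Group D] (q : Ideal A)

/-- Semilinear maps from a free module. -/
theorem exists_descend {n : ℕ} {Y : Type*} [AddCommGroup Y] [Module (MonoidAlgebra (A ⧸ q) D) Y]
    (Ψ : (Fin n → MonoidAlgebra A D) →ₛₗ[red q D] Y) :
    ∃ Φ : (Fin n → MonoidAlgebra (A ⧸ q) D) →ₗ[MonoidAlgebra (A ⧸ q) D] Y,
      ∀ v, Φ (redv q v) = Ψ v := by
  classical
  refine ⟨Fintype.linearCombination _ fun i => Ψ (Pi.single i 1), fun v => ?_⟩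
  rw [Fintype.linearCombination_apply]
  have h1 : v = ∑ i, v i • (Pi.single i 1 : Fin n → MonoidAlgebra A D) := by
    funext l
    rw [Finset.sum_apply, Finset.sum_eq_single l]
    · rw [Pi.smul_apply, Pi.single_eq_same, smul_eq_mul, mul_one]
    · intro k _ hk
      rw [Pi.smul_apply, Pi.single_eq_of_ne (Ne.symm hk), smul_zero]
    · exact fun h => absurd (Finset.mem_univ l) h
  conv_rhs => rw [h1]
  rw [map_sum]
  refine Finset.sum_congr rfl fun i _ => ?_
  rw [map_smulₛₗ]
  rfl

/-- Kernels of maps to modules contained in free modules. -/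
theorem genLF_ker_prod {B : Type v} [CommRing B] [IsDomain B] {D : Type u} [Group D]
    (hD : TWO.{u, v} D) {a m : ℕ} {X : Type*}
    (φ : (Fin a → MonoidAlgebra B D) →ₗ[MonoidAlgebra B D]
      (X →₀ MonoidAlgebra B D) × (Fin m → MonoidAlgebra B D)) :
    GenLF B (MonoidAlgebra B D) (LinearMap.ker φ) := by
  let γ : ((X →₀ MonoidAlgebra B D) × (Fin m → MonoidAlgebra B D)) ≃ₗ[MonoidAlgebra B D]
      (X ⊕ Fin m →₀ MonoidAlgebra B D) :=
    (LinearEquiv.prodCongr (LinearEquiv.refl _ _)
      (Finsupp.linearEquivFunOnFinite (MonoidAlgebra B D) (MonoidAlgebra B D) (Fin m)).symm).trans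
      (Finsupp.sumFinsuppLEquivProdFinsupp (MonoidAlgebra B D)).symm
  have hker : LinearMap.ker φ = LinearMap.ker (γ.toLinearMap ∘ₗ φ) := by
    ext v
    rw [LinearMap.mem_ker, LinearMap.mem_ker, LinearMap.comp_apply, LinearEquiv.coe_coe,
      LinearEquiv.map_eq_zero_iff]
  rw [hker]
  exact genLF_ker hD _

end Descend

end Pool.Agent.Lib.MP_551055_al.T4
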