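import Pool.Agent.Lib.MP_551055_al.T4.Mods
import Pool.Agent.Lib.MP_551055_al.T4.Csub

/-!
# Nil modules: submodules, quotients, products, free modules
-/

set_option autoImplicit false

namespace Pool.Agent.Lib.MP_551055_al.T4

open Pool.Agent.Lib.MP_551055_al
open Pool.Agent.Lib.MP_551055_al.LS
open Pool.Agent.Lib.MP_551055_al.LD

universe u

section

variable {A : Type u} [CommRing A] {G : Type u} [Group G] {D : Subgroup G}
  {M : Type u} [AddCommGroup M] [Module (MonoidAlgebra A D) M]
  {M' : Type u} [AddCommGroup M'] [Module (MonoidAlgebra A D) M']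
  {M'' : Type u} [AddCommGroup M''] [Module (MonoidAlgebra A D) M'']
  {f : M →ₛₗ[incD D A] Ind A D M} {f' : M' →ₛₗ[incD D A] Ind A D M'}
  {f'' : M'' →ₛₗ[incD D A] Ind A D M''}

theorem isHom_iff {h : M →ₗ[MonoidAlgebra A D] M'} :
    IsHom f f' h ↔ ∀ m, f' (h m) = Ind.map h (f m) := by
  constructor
  · intro H m
    exact Ind.ext fun x => by rw [Ind.map_apply, H]
  · intro H m x
    rw [H, Ind.map_apply]

/-- The elements with values in a submodule. -/
theorem exists_restr (N : Submodule (MonoidAlgebra A D) M) (φ : Ind A D M) (h : ∀ x, φ x ∈ N) :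
    ∃ ψ : Ind A D N, Ind.map N.subtype ψ = φ := by
  apply (Ind.map_exact (i := N.subtype) (q := N.mkQ) (fun y => ?_) φ).1
  · refine Ind.ext fun x => ?_
    rw [Ind.map_apply, Ind.zero_apply]
    exact (Submodule.Quotient.mk_eq_zero N).2 (h x)
  · constructor
    · intro hy
      exact ⟨⟨y, (Submodule.Quotient.mk_eq_zero N).1 hy⟩, rfl⟩
    · rintro ⟨y, rfl⟩
      exact (Submodule.Quotient.mk_eq_zero N).2 y.2

theorem map_subtype_inj (N : Submodule (MonoidAlgebra A D) M) :
    Function.Injective (Ind.map (G := G) N.subtype) := Ind.map_injective N.injective_subtype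

/-- The nil structure of a stable submodule. -/
noncomputable def subM (f : M →ₛₗ[incD D A] Ind A D M) (N : Submodule (MonoidAlgebra A D) M)
    (hN : ∀ m ∈ N, ∀ x, f m x ∈ N) : N →ₛₗ[incD D A] Ind A D N where
  toFun m := (exists_restr N (f m) (hN m m.2)).choose
  map_add' m n := by
    apply map_subtype_inj
    rw [(exists_restr N (f (m + n : N)) (hN _ (m + n).2)).choose_spec, map_add,
      (exists_restr N (f m) (hN m m.2)).choose_spec, (exists_restr N (f n) (hN n n.2)).choose_spec,
      Submodule.coe_add, map_add]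
  map_smul' r m := by
    apply map_subtype_inj
    rw [(exists_restr N (f (r • m : N)) (hN _ (r • m).2)).choose_spec, map_smul,
      (exists_restr N (f m) (hN m m.2)).choose_spec, Submodule.coe_smul, LinearMap.map_smulₛₗ]

theorem subM_isHom (f : M →ₛₗ[incD D A] Ind A D M) (N : Submodule (MonoidAlgebra A D) M)
    (hN : ∀ m ∈ N, ∀ x, f m x ∈ N) : IsHom (subM f N hN) f N.subtype :=
  isHom_iff.2 fun m => (exists_restr N (f m) (hN m m.2)).choose_spec.symm

/-- The nil structure of a quotient by a stable submodule. -/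
noncomputable def quotM (f : M →ₛₗ[incD D A] Ind A D M) (N : Submodule (MonoidAlgebra A D) M)
    (hN : ∀ m ∈ N, ∀ x, f m x ∈ N) : (M ⧸ N) →ₛₗ[incD D A] Ind A D (M ⧸ N) :=
  N.liftQ ((Ind.map N.mkQ).comp f) fun m hm => by
    rw [LinearMap.mem_ker, LinearMap.comp_apply]
    refine Ind.ext fun x => ?_
    rw [Ind.map_apply, Ind.zero_apply]
    exact (Submodule.Quotient.mk_eq_zero N).2 (hN m hm x)

theorem quotM_isHom (f : M →ₛₗ[incD D A] Ind A D M) (N : Submodule (MonoidAlgebra A D) M)
    (hN : ∀ m ∈ N, ∀ x, f m x ∈ N) : IsHom f (quotM f N hN) N.mkQ :=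
  isHom_iff.2 fun _ => rfl

/-- Morphisms from a quotient. -/
theorem IsHom.liftQ {h : M →ₗ[MonoidAlgebra A D] M'} (hh : IsHom f f' h)
    (N : Submodule (MonoidAlgebra A D) M) (hN : ∀ m ∈ N, ∀ x, f m x ∈ N)
    (hk : N ≤ LinearMap.ker h) : IsHom (quotM f N hN) f' (N.liftQ h hk) := by
  intro m x
  obtain ⟨m, rfl⟩ := N.mkQ_surjective m
  have h1 := quotM_isHom f N hN m x
  rw [h1]
  change f' (h m) x = h (f m x)
  exact hh m x

/-- Morphisms to a submodule. -/
theorem IsHom.codRestrict {h : M' →ₗ[MonoidAlgebra A D] M} (hh : IsHom f' f h)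
    (N : Submodule (MonoidAlgebra A D) M) (hN : ∀ m ∈ N, ∀ x, f m x ∈ N) (hk : ∀ m, h m ∈ N) :
    IsHom f' (subM f N hN) (h.codRestrict N hk) := by
  intro m x
  apply N.injective_subtype
  rw [← subM_isHom f N hN]
  exact hh m x

theorem ker_stable {h : M →ₗ[MonoidAlgebra A D] M'} (hh : IsHom f f' h) :
    ∀ m ∈ LinearMap.ker h, ∀ x, f m x ∈ LinearMap.ker h := by
  intro m hm x
  rw [LinearMap.mem_ker, ← hh, LinearMap.mem_ker.1 hm, map_zero, Ind.zero_apply]

theorem range_stable {h : M →ₗ[MonoidAlgebra A D] M'} (hh : IsHom f f' h) :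
    ∀ m ∈ LinearMap.range h, ∀ x, f' m x ∈ LinearMap.range h := by
  rintro _ ⟨m, rfl⟩ x
  exact ⟨f m x, (hh m x).symm⟩

/-- The product. -/
noncomputable def prodM (f : M →ₛₗ[incD D A] Ind A D M) (f' : M' →ₛₗ[incD D A] Ind A D M') :
    (M × M') →ₛₗ[incD D A] Ind A D (M × M') where
  toFun y := Ind.map (LinearMap.inl _ M M') (f y.1) + Ind.map (LinearMap.inr _ M M') (f' y.2)
  map_add' y z := by
    rw [Prod.fst_add, Prod.snd_add, map_add, map_add, map_add, map_add]
    abel
  map_smul' r y := by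
    have h1 : f (r • y.1) = incD D A r • f y.1 := LinearMap.map_smulₛₗ f r y.1
    have h2 : f' (r • y.2) = incD D A r • f' y.2 := LinearMap.map_smulₛₗ f' r y.2
    rw [Prod.smul_fst, Prod.smul_snd, h1, h2, LinearMap.map_smul, LinearMap.map_smul, smul_add]

theorem prodM_apply (f : M →ₛₗ[incD D A] Ind A D M) (f' : M' →ₛₗ[incD D A] Ind A D M')
    (y : M × M') (x : G ⧸ D) : prodM f f' y x = (f y.1 x, f' y.2 x) := by
  change (Ind.map (LinearMap.inl _ M M') (f y.1) + Ind.map (LinearMap.inr _ M M') (f' y.2)) x = _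
  rw [Ind.add_apply, Ind.map_apply, Ind.map_apply]
  simp

theorem fst_isHom : IsHom (prodM f f') f (LinearMap.fst _ M M') := fun m x => by
  rw [prodM_apply]
  rfl

theorem snd_isHom : IsHom (prodM f f') f' (LinearMap.snd _ M M') := fun m x => by
  rw [prodM_apply]
  rfl

theorem inl_isHom : IsHom f (prodM f f') (LinearMap.inl _ M M') := fun m x => by
  rw [prodM_apply]
  simp [Ind.zero_apply]

theorem inr_isHom : IsHom f' (prodM f f') (LinearMap.inr _ M M') := fun m x => by
  rw [prodM_apply]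
  simp [Ind.zero_apply]

theorem IsHom.coprod {h : M →ₗ[MonoidAlgebra A D] M''} {k : M' →ₗ[MonoidAlgebra A D] M''}
    (hh : IsHom f f'' h) (hk : IsHom f' f'' k) : IsHom (prodM f f') f'' (h.coprod k) := by
  intro m x
  rw [prodM_apply, LinearMap.coprod_apply, LinearMap.coprod_apply, map_add, Ind.add_apply, hh, hk]

theorem IsHom.prod {h : M'' →ₗ[MonoidAlgebra A D] M} {k : M'' →ₗ[MonoidAlgebra A D] M'}
    (hh : IsHom f'' f h) (hk : IsHom f'' f' k) : IsHom f'' (prodM f f') (h.prod k) := by
  intro m x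
  rw [prodM_apply, LinearMap.prod_apply, LinearMap.prod_apply]
  exact Prod.ext (hh m x) (hk m x)

theorem SNil.prod (hf : SNil f) (hf' : SNil f') : SNil (prodM f f') := by
  obtain ⟨N, hN⟩ := hf
  obtain ⟨N', hN'⟩ := hf'
  apply SNil.of_fil (Fil := fun j => (gen f j).prod (gen f' j)) (N := max N N')
  · exact Submodule.prod_top
  · rintro j ⟨m, m'⟩ ⟨hm, hm'⟩ x
    rw [prodM_apply]
    exact ⟨comp_mem_gen hm x, comp_mem_gen hm' x⟩
  · rw [gen_bot_of_le (le_max_left N N') hN, gen_bot_of_le (le_max_right N N') hN',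
      Submodule.prod_bot]

theorem SNil.subM (hf : SNil f) (N : Submodule (MonoidAlgebra A D) M)
    (hN : ∀ m ∈ N, ∀ x, f m x ∈ N) : SNil (subM f N hN) :=
  SNil.of_inj (subM_isHom f N hN) N.injective_subtype hf

theorem SNil.quotM (hf : SNil f) (N : Submodule (MonoidAlgebra A D) M)
    (hN : ∀ m ∈ N, ∀ x, f m x ∈ N) : SNil (quotM f N hN) :=
  SNil.of_surj (quotM_isHom f N hN) N.mkQ_surjective hf

theorem Killed.sub {I : Ideal A} (h : Killed (D := D) I M) (N : Submodule (MonoidAlgebra A D) M) :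
    Killed (D := D) I N := fun a ha m => Subtype.ext (h a ha m)

theorem Killed.quot {I : Ideal A} (h : Killed (D := D) I M) (N : Submodule (MonoidAlgebra A D) M) :
    Killed (D := D) I (M ⧸ N) := fun a ha m => by
  obtain ⟨m, rfl⟩ := N.mkQ_surjective m
  rw [← map_smul, h a ha, map_zero]

theorem Killed.prod {I : Ideal A} (h : Killed (D := D) I M) (h' : Killed (D := D) I M') :
    Killed (D := D) I (M × M') := fun a ha m => Prod.ext (h a ha m.1) (h' a ha m.2)

theorem Killed.mono {I J : Ideal A} (hIJ : I ≤ J) (h : Killed (D := D) J M) :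
    Killed (D := D) I M := fun a ha m => h a (hIJ ha) m

/-- Semilinear maps from free modules. -/
noncomputable def semi {ι : Type} [Fintype ι] {Y : Type u} [AddCommGroup Y]
    [Module (MonoidAlgebra A G) Y] (F : ι → Y) : (ι → MonoidAlgebra A D) →ₛₗ[incD D A] Y where
  toFun v := ∑ i, incD D A (v i) • F i
  map_add' v w := by
    rw [← Finset.sum_add_distrib]
    exact Finset.sum_congr rfl fun i _ => by rw [Pi.add_apply, map_add, add_smul]
  map_smul' r v := by
    rw [Finset.smul_sum]
    exact Finset.sum_congr rfl fun i _ => by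
      rw [Pi.smul_apply, smul_eq_mul, map_mul, mul_smul]

theorem semi_apply {ι : Type} [Fintype ι] {Y : Type u} [AddCommGroup Y]
    [Module (MonoidAlgebra A G) Y] (F : ι → Y) (v : ι → MonoidAlgebra A D) :
    semi F v = ∑ i, incD D A (v i) • F i := rfl

/-- Linear maps from free modules. -/
noncomputable def lin {ι : Type} [Fintype ι] (g : ι → M) :
    (ι → MonoidAlgebra A D) →ₗ[MonoidAlgebra A D] M where
  toFun v := ∑ i, v i • g i
  map_add' v w := by
    rw [← Finset.sum_add_distrib]
    exact Finset.sum_congr rfl fun i _ => by rw [Pi.add_apply, add_smul]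
  map_smul' r v := by
    rw [RingHom.id_apply, Finset.smul_sum]
    exact Finset.sum_congr rfl fun i _ => by rw [Pi.smul_apply, smul_eq_mul, mul_smul]

theorem lin_apply {ι : Type} [Fintype ι] (g : ι → M) (v : ι → MonoidAlgebra A D) :
    lin g v = ∑ i, v i • g i := rfl

theorem lin_isHom {ι : Type} [Fintype ι] (F : ι → Ind A D (ι → MonoidAlgebra A D)) (g : ι → M)
    (h : ∀ i x, f (g i) x = lin g (F i x)) : IsHom (semi F) f (lin g) := by
  rw [isHom_iff]
  intro v
  rw [semi_apply, map_sum, lin_apply, map_sum]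
  refine Finset.sum_congr rfl fun i _ => ?_
  rw [LinearMap.map_smulₛₗ, map_smul]
  congr 1
  exact Ind.ext fun x => by rw [Ind.map_apply, h]

end

end Pool.Agent.Lib.MP_551055_al.T4
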