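import Pool.Agent.Lib.MP_551055_al.T4.Ind
import Pool.Agent.Lib.MP_551055_al.T4.Constr

/-!
# Nil modules with a filtration: the class is trivial
-/

set_option autoImplicit false

namespace Pool.Agent.Lib.MP_551055_al.T4

open Pool.Agent.Lib.MP_551055_al
open Pool.Agent.Lib.MP_551055_al.LS
open Pool.Agent.Lib.MP_551055_al.LD

universe u

section

variable {A : Type u} [CommRing A] {G : Type u} [Group G] {D : Subgroup G}

/-- A submodule which contains all components. -/
theorem NGM.of_sub (K : K1C (MonoidAlgebra A G)) {M : Type u} [AddCommGroup M]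
    [Module (MonoidAlgebra A D) M] (f : M →ₛₗ[incD D A] Ind A D M)
    (N : Submodule (MonoidAlgebra A D) M) (hN : ∀ m ∈ N, ∀ x, f m x ∈ N)
    (h1 : NGM K (subM f N hN)) (h2 : NGM K (quotM f N hN)) : NGM K f :=
  NGM.mid K N.injective_subtype N.mkQ_surjective
    (fun y => by
      rw [← LinearMap.mem_ker, Submodule.ker_mkQ]
      exact ⟨fun h => ⟨⟨y, h⟩, rfl⟩, fun ⟨x, hx⟩ => by rw [← hx]; exact x.2⟩)
    (subM_isHom f N hN) (quotM_isHom f N hN) h1 h2

/-- The quotient map is zero if all components lie in the submodule. -/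
theorem quotM_eq_zero {M : Type u} [AddCommGroup M] [Module (MonoidAlgebra A D) M]
    (f : M →ₛₗ[incD D A] Ind A D M) (N : Submodule (MonoidAlgebra A D) M)
    (hN : ∀ m ∈ N, ∀ x, f m x ∈ N) (h : ∀ m x, f m x ∈ N) : quotM f N hN = 0 := by
  refine LinearMap.ext fun y => ?_
  obtain ⟨m, rfl⟩ := N.mkQ_surjective y
  refine Ind.ext fun x => ?_
  rw [quotM_isHom f N hN m x]
  exact (Submodule.Quotient.mk_eq_zero N).2 (h m x)

/-- Devissage: the class is trivial if the components of `f` lie in the next step of a filtration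
with perfect quotients `Fil j / Fil (j + 1)`. -/
theorem NGM.fil (K : K1C (MonoidAlgebra A G)) (n : ℕ) : ∀ {M : Type u} [AddCommGroup M]
    [Module (MonoidAlgebra A D) M] (f : M →ₛₗ[incD D A] Ind A D M)
    (Fil : ℕ → Submodule (MonoidAlgebra A D) M), Fil 0 = ⊤ → Fil n = ⊥ → Antitone Fil →
    (∀ j, ∀ m ∈ Fil j, ∀ x, f m x ∈ Fil (j + 1)) →
    (∀ j < n, Perf (MonoidAlgebra A D) (Fil j ⧸ (Fil (j + 1)).submoduleOf (Fil j))) →
    NGM K f := by
  induction n with
  | zero =>
    intro M _ _ f Fil h0 h1 _ _ _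
    have h2 : Subsingleton M := by
      rw [h0] at h1
      refine ⟨fun x y => ?_⟩
      have hx : x ∈ (⊥ : Submodule (MonoidAlgebra A D) M) := h1 ▸ Submodule.mem_top
      have hy : y ∈ (⊥ : Submodule (MonoidAlgebra A D) M) := h1 ▸ Submodule.mem_top
      rw [(Submodule.mem_bot _).1 hx, (Submodule.mem_bot _).1 hy]
    have h3 : f = 0 := LinearMap.ext fun m => by
      rw [Subsingleton.elim m 0, map_zero, map_zero]
    rw [h3]
    exact NGM.zero K ⟨0, FFR.of_subsingleton 0⟩
  | succ n ih =>
    intro M _ _ f Fil h0 h1 hanti hf hgr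
    have htop : ∀ m, m ∈ Fil 0 := fun m => h0 ▸ Submodule.mem_top
    have hN : ∀ m ∈ Fil 1, ∀ x, f m x ∈ Fil 1 := fun m _ x => hf 0 m (htop m) x
    refine NGM.of_sub K f (Fil 1) hN ?_ ?_
    · refine ih (subM f (Fil 1) hN) (fun j => (Fil (j + 1)).submoduleOf (Fil 1)) ?_ ?_ ?_ ?_ ?_
      · ext y
        exact ⟨fun _ => Submodule.mem_top, fun _ => y.2⟩
      · rw [h1]
        ext y
        constructor
        · intro h
          have h2 : (y : M) = 0 := (Submodule.mem_bot (MonoidAlgebra A D)).1 h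
          exact (Submodule.mem_bot _).2 (Subtype.ext h2)
        · intro h
          have h2 : y = 0 := (Submodule.mem_bot _).1 h
          rw [h2]
          exact Submodule.zero_mem _
      · intro i j hij y hy
        exact hanti (Nat.succ_le_succ hij) hy
      · intro j m hm x
        have h2 := subM_isHom f (Fil 1) hN m x
        change ((subM f (Fil 1) hN m x : Fil 1) : M) ∈ Fil (j + 1 + 1)
        change f (m : M) x = ((subM f (Fil 1) hN m x : Fil 1) : M) at h2
        rw [← h2]
        exact hf (j + 1) m hm x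
      · intro j hj
        have h2 := hgr (j + 1) (Nat.succ_lt_succ hj)
        exact h2.congr (Dev.subq (Fil (j + 1 + 1)) (Fil (j + 1)) (Fil 1)
          (hanti (Nat.succ_le_succ (Nat.zero_le j))))
    · rw [quotM_eq_zero f (Fil 1) hN fun m x => hf 0 m (htop m) x]
      refine NGM.zero K ((hgr 0 (Nat.succ_pos n)).congr ?_)
      refine Submodule.Quotient.equiv _ _ (LinearEquiv.ofTop (Fil 0) h0) ?_
      ext y
      constructor
      · rintro ⟨z, hz, rfl⟩
        exact hz
      · intro hy
        exact ⟨⟨y, htop y⟩, hy, rfl⟩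

end

end Pool.Agent.Lib.MP_551055_al.T4
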