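import Pool.Agent.Lib.MP_551055_al.T4.Transport

/-!
# Bridge: the final theorem and the closure theorem
-/

set_option autoImplicit false

namespace Pool.Agent.Lib.MP_551055_al.T4

open Pool.Agent.Lib.MP_551055_al
open Pool.Agent.Lib.MP_551055_al.LS
open Pool.Agent.Lib.MP_551055_al.LO
open Pool.Agent.Lib.MP_551055_al.PT
open Pool.Agent.Lib.MP_551055_al.Red (Img)

universe u v

/-- The final assembly. -/
theorem stFinalET (hTreeC : StTreeC.{u, v}) (hKI : StKI.{u, v})
    (hTheta : StTheta.{u, v}) (hAdapt : StAdapt.{u, v}) (hInit : StInit.{u, v})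
    (hRay : StRayET.{u, v}) (hClass : StBassClass.{u}) (hMono : StBassMono.{u})
    (hVert : StBassVert.{u}) (hIdem : StBassIdem.{u}) (hGraded : StGraded.{u, v}) :
    StFinalET.{u, v} := by
  intro G _ V _ T hT hPv hPe S hbar hS
  let _ : MulAction (G × Multiplicative ℤ) V := actZ G V
  have hsmul : ∀ (γ : G × Multiplicative ℤ) (x : V), γ • x = γ.1 • x := fun _ _ => rfl
  have hT' : TreeAct (G × Multiplicative ℤ) V T :=
    { tree := hT.tree
      adj := fun γ a b hab => hT.adj γ.1 a b hab
      inv := fun γ a b hab h => hT.inv γ.1 a b hab h }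
  obtain ⟨K, hK⟩ := hClass G
  have hM : MGood K := fun ι _ g Φ hΦ => (hK ι ι Φ).2 (hMono G ι g Φ hΦ)
  have key : ∀ (H : Subgroup G) (E : Subgroup (G × Multiplicative ℤ)), VN.ProjStFree H →
      E = H.prod (⊤ : Subgroup (Multiplicative ℤ)) → SGood K E := by
    rintro H E hH rfl ι κ _ _ _ _ A B hAB hBA
    exact (hK ι κ _).2 (hVert G H hH ι κ A B hAB hBA)
  -- vertices
  have hV : VGood K V := by
    refine hGraded (G × Multiplicative ℤ) V K hM ?_
    intro x
    refine key (MulAction.stabilizer G x) (MulAction.stabilizer (G × Multiplicative ℤ) x) (hPv x) ?_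
    ext γ
    rw [MulAction.mem_stabilizer_iff, Subgroup.mem_prod, MulAction.mem_stabilizer_iff, hsmul]
    exact ⟨fun h => ⟨h, Subgroup.mem_top _⟩, fun h => h.1⟩
  -- stabilisers of pairs
  have hst : ∀ a : V × V, Nonempty ((MulAction.stabilizer G a × Multiplicative ℤ) ≃*
      MulAction.stabilizer (G × Multiplicative ℤ) a) := by
    intro a
    exact ⟨{ toFun := fun γ => ⟨(γ.1.1, γ.2), γ.1.2⟩
             invFun := fun γ => (⟨γ.1.1, γ.2⟩, γ.1.2)
             left_inv := fun _ => rfl
             right_inv := fun _ => rfl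
             map_mul' := fun _ _ => rfl }⟩
  have hPe' : ∀ a b, T.Adj a b →
      VN.ProjStFree (MulAction.stabilizer (G × Multiplicative ℤ) (a, b)) := by
    intro a b hab
    obtain ⟨e⟩ := hst (a, b)
    exact projStFree_congr e (hPe a b hab)
  have hN : NilGood K T 1 := by
    refine hRay (G × Multiplicative ℤ) V T hT' K hM S hbar fun u v huv hne => ?_
    rcases hS u v huv hne with h | h | h
    · left
      have h1 : MulAction.stabilizer (G × Multiplicative ℤ) (v, u) =
          (MulAction.stabilizer G (v, u)).prod (⊤ : Subgroup (Multiplicative ℤ)) := by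
        ext γ
        rw [Subgroup.mem_prod]
        exact ⟨fun h => ⟨h, Subgroup.mem_top _⟩, fun h => h.1⟩
      rw [h1]
      exact h K
    · obtain ⟨e⟩ := hst (v, u)
      exact Or.inr (Or.inl (LPK.congr (MonoidAlgebra.mapDomainRingEquiv ℤ e) h))
    · refine Or.inr (Or.inr fun γ hγ => key _ _ (h γ.1 hγ) ?_)
      apply le_antisymm
      · refine sup_le (fun δ hδ => ?_) ?_
        · refine Subgroup.mem_prod.2 ⟨?_, Subgroup.mem_top _⟩
          exact (le_sup_left : _ ≤ MulAction.stabilizer G (v, u) ⊔ Subgroup.zpowers γ.1) hδ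
        · rw [Subgroup.zpowers_le]
          refine Subgroup.mem_prod.2 ⟨?_, Subgroup.mem_top _⟩
          exact (le_sup_right : _ ≤ MulAction.stabilizer G (v, u) ⊔ Subgroup.zpowers γ.1)
            (Subgroup.mem_zpowers _)
      · -- every element of the product
        have hone : ∀ t : Multiplicative ℤ, ((1 : G), t) ∈
            MulAction.stabilizer (G × Multiplicative ℤ) (v, u) := by
          intro t
          rw [MulAction.mem_stabilizer_iff]
          exact Prod.ext (one_smul G v) (one_smul G u)
        have hfst : ∀ g ∈ MulAction.stabilizer G (v, u) ⊔ Subgroup.zpowers γ.1,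
            (g, (1 : Multiplicative ℤ)) ∈
              MulAction.stabilizer (G × Multiplicative ℤ) (v, u) ⊔ Subgroup.zpowers γ := by
          intro g hg
          have h1 : MulAction.stabilizer G (v, u) ⊔ Subgroup.zpowers γ.1 ≤
              (MulAction.stabilizer (G × Multiplicative ℤ) (v, u) ⊔ Subgroup.zpowers γ).comap
                (MonoidHom.inl G (Multiplicative ℤ)) := by
            refine sup_le (fun δ hδ => ?_) ?_
            · exact (le_sup_left : _ ≤ MulAction.stabilizer (G × Multiplicative ℤ) (v, u) ⊔
                Subgroup.zpowers γ) hδ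
            · rw [Subgroup.zpowers_le]
              change (γ.1, (1 : Multiplicative ℤ)) ∈
                MulAction.stabilizer (G × Multiplicative ℤ) (v, u) ⊔ Subgroup.zpowers γ
              have h2 : (γ.1, (1 : Multiplicative ℤ)) = γ * (1, γ.2⁻¹) := by
                rw [Prod.ext_iff]
                exact ⟨(mul_one _).symm, (mul_inv_cancel _).symm⟩
              rw [h2]
              exact Subgroup.mul_mem _
                ((le_sup_right : _ ≤ MulAction.stabilizer (G × Multiplicative ℤ) (v, u) ⊔
                  Subgroup.zpowers γ) (Subgroup.mem_zpowers _))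
                ((le_sup_left : _ ≤ MulAction.stabilizer (G × Multiplicative ℤ) (v, u) ⊔
                  Subgroup.zpowers γ) (hone _))
          exact h1 hg
        rintro ⟨g, t⟩ hgt
        have h3 := hfst g (Subgroup.mem_prod.1 hgt).1
        have h4 : ((g, t) : G × Multiplicative ℤ) = (g, 1) * (1, t) := by
          rw [Prod.mk_mul_mk, mul_one, one_mul]
        rw [h4]
        exact Subgroup.mul_mem _ h3
          ((le_sup_left : _ ≤ MulAction.stabilizer (G × Multiplicative ℤ) (v, u) ⊔
            Subgroup.zpowers γ) (hone t))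
  apply Red.stIdem
  intro n p hp
  obtain ⟨α, hα, h⟩ := hIdem G n p hp
  apply h
  rw [← hK]
  exact mainK1N hTreeC hKI hTheta hAdapt hInit (G × Multiplicative ℤ) V T hT' hPe' K hV hN n α hα

/-- Nilpotent matrices over all `ℤ[G × ℤ^m]` supported on a double coset of `D × ℤ^m` have class
zero. -/
def NGood (G : Type) [Group G] (D : Subgroup G) : Prop :=
  ∀ (m : ℕ) (K : K1C (ZG (G × ZN m))), NilOK K (D.prod (⊤ : Subgroup (ZN m)))

/-- The closure theorem. -/
theorem closure_treesT (hF : StFinalET.{0, 0}) (n : ℕ) (G : Type) [Group G] (V : Type)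
    [MulAction G V] (T : SimpleGraph V) (hT : TreeAct G V T)
    (hv : ∀ v : V, VN.ProjStFree (MulAction.stabilizer G v × ZN n))
    (he : ∀ u v, T.Adj u v → VN.ProjStFree (MulAction.stabilizer G (u, v) × ZN (n + 1)))
    (S : V → V → Prop) (hbar : Bar T S)
    (hx : ∀ u v, S u v → u ≠ v → NGood G (MulAction.stabilizer G (u, v)) ∨
      LPK (MonoidAlgebra ℤ (MulAction.stabilizer G (u, v) × ZN (n + 1))) ∨
      ∀ g : G, Trl T g u v →
        VN.ProjStFree (↥(MulAction.stabilizer G (u, v) ⊔ Subgroup.zpowers g) × ZN n)) :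
    VN.ProjStFree (G × ZN n) := by
  let _ : MulAction (G × ZN n) V := MulAction.compHom V (MonoidHom.fst G (ZN n))
  have hsmul : ∀ (γ : G × ZN n) (x : V), γ • x = γ.1 • x := fun _ _ => rfl
  have hT' : TreeAct (G × ZN n) V T :=
    { tree := hT.tree
      adj := fun γ a b hab => hT.adj γ.1 a b hab
      inv := fun γ a b hab h => hT.inv γ.1 a b hab h }
  -- stabilisers
  have hst1 : ∀ a : V, Nonempty (MulAction.stabilizer G a × ZN n ≃*
      MulAction.stabilizer (G × ZN n) a) := by
    intro a
    exact ⟨{ toFun := fun γ => ⟨(γ.1.1, γ.2), γ.1.2⟩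
             invFun := fun γ => (⟨γ.1.1, γ.2⟩, γ.1.2)
             left_inv := fun _ => rfl
             right_inv := fun _ => rfl
             map_mul' := fun _ _ => rfl }⟩
  have hst2 : ∀ a : V × V, Nonempty (MulAction.stabilizer G a × ZN n ≃*
      MulAction.stabilizer (G × ZN n) a) := by
    intro a
    exact ⟨{ toFun := fun γ => ⟨(γ.1.1, γ.2), γ.1.2⟩
             invFun := fun γ => (⟨γ.1.1, γ.2⟩, γ.1.2)
             left_inv := fun _ => rfl
             right_inv := fun _ => rfl
             map_mul' := fun _ _ => rfl }⟩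
  have hst3 : ∀ a : V × V, Nonempty (MulAction.stabilizer G a × ZN (n + 1) ≃*
      MulAction.stabilizer (G × ZN n) a × Multiplicative ℤ) := by
    intro a
    obtain ⟨e⟩ := hst2 a
    exact ⟨(znSucc (MulAction.stabilizer G a) n).symm.trans
      (MulEquiv.prodCongr e (MulEquiv.refl (Multiplicative ℤ)))⟩
  have hsup : ∀ (a : V × V) (γ : G × ZN n), Nonempty
      (↥(MulAction.stabilizer G a ⊔ Subgroup.zpowers γ.1) × ZN n ≃*
        ↥(MulAction.stabilizer (G × ZN n) a ⊔ Subgroup.zpowers γ)) := by
    intro a γ
    have h0 : MulAction.stabilizer (G × ZN n) a ⊔ Subgroup.zpowers γ =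
        (MulAction.stabilizer G a ⊔ Subgroup.zpowers γ.1).prod (⊤ : Subgroup (ZN n)) := by
      apply le_antisymm
      · refine sup_le (fun δ hδ => ?_) ?_
        · refine Subgroup.mem_prod.2 ⟨?_, Subgroup.mem_top _⟩
          exact (le_sup_left : _ ≤ MulAction.stabilizer G a ⊔ Subgroup.zpowers γ.1) hδ
        · rw [Subgroup.zpowers_le]
          refine Subgroup.mem_prod.2 ⟨?_, Subgroup.mem_top _⟩
          exact (le_sup_right : _ ≤ MulAction.stabilizer G a ⊔ Subgroup.zpowers γ.1)
            (Subgroup.mem_zpowers _)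
      · have hone : ∀ t : ZN n, ((1 : G), t) ∈ MulAction.stabilizer (G × ZN n) a := by
          intro t
          rw [MulAction.mem_stabilizer_iff]
          exact Prod.ext (one_smul G a.1) (one_smul G a.2)
        have hfst : ∀ g ∈ MulAction.stabilizer G a ⊔ Subgroup.zpowers γ.1,
            (g, (1 : ZN n)) ∈
              MulAction.stabilizer (G × ZN n) a ⊔ Subgroup.zpowers γ := by
          intro g hg
          have h1 : MulAction.stabilizer G a ⊔ Subgroup.zpowers γ.1 ≤
              (MulAction.stabilizer (G × ZN n) a ⊔ Subgroup.zpowers γ).comap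
                (MonoidHom.inl G (ZN n)) := by
            refine sup_le (fun δ hδ => ?_) ?_
            · exact (le_sup_left : _ ≤ MulAction.stabilizer (G × ZN n) a ⊔
                Subgroup.zpowers γ) hδ
            · rw [Subgroup.zpowers_le]
              change (γ.1, (1 : ZN n)) ∈
                MulAction.stabilizer (G × ZN n) a ⊔ Subgroup.zpowers γ
              have h2 : (γ.1, (1 : ZN n)) = γ * (1, γ.2⁻¹) := by
                rw [Prod.ext_iff]
                exact ⟨(mul_one _).symm, (mul_inv_cancel _).symm⟩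
              rw [h2]
              exact Subgroup.mul_mem _
                ((le_sup_right : _ ≤ MulAction.stabilizer (G × ZN n) a ⊔
                  Subgroup.zpowers γ) (Subgroup.mem_zpowers _))
                ((le_sup_left : _ ≤ MulAction.stabilizer (G × ZN n) a ⊔
                  Subgroup.zpowers γ) (hone _))
          exact h1 hg
        rintro ⟨g, t⟩ hgt
        have h3 := hfst g (Subgroup.mem_prod.1 hgt).1
        have h4 : ((g, t) : G × ZN n) = (g, 1) * (1, t) := by
          rw [Prod.mk_mul_mk, mul_one, one_mul]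
        rw [h4]
        exact Subgroup.mul_mem _ h3
          ((le_sup_left : _ ≤ MulAction.stabilizer (G × ZN n) a ⊔
            Subgroup.zpowers γ) (hone t))
    rw [h0]
    exact ⟨(MulEquiv.prodCongr (MulEquiv.refl _) Subgroup.topEquiv.symm).trans
      (Subgroup.prodEquiv _ _).symm⟩
  refine hF (G × ZN n) V T hT' (fun v => ?_) (fun u v huv => ?_) S hbar fun u v huv hne => ?_
  · obtain ⟨e⟩ := hst1 v
    exact projStFree_congr e (hv v)
  · obtain ⟨e⟩ := hst3 (u, v)
    exact projStFree_congr e (he u v huv)
  · rcases hx u v huv hne with h1 | h1 | h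
    · left
      intro K
      rw [stab_swap] at h1
      refine NilOK.congr (znSucc G n) _ ((MulAction.stabilizer G (v, u)).prod
        (⊤ : Subgroup (ZN (n + 1)))) (fun γ => ?_) K (h1 (n + 1) _)
      rw [Subgroup.mem_prod, Subgroup.mem_prod]
      exact ⟨fun h => ⟨h.1, Subgroup.mem_top _⟩, fun h => ⟨h.1, Subgroup.mem_top _⟩⟩
    · right
      left
      rw [stab_swap] at h1
      obtain ⟨e⟩ := hst3 (v, u)
      exact h1.congr (MonoidAlgebra.mapDomainRingEquiv ℤ e)
    · right
      right
      intro γ hγ
      have h1 := h γ.1 hγ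
      rw [stab_swap] at h1
      obtain ⟨e⟩ := hsup (v, u) γ
      exact projStFree_congr e h1

/-! ## The assembled theorems -/

theorem t4NilET : StNilET.{u, v} := stNilET stElim (stOrbT loNilL stUnip)

theorem t4RayET : StRayET.{u, v} := stRayET t4NilET (stStepP stTreeB stSwap) stTreeB

/-- The closure theorem for groups acting on trees. -/
theorem t4FinalET : StFinalET.{u, v} :=
  stFinalET stTreeC (stKI stTreeB) (stTheta stTreeA (stCut stTreeA)) lsAdapt (stInit stConj stUnip)
    t4RayET (stBassClass stBassProj) stBassMono (stBassVert stBassProj) stBassIdem stGraded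

end Pool.Agent.Lib.MP_551055_al.T4
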