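import Pool.Agent.Lib.MP_551055_al.T4.Alg
import Pool.Agent.Lib.MP_551055_al.T4.Csub

/-!
# The socle of a quotient of a free module

`A` is a commutative noetherian ring, `q` a prime ideal, `J i` ideals. The part of
`A[Γ]^ι / J A[Γ]^ι` killed by `q` is generically free over `(A / q)[Γ]`.
-/

set_option autoImplicit false

namespace Pool.Agent.Lib.MP_551055_al.T4

universe u v w x

section Base

variable {A : Type v} [CommRing A] {ι : Type}

/-- A generic basis of the vectors killed by `q` modulo `J`. -/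
theorem exists_gen_basis [IsNoetherianRing A] [Finite ι] (q : Ideal A) [q.IsPrime]
    (J : ι → Ideal A) :
    ∃ (c : A) (n : ℕ) (b : Fin n → ι → A), c ∉ q ∧
      (∀ a ∈ q, ∀ k i, a * b k i ∈ J i) ∧
      (∀ t : Fin n → A, (∀ i, ∑ k, t k * b k i ∈ J i) → ∀ k, t k ∈ q) ∧
      (∀ y : ι → A, (∀ a ∈ q, ∀ i, a * y i ∈ J i) →
        ∃ t : Fin n → A, ∀ i, ∑ k, t k * b k i - c * y i ∈ J i) := by
  classical
  let P : Submodule A (ι → A) := Submodule.pi Set.univ fun i => J i
  have hP : ∀ y : ι → A, y ∈ P ↔ ∀ i, y i ∈ J i := by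
    intro y
    rw [Submodule.mem_pi]
    exact ⟨fun h i => h i (Set.mem_univ i), fun h i _ => h i⟩
  let N : Submodule A ((ι → A) ⧸ P) :=
    { carrier := {y | ∀ a ∈ q, a • y = 0}
      add_mem' := by
        intro y y' hy hy' a ha
        rw [smul_add, hy a ha, hy' a ha, add_zero]
      zero_mem' := fun a _ => smul_zero a
      smul_mem' := by
        intro r y hy a ha
        rw [smul_comm, hy a ha, smul_zero] }
  have htors : Module.IsTorsionBySet A N q := by
    rintro ⟨y, hy⟩ ⟨a, ha⟩
    exact Subtype.ext (hy a ha)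
  let _ : Module (A ⧸ q) N := htors.module
  have : IsScalarTower A (A ⧸ q) N := htors.isScalarTower
  have hfin : Module.Finite A N := inferInstance
  have : Module.Finite (A ⧸ q) N := Module.Finite.of_restrictScalars_finite A (A ⧸ q) N
  obtain ⟨c', n, α, β, hc', h1, h2⟩ := exists_gen_free (B := A ⧸ q) (N := N)
  obtain ⟨c, rfl⟩ := Ideal.Quotient.mk_surjective c'
  have hsm : ∀ (a : A) (y : N), Ideal.Quotient.mk q a • y = a • y := fun a y =>
    htors.mk_smul a y
  choose b hb using fun k : Fin n => Submodule.mkQ_surjective P (β (Pi.single k 1)).1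
  have hβ : ∀ t : Fin n → A, (β fun k => Ideal.Quotient.mk q (t k)).1 =
      P.mkQ (fun i => ∑ k, t k * b k i) := by
    intro t
    have h3 : (fun k => Ideal.Quotient.mk q (t k)) =
        ∑ k, Ideal.Quotient.mk q (t k) • (Pi.single k 1 : Fin n → A ⧸ q) := by
      funext l
      rw [Finset.sum_apply, Finset.sum_eq_single l]
      · rw [Pi.smul_apply, Pi.single_eq_same, smul_eq_mul, mul_one]
      · intro k _ hk
        rw [Pi.smul_apply, Pi.single_eq_of_ne (Ne.symm hk), smul_zero]
      · exact fun h => absurd (Finset.mem_univ l) h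
    rw [h3, map_sum]
    have h4 : (fun i => ∑ k, t k * b k i) = ∑ k, t k • b k := by
      funext i
      rw [Finset.sum_apply]
      rfl
    rw [h4, map_sum]
    change N.subtype (∑ k, β (_ • _)) = _
    rw [map_sum]
    refine Finset.sum_congr rfl fun k _ => ?_
    rw [map_smul, hsm, map_smul, map_smul, hb]
    rfl
  have hinj : ∀ t, β t = 0 → t = 0 := by
    intro t ht
    have h3 := h1 t
    rw [ht, map_zero] at h3
    funext k
    have h4 := congrFun h3.symm k
    rw [Pi.smul_apply, smul_eq_mul] at h4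
    exact (mul_eq_zero.1 h4).resolve_left hc'
  refine ⟨c, n, b, fun h => hc' (Ideal.Quotient.eq_zero_iff_mem.2 h), ?_, ?_, ?_⟩
  · intro a ha k i
    have h3 : a • P.mkQ (b k) = 0 := by rw [hb]; exact (β (Pi.single k 1)).2 a ha
    rw [← map_smul] at h3
    exact (hP _).1 ((Submodule.Quotient.mk_eq_zero P).1 h3) i
  · intro t ht k
    have h3 : (fun k => Ideal.Quotient.mk q (t k)) = 0 := by
      apply hinj
      apply Subtype.ext
      rw [hβ]
      exact (Submodule.Quotient.mk_eq_zero P).2 ((hP _).2 ht)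
    exact Ideal.Quotient.eq_zero_iff_mem.1 (congrFun h3 k)
  · intro y hy
    have hyN : P.mkQ y ∈ N := by
      intro a ha
      rw [← map_smul]
      exact (Submodule.Quotient.mk_eq_zero P).2 ((hP _).2 (hy a ha))
    choose t ht using fun k => Ideal.Quotient.mk_surjective (α ⟨_, hyN⟩ k)
    refine ⟨t, fun i => ?_⟩
    have h3 := congrArg Subtype.val (h2 ⟨_, hyN⟩)
    have h4 : α ⟨_, hyN⟩ = fun k => Ideal.Quotient.mk q (t k) := funext fun k => (ht k).symm
    rw [h4, hβ, hsm] at h3
    change P.mkQ _ = c • P.mkQ y at h3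
    rw [← map_smul, ← sub_eq_zero, ← map_sub] at h3
    exact (hP _).1 ((Submodule.Quotient.mk_eq_zero P).1 h3) i

end Base

section Csub

variable {A : Type v} [CommRing A] {Γ : Type u} [Group Γ]

variable {ι : Type} {J : ι → Ideal A}

theorem coeff_mul_algebraMap (y : MonoidAlgebra A Γ) (a : A) (g : Γ) :
    (y * algebraMap A (MonoidAlgebra A Γ) a).coeff g = y.coeff g * a := by
  rw [← Algebra.commutes, ← Algebra.smul_def, MonoidAlgebra.coeff_smul_apply, smul_eq_mul,
    mul_comm]

theorem coeff_algebraMap_mul (y : MonoidAlgebra A Γ) (a : A) (g : Γ) :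
    (algebraMap A (MonoidAlgebra A Γ) a * y).coeff g = a * y.coeff g := by
  rw [← Algebra.smul_def, MonoidAlgebra.coeff_smul_apply, smul_eq_mul]

/-- The map with the matrix `b`. -/
noncomputable def bmap (J : ι → Ideal A) {n : ℕ} (b : Fin n → ι → A) :
    (Fin n → MonoidAlgebra A Γ) →ₗ[MonoidAlgebra A Γ] (ι → MonoidAlgebra A Γ) ⧸ csub Γ J :=
  (csub Γ J).mkQ ∘ₗ Fintype.linearCombination (MonoidAlgebra A Γ)
    fun k i => algebraMap A (MonoidAlgebra A Γ) (b k i)

theorem bmap_coeff {n : ℕ} (b : Fin n → ι → A) (v : Fin n → MonoidAlgebra A Γ) (i : ι) (g : Γ) :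
    (Fintype.linearCombination (MonoidAlgebra A Γ)
      (fun k i => algebraMap A (MonoidAlgebra A Γ) (b k i)) v i).coeff g =
      ∑ k, (v k).coeff g * b k i := by
  rw [Fintype.linearCombination_apply, Finset.sum_apply, MonoidAlgebra.coeff_sum,
    Finsupp.finsetSum_apply]
  refine Finset.sum_congr rfl fun k _ => ?_
  rw [Pi.smul_apply, smul_eq_mul, coeff_mul_algebraMap]

/-- The elements killed by `q`. -/
def qker (q : Ideal A) (M : Type*) [AddCommGroup M] [Module (MonoidAlgebra A Γ) M] :
    Submodule (MonoidAlgebra A Γ) M where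
  carrier := {y | ∀ a ∈ q, algebraMap A (MonoidAlgebra A Γ) a • y = 0}
  add_mem' := by
    intro y y' hy hy' a ha
    rw [smul_add, hy a ha, hy' a ha, add_zero]
  zero_mem' := fun a _ => smul_zero _
  smul_mem' := by
    intro r y hy a ha
    rw [smul_smul, Algebra.commutes, mul_smul, hy a ha, smul_zero]

theorem mem_qker {q : Ideal A} {M : Type*} [AddCommGroup M] [Module (MonoidAlgebra A Γ) M]
    {y : M} : y ∈ qker (Γ := Γ) q M ↔ ∀ a ∈ q, algebraMap A (MonoidAlgebra A Γ) a • y = 0 := Iff.rfl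

/-- Reduction modulo `q`. -/
noncomputable def red (q : Ideal A) (Γ : Type u) [Group Γ] :
    MonoidAlgebra A Γ →+* MonoidAlgebra (A ⧸ q) Γ :=
  MonoidAlgebra.mapRingHom Γ (Ideal.Quotient.mk q)

theorem coeff_red (q : Ideal A) (y : MonoidAlgebra A Γ) (g : Γ) :
    (red q Γ y).coeff g = Ideal.Quotient.mk q (y.coeff g) :=
  MonoidAlgebra.coeff_mapRingHom _ _ _

theorem red_eq_zero {q : Ideal A} {y : MonoidAlgebra A Γ} :
    red q Γ y = 0 ↔ ∀ g, y.coeff g ∈ q := by
  constructor
  · intro h g
    rw [← Ideal.Quotient.eq_zero_iff_mem, ← coeff_red, h]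
    rfl
  · intro h
    ext g
    rw [coeff_red, Ideal.Quotient.eq_zero_iff_mem.2 (h g)]
    rfl

theorem red_surjective (q : Ideal A) : Function.Surjective (red q Γ) := by
  intro y
  induction y using MonoidAlgebra.induction_linear with
  | zero => exact ⟨0, map_zero _⟩
  | add y y' h h' =>
    obtain ⟨z, rfl⟩ := h
    obtain ⟨z', rfl⟩ := h'
    exact ⟨z + z', map_add _ _ _⟩
  | single g a =>
    obtain ⟨b, rfl⟩ := Ideal.Quotient.mk_surjective a
    exact ⟨MonoidAlgebra.single g b, MonoidAlgebra.mapRingHom_single _ _ _⟩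

theorem red_algebraMap (q : Ideal A) (a : A) : red q Γ (algebraMap A (MonoidAlgebra A Γ) a) =
    algebraMap (A ⧸ q) (MonoidAlgebra (A ⧸ q) Γ) (Ideal.Quotient.mk q a) :=
  MonoidAlgebra.mapRingHom_single _ _ _

/-- Reduction of vectors. -/
noncomputable def redv (q : Ideal A) {X : Type*} :
    (X → MonoidAlgebra A Γ) →ₛₗ[red q Γ] (X → MonoidAlgebra (A ⧸ q) Γ) where
  toFun v y := red q Γ (v y)
  map_add' _ _ := funext fun _ => map_add (red q Γ) _ _
  map_smul' _ _ := funext fun _ => map_mul (red q Γ) _ _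

theorem redv_apply (q : Ideal A) {X : Type*} (v : X → MonoidAlgebra A Γ) (y : X) :
    redv q v y = red q Γ (v y) := rfl

theorem redv_eq_zero {q : Ideal A} {v : ι → MonoidAlgebra A Γ} :
    redv q v = 0 ↔ v ∈ csub Γ fun _ => q := by
  constructor
  · intro h i
    exact red_eq_zero.1 (congrFun h i)
  · intro h
    funext i
    exact red_eq_zero.2 (h i)

theorem redv_surjective (q : Ideal A) {X : Type*} :
    Function.Surjective (redv (Γ := Γ) q (X := X)) := by
  intro v
  choose z hz using fun y => red_surjective q (v y)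
  exact ⟨z, funext hz⟩

/-- The socle of a quotient of a free module is generically free. -/
theorem exists_gen_socle [IsNoetherianRing A] [Finite ι] (q : Ideal A) [q.IsPrime]
    (J : ι → Ideal A) (Γ : Type u) [Group Γ] :
    ∃ (c : A) (n : ℕ) (β : (Fin n → MonoidAlgebra A Γ) →ₗ[MonoidAlgebra A Γ]
      (ι → MonoidAlgebra A Γ) ⧸ csub Γ J), c ∉ q ∧
      (∀ v, β v ∈ qker (Γ := Γ) q ((ι → MonoidAlgebra A Γ) ⧸ csub Γ J)) ∧
      (∀ v, β v = 0 ↔ redv q v = 0) ∧
      ∀ y ∈ qker (Γ := Γ) q ((ι → MonoidAlgebra A Γ) ⧸ csub Γ J),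
        ∃ v, β v = algebraMap A (MonoidAlgebra A Γ) c • y := by
  classical
  obtain ⟨c, n, b, hc, hb1, hb2, hb3⟩ := exists_gen_basis q J
  have h0 : ∀ v, bmap (Γ := Γ) J b v = 0 ↔ redv q v = 0 := by
    intro v
    rw [redv_eq_zero, bmap, LinearMap.comp_apply, Submodule.mkQ_apply,
      Submodule.Quotient.mk_eq_zero, mem_csub]
    constructor
    · intro h k g
      refine hb2 (fun k => (v k).coeff g) (fun i => ?_) k
      have h1 := h i g
      rwa [bmap_coeff] at h1
    · intro h i g
      rw [bmap_coeff]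
      exact Ideal.sum_mem _ fun k _ => hb1 _ (h k g) k i
  refine ⟨c, n, bmap J b, hc, ?_, h0, ?_⟩
  · intro v a ha
    rw [← map_smul, h0, redv_eq_zero]
    intro k g
    rw [Pi.smul_apply, smul_eq_mul, coeff_algebraMap_mul]
    exact q.mul_mem_right _ ha
  · intro y hy
    obtain ⟨y, rfl⟩ := Submodule.mkQ_surjective _ y
    have hy' : ∀ a ∈ q, ∀ i g, a * (y i).coeff g ∈ J i := by
      intro a ha i g
      have h1 := hy a ha
      rw [← map_smul] at h1
      have h2 := (Submodule.Quotient.mk_eq_zero _).1 h1 i g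
      rwa [Pi.smul_apply, smul_eq_mul, coeff_algebraMap_mul] at h2
    have hex : ∀ g : Γ, ∃ t : Fin n → A, (∀ i, ∑ k, t k * b k i - c * (y i).coeff g ∈ J i) ∧
        ((∀ i, (y i).coeff g = 0) → t = 0) := by
      intro g
      by_cases hg : ∀ i, (y i).coeff g = 0
      · refine ⟨0, fun i => ?_, fun _ => rfl⟩
        rw [hg i, mul_zero, sub_zero]
        have h3 : ∑ k, (0 : Fin n → A) k * b k i = 0 :=
          Finset.sum_eq_zero fun k _ => zero_mul _
        rw [h3]
        exact (J i).zero_mem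
      · obtain ⟨t, ht⟩ := hb3 (fun i => (y i).coeff g) fun a ha i => hy' a ha i g
        exact ⟨t, ht, fun h => absurd h hg⟩
    choose t ht ht0 using hex
    have _ : Fintype ι := Fintype.ofFinite ι
    let U : Finset Γ := Finset.univ.biUnion fun i => (y i).coeff.support
    have hU : ∀ g, g ∉ U → t g = 0 := by
      intro g hg
      refine ht0 g fun i => ?_
      by_contra hne
      exact hg (Finset.mem_biUnion.2 ⟨i, Finset.mem_univ i, Finsupp.mem_support_iff.2 hne⟩)
    let v : Fin n → MonoidAlgebra A Γ := fun k => ∑ g ∈ U, MonoidAlgebra.single g (t g k)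
    have hv : ∀ k g, (v k).coeff g = t g k := by
      intro k g
      change (∑ g ∈ U, MonoidAlgebra.single g (t g k)).coeff g = _
      rw [MonoidAlgebra.coeff_sum, Finsupp.finsetSum_apply]
      by_cases hg : g ∈ U
      · rw [Finset.sum_eq_single g]
        · rw [MonoidAlgebra.coeff_single, Finsupp.single_eq_same]
        · intro g' _ hne
          rw [MonoidAlgebra.coeff_single, Finsupp.single_eq_of_ne (Ne.symm hne)]
        · exact fun h => absurd hg h
      · rw [hU g hg]
        refine Finset.sum_eq_zero fun g' hg' => ?_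
        rw [MonoidAlgebra.coeff_single, Finsupp.single_eq_of_ne]
        rintro rfl
        exact hg hg'
    refine ⟨v, ?_⟩
    rw [← map_smul, ← sub_eq_zero, bmap, LinearMap.comp_apply, ← map_sub]
    refine (Submodule.Quotient.mk_eq_zero _).2 fun i g => ?_
    rw [Pi.sub_apply]
    change (Fintype.linearCombination (MonoidAlgebra A Γ)
      (fun k i => algebraMap A (MonoidAlgebra A Γ) (b k i)) v i).coeff g -
      ((algebraMap A (MonoidAlgebra A Γ) c • y) i).coeff g ∈ J i
    rw [bmap_coeff, Pi.smul_apply, smul_eq_mul, coeff_algebraMap_mul]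
    have h4 : ∑ k, (v k).coeff g * b k i = ∑ k, t g k * b k i :=
      Finset.sum_congr rfl fun k _ => by rw [hv]
    rw [h4]
    exact ht g i

/-- The generic coordinates on the socle. -/
theorem exists_socle_map [IsNoetherianRing A] [Finite ι] (q : Ideal A) [q.IsPrime]
    (J : ι → Ideal A) (Γ : Type u) [Group Γ] :
    ∃ (c : A) (n : ℕ) (β : (Fin n → MonoidAlgebra A Γ) →ₗ[MonoidAlgebra A Γ]
      (ι → MonoidAlgebra A Γ) ⧸ csub Γ J)
      (α : qker (Γ := Γ) q ((ι → MonoidAlgebra A Γ) ⧸ csub Γ J) →ₛₗ[red q Γ]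
        (Fin n → MonoidAlgebra (A ⧸ q) Γ)), c ∉ q ∧
      (∀ v, β v ∈ qker (Γ := Γ) q ((ι → MonoidAlgebra A Γ) ⧸ csub Γ J)) ∧
      (∀ y v, y.1 = β v → α y = redv q (algebraMap A (MonoidAlgebra A Γ) c • v)) ∧
      ∀ y v, α y = redv q v → β v = algebraMap A (MonoidAlgebra A Γ) c • y.1 := by
  classical
  obtain ⟨c, n, β, hc, h1, h2, h3⟩ := exists_gen_socle q J Γ
  have hwd : ∀ v v', β v = β v' → redv q v = redv q v' := by
    intro v v' h
    rw [← sub_eq_zero, ← map_sub] at h ⊢
    exact (h2 _).1 h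
  have hwd' : ∀ v v', redv q v = redv q v' → β v = β v' := by
    intro v v' h
    rw [← sub_eq_zero, ← map_sub] at h ⊢
    exact (h2 _).2 h
  choose w hw using fun y : qker (Γ := Γ) q ((ι → MonoidAlgebra A Γ) ⧸ csub Γ J) => h3 y.1 y.2
  refine ⟨c, n, β,
    { toFun := fun y => redv q (w y)
      map_add' := fun y y' => ?_
      map_smul' := fun r y => ?_ }, hc, h1, ?_, ?_⟩
  · rw [← map_add]
    apply hwd
    rw [map_add, hw, hw, hw, ← smul_add]
    rfl
  · rw [← map_smulₛₗ]
    apply hwd
    rw [map_smul, hw, hw]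
    change algebraMap A _ c • r • y.1 = r • algebraMap A _ c • y.1
    rw [smul_smul, smul_smul, Algebra.commutes]
  · intro y v hv
    change redv q (w y) = _
    apply hwd
    rw [hw, hv, map_smul]
  · intro y v hv
    rw [← hw y]
    exact hwd' _ _ hv.symm

end Csub

section Transfer

variable {A : Type v} [CommRing A] {D : Type u} [Group D]

/-- Generic local freeness over `(A / q)[D]` for `A[D]`-modules killed by `q`. -/
def GenLFq (q : Ideal A) (D : Type u) [Group D] (K : Type*) [AddCommGroup K]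
    [Module (MonoidAlgebra A D) K] : Prop :=
  ∀ s : Finset K, ∃ (c : A) (n m : ℕ) (j : (Fin n → MonoidAlgebra A D) →ₗ[MonoidAlgebra A D]
    K × ((Fin m → MonoidAlgebra A D) ⧸ csub D fun _ => q)), c ∉ q ∧
    (∀ v, j v = 0 ↔ v ∈ csub D fun _ => q) ∧
    ∀ y ∈ s, ∃ v, j v = (algebraMap A (MonoidAlgebra A D) c • y, 0)

/-- A common multiple outside of the prime ideal. -/
theorem exists_common_prime (q : Ideal A) [q.IsPrime] {X : Type*} {p : A → X → Prop}
    (hp : ∀ c d y, p c y → p (d * c) y) (s : Finset X) (h : ∀ y ∈ s, ∃ c : A, c ∉ q ∧ p c y) :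
    ∃ c : A, c ∉ q ∧ ∀ y ∈ s, p c y := by
  classical
  induction s using Finset.induction_on with
  | empty =>
    exact ⟨1, fun h => (Ideal.IsPrime.ne_top inferInstance) ((Ideal.eq_top_iff_one q).2 h),
      fun y hy => absurd hy (Finset.notMem_empty y)⟩
  | insert a s ha ih =>
    obtain ⟨c, hc, h1⟩ := ih fun y hy => h y (Finset.mem_insert_of_mem hy)
    obtain ⟨d, hd, h2⟩ := h a (Finset.mem_insert_self a s)
    refine ⟨d * c, fun h => (Ideal.IsPrime.mem_or_mem inferInstance h).elim hd hc,
      fun y hy => ?_⟩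
    rcases Finset.mem_insert.1 hy with rfl | hy
    · rw [mul_comm]
      exact hp _ _ _ h2
    · exact hp _ _ _ (h1 y hy)

/-- Multiplication by elements with all coefficients in `q` on modules killed by `q`. -/
theorem smul_eq_zero_of_coeff {K : Type*} [AddCommGroup K] [Module (MonoidAlgebra A D) K]
    {q : Ideal A} (hK : ∀ a ∈ q, ∀ y : K, algebraMap A (MonoidAlgebra A D) a • y = 0)
    (r : MonoidAlgebra A D) (hr : ∀ g, r.coeff g ∈ q) (y : K) : r • y = 0 := by
  classical
  have h1 : r = ∑ g ∈ r.coeff.support,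
      algebraMap A (MonoidAlgebra A D) (r.coeff g) * MonoidAlgebra.single g 1 := by
    ext h
    rw [MonoidAlgebra.coeff_sum, Finsupp.finsetSum_apply]
    by_cases hh : h ∈ r.coeff.support
    · rw [Finset.sum_eq_single h]
      · rw [coeff_algebraMap_mul, MonoidAlgebra.coeff_single, Finsupp.single_eq_same, mul_one]
      · intro g _ hne
        rw [coeff_algebraMap_mul, MonoidAlgebra.coeff_single,
          Finsupp.single_eq_of_ne (Ne.symm hne), mul_zero]
      · exact fun h => absurd hh h
    · rw [Finsupp.notMem_support_iff.1 hh]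
      symm
      refine Finset.sum_eq_zero fun g hg => ?_
      rw [coeff_algebraMap_mul, MonoidAlgebra.coeff_single, Finsupp.single_eq_of_ne, mul_zero]
      rintro rfl
      exact hh hg
  rw [h1, Finset.sum_smul]
  refine Finset.sum_eq_zero fun g _ => ?_
  rw [mul_smul]
  exact hK _ (hr g) _

/-- Transfer of generic local freeness to modules killed by `q`. -/
theorem genLFq_of (q : Ideal A) [q.IsPrime] {K : Type*} [AddCommGroup K]
    [Module (MonoidAlgebra A D) K]
    (hK : ∀ a ∈ q, ∀ y : K, algebraMap A (MonoidAlgebra A D) a • y = 0)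
    {K₁ : Type*} [AddCommGroup K₁] [Module (MonoidAlgebra (A ⧸ q) D) K₁]
    (h : GenLF (A ⧸ q) (MonoidAlgebra (A ⧸ q) D) K₁) (u : K →ₛₗ[red q D] K₁)
    (h1 : ∀ y : K₁, ∃ c : A, c ∉ q ∧ ∃ z, u z = red q D (algebraMap A _ c) • y)
    (h2 : ∀ z, u z = 0 → ∃ c : A, c ∉ q ∧ algebraMap A (MonoidAlgebra A D) c • z = 0) :
    GenLFq q D K := by
  classical
  intro s
  obtain ⟨c₁', n, m, j, hc₁, hj, hv⟩ := h (s.image u)
  obtain ⟨c₁, rfl⟩ := Ideal.Quotient.mk_surjective c₁'
  rw [← red_algebraMap] at hv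
  have hc₁' : c₁ ∉ q := fun h => hc₁ (Ideal.Quotient.eq_zero_iff_mem.2 h)
  obtain ⟨c₂, hc₂, hx⟩ := exists_common_prime q
    (p := fun (c : A) (i : Fin n) => ∃ z, u z =
      red q D (algebraMap A _ c) • (j (Pi.single i 1)).1)
    (by
      rintro c d y ⟨z, hz⟩
      refine ⟨algebraMap A (MonoidAlgebra A D) d • z, ?_⟩
      rw [map_smulₛₗ, hz, map_mul, map_mul, mul_smul]) Finset.univ fun i _ => h1 _
  choose z hz using fun i => hx i (Finset.mem_univ i)
  choose f hf using fun i => redv_surjective (Γ := D) q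
    (red q D (algebraMap A _ c₂) • (j (Pi.single i 1)).2)
  let j' : (Fin n → MonoidAlgebra A D) →ₗ[MonoidAlgebra A D]
      K × ((Fin m → MonoidAlgebra A D) ⧸ csub D fun _ => q) :=
    (Fintype.linearCombination _ z).prod ((csub D fun _ => q).mkQ ∘ₗ
      Fintype.linearCombination _ f)
  have hj1 : ∀ v, u (j' v).1 = red q D (algebraMap A _ c₂) • (j (redv q v)).1 := by
    intro v
    have h3 := LinearMap.congr_fun (map_eq_lc (LinearMap.fst _ _ _ ∘ₗ j)) (redv q v)
    change (j (redv q v)).1 = _ at h3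
    rw [h3, Fintype.linearCombination_apply, Finset.smul_sum]
    change u (Fintype.linearCombination _ z v) = _
    rw [Fintype.linearCombination_apply, map_sum]
    refine Finset.sum_congr rfl fun i _ => ?_
    rw [map_smulₛₗ, hz, red_algebraMap, smul_smul, smul_smul, Algebra.commutes]
    rfl
  have hj2 : ∀ v, redv q (Fintype.linearCombination (MonoidAlgebra A D) f v) =
      red q D (algebraMap A _ c₂) • (j (redv q v)).2 := by
    intro v
    have h3 := LinearMap.congr_fun (map_eq_lc (LinearMap.snd _ _ _ ∘ₗ j)) (redv q v)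
    change (j (redv q v)).2 = _ at h3
    rw [h3, Fintype.linearCombination_apply, Fintype.linearCombination_apply, Finset.smul_sum,
      map_sum]
    refine Finset.sum_congr rfl fun i _ => ?_
    rw [map_smulₛₗ, hf, red_algebraMap, smul_smul, smul_smul, Algebra.commutes]
    rfl
  -- the constant is not a zero divisor
  have hreg : ∀ (c : A), c ∉ q → ∀ w : Fin n → MonoidAlgebra (A ⧸ q) D,
      red q D (algebraMap A _ c) • w = 0 → w = 0 := by
    intro c hc w hw
    funext i
    have h4 := congrFun hw i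
    rw [Pi.smul_apply, smul_eq_mul, red_algebraMap] at h4
    exact tf_base _ (fun h => hc (Ideal.Quotient.eq_zero_iff_mem.1 h)) _ h4
  -- a common constant for the elements of `s`
  have hex : ∀ y ∈ s, ∃ c : A, c ∉ q ∧ ∃ v, j' v = (algebraMap A (MonoidAlgebra A D) c • y, 0) := by
    intro y hy
    obtain ⟨v, hv⟩ := hv (u y) (Finset.mem_image_of_mem u hy)
    obtain ⟨v, rfl⟩ := redv_surjective q v
    have h6 : u ((j' v).1 - algebraMap A (MonoidAlgebra A D) (c₂ * c₁) • y) = 0 := by
      rw [map_sub, hj1, hv, map_smulₛₗ, map_mul, map_mul, mul_smul, sub_self]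
    obtain ⟨c₃, hc₃, h7⟩ := h2 _ h6
    have h8 : (j' v).2 = 0 := by
      change (csub D fun _ => q).mkQ (Fintype.linearCombination _ f v) = 0
      refine (Submodule.Quotient.mk_eq_zero _).2 (redv_eq_zero.1 ?_)
      rw [hj2, hv]
      exact smul_zero _
    refine ⟨c₃ * (c₂ * c₁), fun h => (Ideal.IsPrime.mem_or_mem inferInstance h).elim hc₃ fun h =>
      (Ideal.IsPrime.mem_or_mem inferInstance h).elim hc₂ hc₁',
      algebraMap A (MonoidAlgebra A D) c₃ • v, ?_⟩
    rw [map_smul]
    rw [smul_sub, sub_eq_zero] at h7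
    ext1
    · change algebraMap A (MonoidAlgebra A D) c₃ • (j' v).1 = _
      rw [h7, map_mul _ c₃, mul_smul]
    · change algebraMap A (MonoidAlgebra A D) c₃ • (j' v).2 = _
      rw [h8]
      exact smul_zero _
  obtain ⟨c, hc, hall⟩ := exists_common_prime q
    (p := fun (c : A) y => ∃ v, j' v = (algebraMap A (MonoidAlgebra A D) c • y, 0))
    (by
      rintro c d y ⟨v, hv⟩
      refine ⟨algebraMap A (MonoidAlgebra A D) d • v, ?_⟩
      rw [map_smul, hv, map_mul, mul_smul]
      ext1
      · rfl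
      · exact smul_zero _) s hex
  refine ⟨c, n, m, j', hc, ?_, hall⟩
  intro v
  rw [← redv_eq_zero]
  constructor
  · intro hv0
    refine hreg c₂ hc₂ _ ((injective_iff_map_eq_zero j).1 hj _ ?_)
    rw [map_smul]
    ext1
    · change red q D (algebraMap A _ c₂) • (j (redv q v)).1 = 0
      rw [← hj1, hv0]
      exact map_zero u
    · change red q D (algebraMap A _ c₂) • (j (redv q v)).2 = 0
      rw [← hj2, redv_eq_zero]
      exact (Submodule.Quotient.mk_eq_zero _).1 (congrArg Prod.snd hv0)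
  · intro hv0
    have hcoef : ∀ i g, (v i).coeff g ∈ q := redv_eq_zero.1 hv0
    ext1
    · change Fintype.linearCombination _ z v = 0
      rw [Fintype.linearCombination_apply]
      exact Finset.sum_eq_zero fun i _ => smul_eq_zero_of_coeff hK _ (hcoef i) _
    · change (csub D fun _ => q).mkQ (Fintype.linearCombination _ f v) = 0
      refine (Submodule.Quotient.mk_eq_zero _).2 (redv_eq_zero.1 ?_)
      rw [hj2, hv0, map_zero]
      exact smul_zero _

end Transfer

end Pool.Agent.Lib.MP_551055_al.T4
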