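import Pool.Agent.Lib.MP_551055_al.LO.Main

/-!
# Bridge: nilpotent matrices supported on one double coset

The position `a` is allowed if nilpotent matrices supported on one double coset of its stabiliser
(with unique decompositions) have class zero.
-/

set_option autoImplicit false

namespace Pool.Agent.Lib.MP_551055_al.T4

open Pool.Agent.Lib.MP_551055_al
open Pool.Agent.Lib.MP_551055_al.LS
open Pool.Agent.Lib.MP_551055_al.LO

universe u v

/-- The relation on the cosets of `D` given by the double coset of `g`. -/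
def crel {Γ : Type u} [Group Γ] (D : Subgroup Γ) (g : Γ) (a b : Γ ⧸ D) : Prop :=
  ∃ γ : Γ, a = (γ : Γ ⧸ D) ∧ b = ((γ * g : Γ) : Γ ⧸ D)

/-- Nilpotent matrices supported on a double coset of `D` with unique decompositions have class
zero. -/
def NilOK {Γ : Type u} [Group Γ] (K : K1C (ZG Γ)) (D : Subgroup Γ) : Prop :=
  ∀ g : Γ, UR (Γ := Γ) (crel D g) → ∀ (ι : Type) [Fintype ι] [DecidableEq ι]
    (B : Matrix ι ι (ZG Γ)) (k : ℕ), B ^ k = 0 →
    (∀ i l γ, (B i l).coeff γ ≠ 0 → ∃ a ∈ D, ∃ b ∈ D, γ = a * g * b) →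
    K.G (Matrix.toLinearMapRight' (1 + B))

/-- The position `a` is good. -/
def PosGoodT {Γ : Type u} [Group Γ] (K : K1C (ZG Γ)) {X : Type v} [MulAction Γ X]
    (r : X → X → Prop) (a : X) : Prop :=
  NilOK K (MulAction.stabilizer Γ a) ∨ PosGoodL K r a

/-- Module OrbT. Matrices supported on one orbit of pairs. -/
def StOrbT : Prop :=
  ∀ (Γ : Type u) [Group Γ] (K : K1C (ZG Γ)), MGood K → ∀ (X : Type v) [MulAction Γ X]
    (r : X → X → Prop), UR (Γ := Γ) r → ∀ (ι : Type) [Fintype ι] [DecidableEq ι] (p : ι → X)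
      (j : ℕ) (B : Matrix ι ι (ZG Γ)) (k : ℕ), 1 ≤ j → B ^ k = 0 → Dg r j p B →
      ∀ x z : X, OrbS p B x z → (∀ i, PosGoodT K r (p i)) →
      K.G (Matrix.toLinearMapRight' (1 + B))

/-- Module NilET. -/
def StNilET : Prop :=
  ∀ (Γ : Type u) [Group Γ] (K : K1C (ZG Γ)), MGood K → ∀ (X : Type v) [MulAction Γ X]
    (r : X → X → Prop), UR (Γ := Γ) r → ∀ (ι : Type) [Finite ι] (p : ι → X)
      (ν : Module.End (ZG Γ) (F Γ ι)), IsNilpotent ν → Tr r p p ν → (∀ i, PosGoodT K r (p i)) →
      K.G ((1 : Module.End (ZG Γ) (F Γ ι)) + ν)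

/-- Module RayET. -/
def StRayET : Prop :=
  ∀ (Γ : Type u) [Group Γ] (V : Type v) [MulAction Γ V] (T : SimpleGraph V), TreeAct Γ V T →
    ∀ (K : K1C (ZG Γ)), MGood K → ∀ (S : V → V → Prop), Bar T S →
      (∀ u v, S u v → u ≠ v → NilOK K (MulAction.stabilizer Γ (v, u)) ∨
        LPK (MonoidAlgebra ℤ (MulAction.stabilizer Γ (v, u))) ∨
        ∀ γ : Γ, Trl T γ u v → SGood K (MulAction.stabilizer Γ (v, u) ⊔ Subgroup.zpowers γ)) →
      NilGood K T 1

/-- The final theorem. -/
def StFinalET : Prop :=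
  ∀ (G : Type u) [Group G] (V : Type v) [MulAction G V] (T : SimpleGraph V), TreeAct G V T →
    (∀ v : V, VN.ProjStFree (MulAction.stabilizer G v)) →
    (∀ u v, T.Adj u v → VN.ProjStFree (MulAction.stabilizer G (u, v) × Multiplicative ℤ)) →
    ∀ (S : V → V → Prop), Bar T S →
      (∀ u v, S u v → u ≠ v →
        (∀ K : K1C (ZG (G × Multiplicative ℤ)),
          NilOK K ((MulAction.stabilizer G (v, u)).prod (⊤ : Subgroup (Multiplicative ℤ)))) ∨
        LPK (MonoidAlgebra ℤ (MulAction.stabilizer G (v, u) × Multiplicative ℤ)) ∨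
        ∀ g : G, Trl T g u v →
          VN.ProjStFree (↥(MulAction.stabilizer G (v, u) ⊔ Subgroup.zpowers g))) →
      VN.ProjStFree G

/-- Unique decompositions for the stabiliser of a position. -/
theorem ur_crel {Γ : Type u} [Group Γ] {X : Type v} [MulAction Γ X] {r : X → X → Prop}
    (hr : UR (Γ := Γ) r) (x : X) (g : Γ) (hx : r x (g • x)) :
    UR (Γ := Γ) (crel (MulAction.stabilizer Γ x) g) := by
  let φ : Γ ⧸ MulAction.stabilizer Γ x → X := MulAction.ofQuotientStabilizer Γ x
  have hφ : ∀ γ : Γ, φ (γ : Γ ⧸ MulAction.stabilizer Γ x) = γ • x := fun γ => rfl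
  have hinj : Function.Injective φ := MulAction.injective_ofQuotientStabilizer Γ x
  have h1 : ∀ a b, crel (MulAction.stabilizer Γ x) g a b → r (φ a) (φ b) := by
    rintro a b ⟨γ, rfl, rfl⟩
    rw [hφ, hφ, mul_smul]
    exact hr.inv γ _ _ hx
  have h2 : ∀ i a b, itr (crel (MulAction.stabilizer Γ x) g) i a b → itr r i (φ a) (φ b) := by
    intro i
    induction i with
    | zero => exact fun a b h => congrArg φ h
    | succ i ih =>
      rintro a b ⟨c, hc, h⟩
      exact ⟨φ c, h1 a c hc, ih c b h⟩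
  refine ⟨?_, ?_⟩
  · rintro γ a b ⟨δ, rfl, rfl⟩
    refine ⟨γ * δ, rfl, ?_⟩
    rw [mul_assoc]
    rfl
  · intro i a b b' c hb hb' hc hc'
    exact hinj (hr.uniq i (φ a) (φ b) (φ b') (φ c) (h1 a b hb) (h1 a b' hb') (h2 i b c hc)
      (h2 i b' c hc'))

open OrbAux in
/-- Module OrbT. -/
theorem stOrbT (hNil : StNilL.{u, v}) (hUnip : StUnip.{u}) : StOrbT.{u, v} := by
  classical
  intro Γ _ K hM X _ r hr ι _ _ p j B k hj hBk hD x0 z0 hxz0 hg
  by_cases hB : B = 0
  · rw [hB, add_zero, Matrix.toLinearMapRight'_one]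
    exact K_id K ι
  obtain ⟨i0, l0, γ0, h0⟩ : ∃ i l γ, (B i l).coeff γ ≠ 0 := by
    by_contra hne
    push Not at hne
    apply hB
    ext1 i l
    apply MonoidAlgebra.ext
    ext γ
    exact hne i l γ
  obtain ⟨x, hx⟩ : ∃ x, x = p i0 := ⟨_, rfl⟩
  obtain ⟨z, hz⟩ : ∃ z, z = γ0 • p l0 := ⟨_, rfl⟩
  have hxz : OrbS p B x z := by
    intro i l γ hne
    obtain ⟨h, h1, h2⟩ := hxz0 i l γ hne
    obtain ⟨h', h1', h2'⟩ := hxz0 i0 l0 γ0 h0
    refine ⟨h * h'⁻¹, ?_, ?_⟩
    · rw [hx, h1', smul_smul, inv_mul_cancel_right, h1]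
    · rw [hz, h2', smul_smul, inv_mul_cancel_right, h2]
  have hitr : itr r j x z := by
    rw [hx, hz]
    exact hD i0 l0 γ0 h0
  have hgx : PosGoodT K r x := by
    rw [hx]
    exact hg i0
  have hrow : ∀ i l γ, (B i l).coeff γ ≠ 0 → p i ∈ MulAction.orbit Γ x ∧ p l ∈ MulAction.orbit Γ z := by
    intro i l γ hne
    obtain ⟨h, h1, h2⟩ := hxz i l γ hne
    refine ⟨⟨h, h1.symm⟩, ⟨γ⁻¹ * h, ?_⟩⟩
    change (γ⁻¹ * h) • z = p l
    rw [mul_smul, ← h2, inv_smul_smul]
  have hlin : Matrix.toLinearMapRight' (1 + B) =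
      LinearMap.id + Matrix.toLinearMapRight' B := by
    rw [map_add, Matrix.toLinearMapRight'_one]
  by_cases hzo : z ∈ MulAction.orbit Γ x
  swap
  · -- different orbits
    have hdis : ∀ q : X, q ∈ MulAction.orbit Γ x → q ∉ MulAction.orbit Γ z := by
      rintro q ⟨a, ha⟩ ⟨b, hb⟩
      apply hzo
      refine ⟨b⁻¹ * a, ?_⟩
      change (b⁻¹ * a) • x = z
      have ha' : a • x = q := ha
      have hb' : b • z = q := hb
      rw [mul_smul, ha', ← hb', inv_smul_smul]
    rw [hlin]
    refine hUnip (ZG Γ) K ι (fun i => if p i ∈ MulAction.orbit Γ x then 1 else 0) _ ?_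
    intro t y hy l hl
    rw [Matrix.toLinearMapRight'_apply, Matrix.vecMul_eq_sum, Finset.sum_apply]
    refine Finset.sum_eq_zero fun i _ => ?_
    change y i * B i l = 0
    by_cases hBil : B i l = 0
    · rw [hBil, mul_zero]
    · obtain ⟨γ, hγ⟩ : ∃ γ, (B i l).coeff γ ≠ 0 := by
        by_contra hne
        push Not at hne
        exact hBil (MonoidAlgebra.ext (Finsupp.ext hne))
      obtain ⟨h1, h2⟩ := hrow i l γ hγ
      have h3 : p l ∉ MulAction.orbit Γ x := fun h => hdis _ h h2
      have h4 : t = 0 := by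
        rw [if_neg h3] at hl
        omega
      have h5 : y i = 0 := by
        apply hy
        rw [h4, if_pos h1]
      rw [h5, zero_mul]
  · obtain ⟨g, hgz⟩ := hzo
    have hgz' : g • x = z := hgz
    have hrow' : ∀ i l γ, (B i l).coeff γ ≠ 0 →
        p i ∈ MulAction.orbit Γ x ∧ p l ∈ MulAction.orbit Γ x := by
      intro i l γ hne
      obtain ⟨h1, a, ha⟩ := hrow i l γ hne
      have ha' : a • z = p l := ha
      refine ⟨h1, a * g, ?_⟩
      change (a * g) • x = p l
      rw [mul_smul, hgz', ha']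
    -- the diagonal matrix
    have hc : ∀ i, ∃ c : Γ, p i ∈ MulAction.orbit Γ x → p i = c • x := by
      intro i
      by_cases h : p i ∈ MulAction.orbit Γ x
      · obtain ⟨c, hc⟩ := h
        exact ⟨c, fun _ => hc.symm⟩
      · exact ⟨1, fun h' => absurd h' h⟩
    choose c hc using hc
    let C : Matrix ι ι (ZG Γ) := Matrix.diagonal fun i => MonoidAlgebra.single (c i) 1
    let C' : Matrix ι ι (ZG Γ) := Matrix.diagonal fun i => MonoidAlgebra.single (c i)⁻¹ 1
    have hCC' : C * C' = 1 := by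
      rw [Matrix.diagonal_mul_diagonal, ← Matrix.diagonal_one]
      congr 1
      funext i
      rw [MonoidAlgebra.single_mul_single, mul_inv_cancel, mul_one]
      rfl
    have hC'C : C' * C = 1 := by
      rw [Matrix.diagonal_mul_diagonal, ← Matrix.diagonal_one]
      congr 1
      funext i
      rw [MonoidAlgebra.single_mul_single, inv_mul_cancel, mul_one]
      rfl
    let M : Matrix ι ι (ZG Γ) := C' * B * C
    have hMk : M ^ k = 0 := by
      have h1 : ∀ m : ℕ, M ^ m = C' * B ^ m * C := by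
        intro m
        induction m with
        | zero => rw [pow_zero, pow_zero, mul_one, hC'C]
        | succ m ih =>
          rw [pow_succ, ih, pow_succ]
          calc C' * B ^ m * C * (C' * B * C) = C' * B ^ m * (C * C') * B * C := by
                simp only [mul_assoc]
            _ = C' * (B ^ m * B) * C := by rw [hCC', mul_one]; simp only [mul_assoc]
      rw [h1, hBk, mul_zero, zero_mul]
    have hMcoeff : ∀ i l, M i l = MonoidAlgebra.single (c i)⁻¹ 1 * B i l *
        MonoidAlgebra.single (c l) 1 := by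
      intro i l
      change (C' * B * C) i l = _
      rw [Matrix.mul_diagonal, Matrix.diagonal_mul]
    have hMsupp : ∀ i l γ, (M i l).coeff γ ≠ 0 → ∃ a ∈ MulAction.stabilizer Γ x,
        ∃ b ∈ MulAction.stabilizer Γ x, γ = a * g * b := by
      intro i l γ hne
      rw [hMcoeff] at hne
      obtain ⟨a, b, ha, hb, hab⟩ := exists_of_coeff_mul hne
      obtain ⟨a1, a2, ha1, ha2, ha12⟩ := exists_of_coeff_mul ha
      have hb' : b = c l := by
        by_contra hne'
        apply hb
        rw [MonoidAlgebra.coeff_single, Finsupp.single_apply, if_neg (Ne.symm hne')]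
      have ha1' : a1 = (c i)⁻¹ := by
        by_contra hne'
        apply ha1
        rw [MonoidAlgebra.coeff_single, Finsupp.single_apply, if_neg (Ne.symm hne')]
      obtain ⟨h, h1, h2⟩ := hxz i l a2 ha2
      obtain ⟨h3, h4⟩ := hrow' i l a2 ha2
      have h5 := hc i h3
      have h6 := hc l h4
      refine ⟨(c i)⁻¹ * h, ?_, g⁻¹ * (h⁻¹ * a2 * c l), ?_, ?_⟩
      · change ((c i)⁻¹ * h) • x = x
        rw [mul_smul, ← h1, h5, inv_smul_smul]
      · change (g⁻¹ * (h⁻¹ * a2 * c l)) • x = x
        rw [mul_smul, mul_smul, mul_smul, ← h6, h2, inv_smul_smul, ← hgz', inv_smul_smul]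
      · rw [← hab, ← ha12, ha1', hb']
        group
    have hfin : K.G (Matrix.toLinearMapRight' (1 + M)) → K.G (Matrix.toLinearMapRight' (1 + B)) := by
      intro h1
      have h3 : 1 + B = C * (1 + M) * C' := by
        rw [mul_add, add_mul, mul_one, hCC']
        congr 1
        change B = C * (C' * B * C) * C'
        calc B = (C * C') * B * (C * C') := by rw [hCC', one_mul, mul_one]
          _ = C * (C' * B * C) * C' := by simp only [mul_assoc]
      have hCG : K.G (Matrix.toLinearMapRight' C) := by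
        refine hM ι c _ fun y i => ?_
        rw [Matrix.toLinearMapRight'_apply]
        exact Matrix.vecMul_diagonal _ _ _
      have hC'G : K.G (Matrix.toLinearMapRight' C') := by
        refine hM ι (fun i => (c i)⁻¹) _ fun y i => ?_
        rw [Matrix.toLinearMapRight'_apply]
        exact Matrix.vecMul_diagonal _ _ _
      rw [h3, Matrix.toLinearMapRight'_mul, Matrix.toLinearMapRight'_mul]
      exact K.comp _ _ (K.comp _ _ hCG h1) hC'G
    rcases hgx with hnil | hreg | hE
    · -- nilpotent matrices supported on a double coset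
      have hur : UR (Γ := Γ) (crel (MulAction.stabilizer Γ x) g) :=
        ur_crel (ur_itr hr j) x g (by rw [hgz']; exact hitr)
      exact hfin (hnil g hur ι M k hMk hMsupp)
    · -- locally perfect kernels
      rw [hlin]
      refine hNil Γ K X (itr r j) (ur_itr hr j) ι
        (fun i => if p i ∈ MulAction.orbit Γ x then p i else x) _ ?_ ?_ ?_
      · refine ⟨k, ?_⟩
        rw [← toLin_pow, hBk, map_zero]
      · intro P y hy
        rw [in_iff] at hy ⊢
        intro l γ hne
        rw [Matrix.toLinearMapRight'_apply, Matrix.vecMul_eq_sum, Finset.sum_apply] at hne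
        obtain ⟨i, _, hi⟩ := exists_of_coeff_sum hne
        obtain ⟨a, b, ha, hb, hab⟩ := exists_of_coeff_mul hi
        obtain ⟨h1, h2⟩ := hrow' i l b hb
        have h3 := hy i a ha
        rw [if_pos h1] at h3
        refine ⟨_, h3, ?_⟩
        rw [if_pos h2, ← hab, mul_smul]
        exact itr_smul hr a j _ _ (hD i l b hb)
      · intro i
        have key : ∀ q : X, q ∈ MulAction.orbit Γ x →
            LPK (MonoidAlgebra ℤ (MulAction.stabilizer Γ q)) := by
          rintro q ⟨a, ha⟩
          exact LPK.congr (MonoidAlgebra.mapDomainRingEquiv ℤ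
            (MulAction.stabilizerEquivStabilizer (g := a) ha.symm)) hreg
        refine key _ ?_
        split_ifs with h
        · exact h
        · exact MulAction.mem_orbit_self x
    · -- the subgroup generated by the stabiliser and `g`
      have hSG : SGood K (MulAction.stabilizer Γ x ⊔ Subgroup.zpowers g) :=
        hE g j hj (by rw [hgz']; exact hitr)
      obtain ⟨E, hEdef⟩ : ∃ E, E = MulAction.stabilizer Γ x ⊔ Subgroup.zpowers g := ⟨_, rfl⟩
      rw [← hEdef] at hSG
      have hgE : g ∈ E := by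
        rw [hEdef]
        exact (le_sup_right : _ ≤ MulAction.stabilizer Γ x ⊔ Subgroup.zpowers g)
          (Subgroup.mem_zpowers _)
      have hDE : ∀ d ∈ MulAction.stabilizer Γ x, d ∈ E := by
        intro d hd
        rw [hEdef]
        exact (le_sup_left : _ ≤ MulAction.stabilizer Γ x ⊔ Subgroup.zpowers g) hd
      have hinj : Function.Injective E.subtype := Subtype.val_injective
      let M0 : Matrix ι ι (MonoidAlgebra ℤ E) := fun i l => prj ℤ E.subtype hinj (M i l)
      have hM0 : M0.map (inc ℤ E.subtype) = M := by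
        ext1 i l
        change inc ℤ E.subtype (prj ℤ E.subtype hinj (M i l)) = M i l
        apply MonoidAlgebra.ext
        ext γ
        by_cases hγ : γ ∈ Set.range E.subtype
        · obtain ⟨h', rfl⟩ := hγ
          rw [inc_coeff_apply E.subtype hinj, prj_coeff]
        · rw [inc_coeff_of_notMem E.subtype _ γ hγ]
          by_contra hne
          obtain ⟨a, ha, b, hb, hab⟩ := hMsupp i l γ (Ne.symm hne)
          refine hγ ⟨⟨γ, ?_⟩, rfl⟩
          rw [hab]
          exact E.mul_mem (E.mul_mem (hDE a ha) hgE) (hDE b hb)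
      have hmapinj : Function.Injective fun A : Matrix ι ι (MonoidAlgebra ℤ E) =>
          A.map (inc ℤ E.subtype) := Matrix.map_injective (inc_injective E.subtype hinj)
      have hM0k : M0 ^ k = 0 := by
        apply hmapinj
        change (M0 ^ k).map (inc ℤ E.subtype) = (0 : Matrix ι ι (MonoidAlgebra ℤ E)).map _
        have h1 : (M0 ^ k).map (inc ℤ E.subtype) = (M0.map (inc ℤ E.subtype)) ^ k :=
          map_pow (RingHom.mapMatrix (inc ℤ E.subtype)) M0 k
        rw [h1, hM0, hMk]
        exact (map_zero (RingHom.mapMatrix (m := ι) (inc ℤ E.subtype))).symm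
      obtain ⟨hi1, hi2⟩ := nil_inv hM0k
      have h1 := hSG ι ι (1 + M0) _ hi1 hi2
      have h2 : (1 + M0).map (inc ℤ E.subtype) = 1 + M := by
        have h3 : (1 + M0).map (inc ℤ E.subtype) =
            RingHom.mapMatrix (inc ℤ E.subtype) 1 + RingHom.mapMatrix (inc ℤ E.subtype) M0 :=
          map_add (RingHom.mapMatrix (inc ℤ E.subtype)) 1 M0
        rw [h3, map_one]
        exact congrArg (1 + ·) hM0
      rw [h2] at h1
      exact hfin h1

/-- Module NilET. -/
theorem stNilET (hE : StElim.{u, v}) (hO : StOrbT.{u, v}) : StNilET.{u, v} := by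
  classical
  intro Γ _ K hM X _ r hr ι _ p ν hν htr hg
  have := Fintype.ofFinite ι
  obtain ⟨k, hk⟩ := hν
  let A : Matrix ι ι (ZG Γ) := LinearMap.toMatrixRight' ν
  have hA : Matrix.toLinearMapRight' A = ν := LinearEquiv.symm_apply_apply _ _
  have hpow : A ^ k = 0 := by
    apply Matrix.toLinearMapRight'.injective
    rw [map_zero, toLin_pow, hA, hk]
  have hD : Dg r 1 p A := by
    intro i l γ hne
    have h1 : In p {b | ∃ a ∈ ({p i} : Set X), r a b} (ν (Pi.single i 1)) :=
      htr {p i} _ (in_basis_one p i)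
    have h3 : ν (Pi.single i 1) l = A i l := by
      rw [← hA, Matrix.toLinearMapRight'_apply, Matrix.single_one_vecMul]
      rfl
    obtain ⟨a, ha, hab⟩ := in_iff.1 h1 l γ (by rw [h3]; exact hne)
    rw [Set.mem_singleton_iff.1 ha] at hab
    exact ⟨_, hab, rfl⟩
  have h := hE Γ K X r hr ι p A k hpow hD fun j B hj hB hDB x z hxz =>
    hO Γ K hM X r hr ι p j B k hj hB hDB x z hxz hg
  rw [map_add, Matrix.toLinearMapRight'_one, hA] at h
  exact h

/-- Module RayET. -/
theorem stRayET (hN : StNilET.{u, v}) (hS : StStepP.{u, v}) (hB : StTreeB.{u, v}) :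
    StRayET.{u, v} := by
  intro Γ _ V _ T hT K hM S hbar hgood ι _ p ν hp hnil htr
  -- the step
  have hstep : ∀ (m : ℕ) (s : Lev Γ T m), ∃ (s' : Lev Γ T (m + 1)) (π : s'.ι → s.ι),
      (∀ k, (s'.p k).2 = (s.p (π k)).2 ∧ T.Adj (s'.p k).1 (s.p (π k)).1) ∧
      (K.G ((1 : Module.End (ZG Γ) (F Γ s'.ι)) + s'.ν) →
        K.G ((1 : Module.End (ZG Γ) (F Γ s.ι)) + s.ν)) := by
    intro m s
    obtain ⟨κ, hκ, q, π, μ, h1, h2, h3, h4, h5⟩ :=
      hS Γ V T hT K (m + 1) (Nat.le_add_left 1 m) s.ι s.p s.ν s.dist s.nil s.tr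
    exact ⟨⟨κ, hκ, q, μ, h1, h3, h4⟩, π, h2, h5⟩
  choose nx π hπ hG using hstep
  have hι : Finite ι := inferInstance
  generalize hs0 : (⟨ι, hι, p, ν, hp, hnil, htr⟩ : Lev Γ T 0) = s0
  have hgoal : K.G ((1 : Module.End (ZG Γ) (F Γ s0.ι)) + s0.ν) →
      K.G ((1 : Module.End (ZG Γ) (F Γ ι)) + ν) := by
    rw [← hs0]
    exact fun h => h
  apply hgoal
  clear hgoal hs0
  have hdown : ∀ m, K.G ((1 : Module.End (ZG Γ) (F Γ (levSeq s0 nx m).ι)) + (levSeq s0 nx m).ν) →
      K.G ((1 : Module.End (ZG Γ) (F Γ s0.ι)) + s0.ν) := by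
    intro m
    induction m with
    | zero => exact fun h => h
    | succ m ih => exact fun h => ih (hG m (levSeq s0 nx m) h)
  by_cases hall : ∃ m, ∀ k : (levSeq s0 nx m).ι,
      S ((levSeq s0 nx m).p k).2 ((levSeq s0 nx m).p k).1
  · obtain ⟨m, hm⟩ := hall
    refine hdown m (hN Γ K hM (V × V) (sh T (m + 1)) (hB Γ V T hT (m + 1) (Nat.le_add_left 1 m)).1
      (levSeq s0 nx m).ι (levSeq s0 nx m).p (levSeq s0 nx m).ν (levSeq s0 nx m).nil
      (levSeq s0 nx m).tr fun k => ?_)
    have hd := (levSeq s0 nx m).dist k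
    have hmk := hm k
    generalize (levSeq s0 nx m).p k = a at hd hmk
    obtain ⟨v, u⟩ := a
    have hd' : T.dist v u = m + 1 := hd
    have hne : u ≠ v := fun h => by
      rw [h, T.dist_self] at hd'
      omega
    rcases hgood u v hmk hne with h | h | h
    · exact Or.inl h
    · exact Or.inr (Or.inl h)
    · refine Or.inr (Or.inr fun γ j hj hjγ => h γ ?_)
      obtain ⟨h1, h2⟩ := itr_dist hT.tree (Nat.le_add_left 1 m) _ j (v, u) hd' hjγ
      obtain ⟨h3, h4⟩ := itr_dist_snd hT.tree (Nat.le_add_left 1 m) _ j (v, u) hd' hjγ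
      have h1' : T.dist (γ • v) v = j := h1
      have h2' : T.dist (γ • v) u = j + (m + 1) := h2
      have h3' : T.dist (γ • v) (γ • u) = m + 1 := h3
      have h4' : T.dist (γ • u) u = j := h4
      rw [T.dist_comm] at h1' h2' h3' h4' hd'
      refine ⟨fun he => ?_, ?_, ?_⟩
      · rw [he, T.dist_self] at h1'
        omega
      · rw [h1', h2', hd', Nat.add_comm]
      · rw [h2', h3', h4']
  exfalso
  push Not at hall
  -- the bad indices
  let B : ℕ → Type := fun m => {k : (levSeq s0 nx m).ι //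
    ¬ S ((levSeq s0 nx m).p k).2 ((levSeq s0 nx m).p k).1}
  let f : ∀ m, B (m + 1) → B m := fun m k =>
    ⟨π m (levSeq s0 nx m) k.1, fun h => k.2 (by
      have h1 := (hπ m (levSeq s0 nx m) k.1).1
      have h2 := (hπ m (levSeq s0 nx m) k.1).2
      have h3 := (levSeq s0 nx m).dist (π m (levSeq s0 nx m) k.1)
      have h4 := (levSeq s0 nx (m + 1)).dist k.1
      rw [show ((levSeq s0 nx (m + 1)).p k.1).2 = ((levSeq s0 nx m).p (π m (levSeq s0 nx m) k.1)).2
        from h1]
      refine hbar.pro _ _ _ h h2.symm ?_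
      rw [show ((levSeq s0 nx (m + 1)).p k.1).2 = ((levSeq s0 nx m).p (π m (levSeq s0 nx m) k.1)).2
        from h1, T.dist_comm] at h4
      rw [T.dist_comm] at h3
      rw [h3]
      exact h4)⟩
  have hBfin : ∀ m, Finite (B m) := fun m =>
    inferInstanceAs (Finite {k : (levSeq s0 nx m).ι //
      ¬ S ((levSeq s0 nx m).p k).2 ((levSeq s0 nx m).p k).1})
  have hBne : ∀ m, Nonempty (B m) := fun m => (hall m).elim fun k hk => ⟨⟨k, hk⟩⟩
  obtain ⟨k, hk⟩ := exists_coherent B f hBfin hBne
  -- the ray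
  let x : ℕ → V := fun n => Nat.casesOn n ((levSeq s0 nx 0).p (k 0).1).2
    fun m => ((levSeq s0 nx m).p (k m).1).1
  have hπk : ∀ m, π m (levSeq s0 nx m) (k (m + 1)).1 = (k m).1 := fun m => congrArg Subtype.val (hk m)
  have hx2 : ∀ m, ((levSeq s0 nx m).p (k m).1).2 = x 0 := by
    intro m
    induction m with
    | zero => rfl
    | succ m ih =>
      have := (hπ m (levSeq s0 nx m) (k (m + 1)).1).1
      rw [hπk] at this
      exact this.trans ih
  have hdist : ∀ n, T.dist (x n) (x 0) = n := by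
    intro n
    cases n with
    | zero => exact T.dist_self
    | succ m =>
      have := (levSeq s0 nx m).dist (k m).1
      rw [hx2] at this
      exact this
  have hadj : ∀ n, T.Adj (x n) (x (n + 1)) := by
    intro n
    cases n with
    | zero =>
      have := hdist 1
      exact (T.dist_eq_one_iff_adj.1 this).symm
    | succ m =>
      have := (hπ m (levSeq s0 nx m) (k (m + 1)).1).2
      rw [hπk] at this
      exact this.symm
  obtain ⟨n, hn, hreg⟩ := hbar.ray x hadj fun n hne => by
    have h1 := hdist n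
    have h2 := hdist (n + 2)
    rw [← hne] at h2
    omega
  obtain ⟨m, rfl⟩ : ∃ m, n = m + 1 := ⟨n - 1, by omega⟩
  apply (k m).2
  rw [hx2 m]
  exact hreg

end Pool.Agent.Lib.MP_551055_al.T4
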