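import Pool.Agent.Lib.MP_551055_al.T4.OrbT

/-!
# Bridge: transport along isomorphisms of groups
-/

set_option autoImplicit false

namespace Pool.Agent.Lib.MP_551055_al.T4

open Pool.Agent.Lib.MP_551055_al
open Pool.Agent.Lib.MP_551055_al.LS
open Pool.Agent.Lib.MP_551055_al.LO

universe u v

section Rings

variable {S S' : Type u} [Ring S] [Ring S'] (e : S ≃+* S')

/-- Transport of a linear map between free modules along an isomorphism of rings. -/
def bk {ι κ : Type} (f : (ι → S') →ₗ[S'] (κ → S')) : (ι → S) →ₗ[S] (κ → S) where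
  toFun y := fun j => e.symm (f (fun i => e (y i)) j)
  map_add' y z := by
    have h : (fun i => e ((y + z) i)) = (fun i => e (y i)) + fun i => e (z i) := by
      funext i
      exact map_add e _ _
    rw [h, map_add]
    funext j
    exact map_add e.symm _ _
  map_smul' s y := by
    have h : (fun i => e ((s • y) i)) = e s • fun i => e (y i) := by
      funext i
      exact map_mul e _ _
    rw [h, map_smul]
    funext j
    change e.symm (e s * _) = s * _
    rw [map_mul, e.symm_apply_apply]

theorem bk_apply {ι κ : Type} (f : (ι → S') →ₗ[S'] (κ → S')) (y : ι → S) (j : κ) :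
    bk e f y j = e.symm (f (fun i => e (y i)) j) := rfl

theorem bk_comp {ι κ μ : Type} (f : (ι → S') →ₗ[S'] (κ → S')) (g : (κ → S') →ₗ[S'] (μ → S')) :
    bk e (g ∘ₗ f) = bk e g ∘ₗ bk e f := by
  apply LinearMap.ext
  intro y
  funext j
  have h : (fun i => e (bk e f y i)) = f (fun i => e (y i)) := by
    funext i
    rw [bk_apply, e.apply_symm_apply]
  rw [bk_apply, LinearMap.comp_apply, LinearMap.comp_apply, bk_apply, h]

theorem bk_id {ι : Type} : bk e (LinearMap.id : (ι → S') →ₗ[S'] (ι → S')) = LinearMap.id := by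
  apply LinearMap.ext
  intro y
  funext j
  exact e.symm_apply_apply _

theorem bk_zero {ι κ : Type} : bk e (0 : (ι → S') →ₗ[S'] (κ → S')) = 0 := by
  apply LinearMap.ext
  intro y
  funext j
  exact map_zero e.symm

theorem bk_blk {ι κ ι' κ' : Type} (f : (ι → S') →ₗ[S'] (ι' → S')) (c : (ι → S') →ₗ[S'] (κ' → S'))
    (g : (κ → S') →ₗ[S'] (κ' → S')) : bk e (blk f c g) = blk (bk e f) (bk e c) (bk e g) := by
  apply LinearMap.ext
  intro y
  funext j
  rcases j with j | j
  · rfl
  · exact map_add e.symm _ _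

theorem bij_of_bk {ι κ : Type} (f : (ι → S') →ₗ[S'] (κ → S')) (h : Function.Bijective (bk e f)) :
    Function.Bijective f := by
  have h1 : ∀ y : ι → S', f y = fun j => e (bk e f (fun i => e.symm (y i)) j) := by
    intro y
    funext j
    have h : (fun i => e (e.symm (y i))) = y := by
      funext i
      exact e.apply_symm_apply _
    rw [bk_apply, e.apply_symm_apply, h]
  constructor
  · intro y z hyz
    rw [h1 y, h1 z] at hyz
    have h2 : bk e f (fun i => e.symm (y i)) = bk e f (fun i => e.symm (z i)) := by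
      funext j
      exact e.injective (congrFun hyz j)
    have h3 := h.1 h2
    funext i
    exact e.symm.injective (congrFun h3 i)
  · intro z
    obtain ⟨y, hy⟩ := h.2 (fun j => e.symm (z j))
    refine ⟨fun i => e (y i), ?_⟩
    rw [h1]
    funext j
    have h2 : (fun i => e.symm (e (y i))) = y := by
      funext i
      exact e.symm_apply_apply _
    rw [h2, hy, e.apply_symm_apply]

/-- Transport of a class of maps of class zero. -/
def trK (K : K1C S) : K1C S' where
  G f := K.G (bk e f)
  bij f h := bij_of_bk e f (K.bij _ h)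
  comp f g hf hg := by
    rw [bk_comp]
    exact K.comp _ _ hf hg
  left f g h hf := by
    rw [bk_comp] at h
    exact K.left _ _ h hf
  right f g h hg := by
    rw [bk_comp] at h
    exact K.right _ _ h hg
  perm {ι κ} _ _ σ := by
    have h1 : bk e (LinearMap.funLeft S' S' σ.symm) = LinearMap.funLeft S S σ.symm := by
      apply LinearMap.ext
      intro y
      funext j
      exact e.symm_apply_apply _
    rw [h1]
    exact K.perm σ
  tri f c g hf hg := by
    rw [bk_blk]
    exact K.tri _ _ _ hf hg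
  unst {ι κ ι'} _ _ _ f h := by
    rw [bk_blk, bk_zero, bk_id] at h
    exact K.unst (κ := κ) _ h

theorem trK_G (K : K1C S) {ι κ : Type} (f : (ι → S') →ₗ[S'] (κ → S')) :
    (trK e K).G f ↔ K.G (bk e f) := Iff.rfl

theorem bk_toLin {ι κ : Type} [Fintype ι] [Fintype κ] [DecidableEq ι] [DecidableEq κ]
    (B : Matrix ι κ S) :
    bk e (Matrix.toLinearMapRight' (B.map e)) = Matrix.toLinearMapRight' B := by
  apply LinearMap.ext
  intro y
  funext j
  rw [bk_apply, Matrix.toLinearMapRight'_apply, Matrix.toLinearMapRight'_apply,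
    Matrix.vecMul_eq_sum, Matrix.vecMul_eq_sum, Finset.sum_apply, Finset.sum_apply, map_sum]
  refine Finset.sum_congr rfl fun i _ => ?_
  change e.symm (e (y i) * e (B i j)) = y i * B i j
  rw [← map_mul, e.symm_apply_apply]

end Rings

section Groups

variable {Γ Γ' : Type u} [Group Γ] [Group Γ']

theorem coeff_map (e : Γ ≃* Γ') (x : ZG Γ) (γ : Γ) :
    (MonoidAlgebra.mapDomainRingEquiv ℤ e x).coeff (e γ) = x.coeff γ := by
  induction x using MonoidAlgebra.induction_linear with
  | zero => rw [map_zero]; rfl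
  | add a b h1 h2 =>
    rw [map_add]
    change (MonoidAlgebra.mapDomainRingEquiv ℤ e a).coeff (e γ) +
      (MonoidAlgebra.mapDomainRingEquiv ℤ e b).coeff (e γ) = a.coeff γ + b.coeff γ
    rw [h1, h2]
  | single δ c =>
    classical
    have h3 : MonoidAlgebra.mapDomainRingEquiv ℤ e (MonoidAlgebra.single δ c) =
        MonoidAlgebra.single (e δ) c := by simp
    rw [h3, MonoidAlgebra.coeff_single, MonoidAlgebra.coeff_single, Finsupp.single_apply,
      Finsupp.single_apply]
    by_cases h : δ = γ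
    · rw [if_pos h, if_pos (congrArg e h)]
    · rw [if_neg h, if_neg fun h' => h (e.injective h')]

theorem ur_congr (e : Γ ≃* Γ') (D : Subgroup Γ) (D' : Subgroup Γ') (hD : ∀ γ, γ ∈ D ↔ e γ ∈ D')
    (g : Γ) (h : UR (Γ := Γ) (crel D g)) : UR (Γ := Γ') (crel D' (e g)) := by
  let ψ : Γ' ⧸ D' → Γ ⧸ D := Quotient.map' e.symm (by
    intro a b hab
    rw [QuotientGroup.leftRel_apply] at hab ⊢
    rw [hD, map_mul, map_inv, e.apply_symm_apply, e.apply_symm_apply]
    exact hab)
  have hψ : ∀ γ : Γ', ψ (γ : Γ' ⧸ D') = ((e.symm γ : Γ) : Γ ⧸ D) := fun γ => rfl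
  have hinj : Function.Injective ψ := by
    intro a b
    induction a using QuotientGroup.induction_on
    induction b using QuotientGroup.induction_on
    rename_i a b
    intro hab
    rw [hψ, hψ, QuotientGroup.eq, hD, map_mul, map_inv, e.apply_symm_apply,
      e.apply_symm_apply] at hab
    exact QuotientGroup.eq.2 hab
  have h1 : ∀ a b, crel D' (e g) a b → crel D g (ψ a) (ψ b) := by
    rintro a b ⟨γ, rfl, rfl⟩
    refine ⟨e.symm γ, rfl, ?_⟩
    rw [hψ, map_mul, e.symm_apply_apply]
  have h2 : ∀ i a b, itr (crel D' (e g)) i a b → itr (crel D g) i (ψ a) (ψ b) := by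
    intro i
    induction i with
    | zero => exact fun a b h => congrArg ψ h
    | succ i ih =>
      rintro a b ⟨c, hc, h⟩
      exact ⟨ψ c, h1 a c hc, ih c b h⟩
  refine ⟨?_, ?_⟩
  · rintro γ a b ⟨δ, rfl, rfl⟩
    refine ⟨γ * δ, rfl, ?_⟩
    rw [mul_assoc]
    rfl
  · intro i a b b' c hb hb' hc hc'
    exact hinj (h.uniq i (ψ a) (ψ b) (ψ b') (ψ c) (h1 a b hb) (h1 a b' hb') (h2 i b c hc)
      (h2 i b' c hc'))

/-- Transport along an isomorphism of groups. -/
theorem NilOK.congr (e : Γ ≃* Γ') (D : Subgroup Γ) (D' : Subgroup Γ')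
    (hD : ∀ γ, γ ∈ D ↔ e γ ∈ D') (K : K1C (ZG Γ))
    (h : NilOK (trK (MonoidAlgebra.mapDomainRingEquiv ℤ e) K) D') : NilOK K D := by
  intro g hur ι _ _ B k hB hsupp
  let E : ZG Γ ≃+* ZG Γ' := MonoidAlgebra.mapDomainRingEquiv ℤ e
  have h1 := h (e g) (ur_congr e D D' hD g hur) ι (B.map E) k (by
    have h2 : (B.map E) ^ k = (B ^ k).map E := (map_pow (RingHom.mapMatrix (E : ZG Γ →+* ZG Γ')) B k).symm
    rw [h2, hB]
    exact map_zero (RingHom.mapMatrix (m := ι) (E : ZG Γ →+* ZG Γ'))) (by
    intro i l γ hne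
    obtain ⟨δ, rfl⟩ := e.surjective γ
    have h3 : (B i l).coeff δ ≠ 0 := by
      rw [← coeff_map e]
      exact hne
    obtain ⟨a, ha, b, hb, hab⟩ := hsupp i l δ h3
    refine ⟨e a, (hD a).1 ha, e b, (hD b).1 hb, ?_⟩
    rw [hab, map_mul, map_mul])
  rw [trK_G] at h1
  have h4 : 1 + B.map E = (1 + B).map E := by
    have h5 := map_add (RingHom.mapMatrix (E : ZG Γ →+* ZG Γ')) (1 : Matrix ι ι (ZG Γ)) B
    rw [map_one] at h5
    exact h5.symm
  rw [h4] at h1
  have h6 := bk_toLin E (1 + B)
  rw [← h6]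
  exact h1

end Groups

end Pool.Agent.Lib.MP_551055_al.T4
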