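import Pool.Agent.Lib.MP_551055_al.T4.Constr
import Pool.Agent.Lib.MP_551055_al.T4.Ind
import Pool.Agent.Lib.MP_551055_al.T4.Gen
import Pool.Agent.Lib.MP_551055_al.T4.BC
import Pool.Agent.Lib.MP_551055_al.T4.CA

/-!
# The V step and the last step of the devissage
-/

set_option autoImplicit false

namespace Pool.Agent.Lib.MP_551055_al.T4

open Pool.Agent.Lib.MP_551055_al
open Pool.Agent.Lib.MP_551055_al.LS
open Pool.Agent.Lib.MP_551055_al.LD

universe u

section

variable {A : Type u} [CommRing A] {G : Type u} [Group G] {D : Subgroup G}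
  {M : Type u} [AddCommGroup M] [Module (MonoidAlgebra A D) M]
  {M' : Type u} [AddCommGroup M'] [Module (MonoidAlgebra A D) M']

/-- Products of finitely generated ideals and submodules. -/
theorem exists_span_smul (J : Ideal A) (N : Submodule (MonoidAlgebra A D) M) (hJ : J.FG)
    (hN : N.FG) : ∃ s : Finset M,
      (∀ y ∈ s, ∃ a ∈ J, ∃ m ∈ N, y = algebraMap A (MonoidAlgebra A D) a • m) ∧
      ∀ a ∈ J, ∀ m ∈ N, algebraMap A (MonoidAlgebra A D) a • m ∈
        Submodule.span (MonoidAlgebra A D) (s : Set M) := by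
  classical
  obtain ⟨s, hs⟩ := hJ
  obtain ⟨t, ht⟩ := hN
  refine ⟨Finset.image₂ (fun a m => algebraMap A (MonoidAlgebra A D) a • m) s t, ?_, ?_⟩
  · intro y hy
    obtain ⟨a, ha, m, hm, rfl⟩ := Finset.mem_image₂.1 hy
    refine ⟨a, ?_, m, ?_, rfl⟩
    · rw [← hs]
      exact Submodule.subset_span ha
    · rw [← ht]
      exact Submodule.subset_span hm
  · intro a ha m hm
    rw [← hs] at ha
    rw [← ht] at hm
    induction ha using Submodule.span_induction with
    | mem a ha =>
      induction hm using Submodule.span_induction with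
      | mem m hm => exact Submodule.subset_span (Finset.mem_image₂_of_mem ha hm)
      | zero =>
        rw [smul_zero]
        exact Submodule.zero_mem _
      | add m m' _ _ h1 h2 =>
        rw [smul_add]
        exact Submodule.add_mem _ h1 h2
      | smul r m _ h1 =>
        rw [smul_smul, Algebra.commutes, ← smul_smul]
        exact Submodule.smul_mem _ _ h1
    | zero =>
      rw [map_zero, zero_smul]
      exact Submodule.zero_mem _
    | add a b _ _ h1 h2 =>
      rw [map_add, add_smul]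
      exact Submodule.add_mem _ h1 h2
    | smul b a _ h1 =>
      rw [smul_eq_mul, map_mul, mul_smul]
      exact Submodule.smul_mem _ _ h1

/-- Quotients of nil modules. -/
theorem exists_quot (f : M →ₛₗ[incD D A] Ind A D M) (N : Submodule (MonoidAlgebra A D) M)
    (hN : ∀ m ∈ N, ∀ x, f m x ∈ N) :
    ∃ f' : (M ⧸ N) →ₛₗ[incD D A] Ind A D (M ⧸ N), IsHom f f' N.mkQ := by
  refine ⟨N.liftQ ((Ind.map N.mkQ).comp f) ?_, fun m x => ?_⟩
  · intro m hm
    rw [LinearMap.mem_ker, LinearMap.comp_apply]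
    apply Ind.ext
    intro x
    rw [Ind.map_apply, Ind.zero_apply, Submodule.mkQ_apply, Submodule.Quotient.mk_eq_zero]
    exact hN m hm x
  · change (Ind.map N.mkQ (f m)) x = _
    rw [Ind.map_apply]

/-- The module `M × T` with the zero map on `T`. -/
noncomputable def prodZ (f : M →ₛₗ[incD D A] Ind A D M) (T : Type u) [AddCommGroup T]
    [Module (MonoidAlgebra A D) T] : (M × T) →ₛₗ[incD D A] Ind A D (M × T) :=
  ((Ind.map (LinearMap.inl (MonoidAlgebra A D) M T)).comp f).comp
    (LinearMap.fst (MonoidAlgebra A D) M T)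

theorem prodZ_apply (f : M →ₛₗ[incD D A] Ind A D M) (T : Type u) [AddCommGroup T]
    [Module (MonoidAlgebra A D) T] (y : M × T) (x : G ⧸ D) : prodZ f T y x = (f y.1 x, 0) := by
  change (Ind.map (LinearMap.inl (MonoidAlgebra A D) M T) (f y.1)) x = _
  rw [Ind.map_apply]
  rfl

theorem prodZ_inl (f : M →ₛₗ[incD D A] Ind A D M) (T : Type u) [AddCommGroup T]
    [Module (MonoidAlgebra A D) T] :
    IsHom f (prodZ f T) (LinearMap.inl (MonoidAlgebra A D) M T) := fun m x => by
  rw [prodZ_apply]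
  rfl

theorem prodZ_fst (f : M →ₛₗ[incD D A] Ind A D M) (T : Type u) [AddCommGroup T]
    [Module (MonoidAlgebra A D) T] :
    IsHom (prodZ f T) f (LinearMap.fst (MonoidAlgebra A D) M T) := fun m x => by
  rw [prodZ_apply]
  rfl

theorem prodZ_snd (f : M →ₛₗ[incD D A] Ind A D M) (T : Type u) [AddCommGroup T]
    [Module (MonoidAlgebra A D) T] :
    IsHom (prodZ f T) 0 (LinearMap.snd (MonoidAlgebra A D) M T) := fun m x => by
  rw [prodZ_apply]
  rfl

theorem gen_prodZ (f : M →ₛₗ[incD D A] Ind A D M) (T : Type u) [AddCommGroup T]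
    [Module (MonoidAlgebra A D) T] (j : ℕ) (y : M × T) (hy : y ∈ gen (prodZ f T) (j + 1)) :
    y.2 = 0 := by
  have h1 : gen (prodZ f T) (j + 1) ≤ LinearMap.ker (LinearMap.snd (MonoidAlgebra A D) M T) := by
    refine nxt_le fun m _ x => ?_
    rw [prodZ_apply]
    rfl
  exact h1 hy

theorem SNil.prodZ {f : M →ₛₗ[incD D A] Ind A D M} (hf : SNil f) (T : Type u) [AddCommGroup T]
    [Module (MonoidAlgebra A D) T] : SNil (prodZ f T) := by
  obtain ⟨N, hN⟩ := hf
  refine ⟨N + 1, le_bot_iff.1 fun y hy => ?_⟩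
  have h1 := gen_prodZ f T N y hy
  have h2 : y.1 ∈ gen f (N + 1) := (prodZ_fst f T).map_mem_gen hy
  rw [gen_bot_of_le (Nat.le_succ N) hN, Submodule.mem_bot] at h2
  rw [Submodule.mem_bot]
  exact Prod.ext h2 h1

/-- The elements of the socle which have to be divided out. -/
theorem exists_soc_set [IsNoetherianRing A] [Module.Finite (MonoidAlgebra A D) M] {q : Ideal A}
    {s : ℕ} {f : M →ₛₗ[incD D A] Ind A D M} (hord : Ord q (s + 1) f) :
    ∃ (c : A) (t : Finset (Soc q f)), c ∉ q ∧ ∀ j ≤ s, ∀ a ∈ q ^ (s - j), ∀ m ∈ gen f j,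
      ∃ y ∈ Submodule.span (MonoidAlgebra A D) (t : Set (Soc q f)),
        (y : M) = algebraMap A (MonoidAlgebra A D) (c * a) • m := by
  classical
  obtain ⟨c, hc, H⟩ := hord
  have hsoc : ∀ j ≤ s, ∀ a ∈ q ^ (s - j), ∀ m ∈ gen f j,
      algebraMap A (MonoidAlgebra A D) (c * a) • m ∈ Soc q f := by
    intro j hj a ha m hm
    rw [mem_Soc]
    refine ⟨fun b hb => ?_, ?_⟩
    · rw [smul_smul, ← map_mul]
      have h1 : b * (c * a) = c * (a * b) := by ring
      rw [h1]
      refine H j (by omega) (a * b) ?_ m hm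
      have h2 : s + 1 - j = s - j + 1 := by omega
      rw [h2, pow_succ]
      exact Ideal.mul_mem_mul ha hb
    · rw [LinearMap.map_smulₛₗ]
      apply Ind.ext
      intro x
      have h1 : incD D A (algebraMap A (MonoidAlgebra A D) (c * a)) =
          algebraMap A (MonoidAlgebra A G) (c * a) := by
        rw [algebraMap_eq_single, algebraMap_eq_single, inc_single, map_one]
      rw [h1, Ind.alg_smul_apply, Ind.zero_apply]
      refine H (j + 1) (by omega) a ?_ _ (comp_mem_gen hm x)
      have h2 : s + 1 - (j + 1) = s - j := by omega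
      rw [h2]
      exact ha
  have h1 : ∀ j : ℕ, ∃ t : Finset (Soc q f), j ≤ s → ∀ a ∈ q ^ (s - j), ∀ m ∈ gen f j,
      ∃ y ∈ Submodule.span (MonoidAlgebra A D) (t : Set (Soc q f)),
        (y : M) = algebraMap A (MonoidAlgebra A D) (c * a) • m := by
    intro j
    by_cases hj : j ≤ s
    · obtain ⟨t, ht1, ht2⟩ := exists_span_smul (q ^ (s - j)) (gen f j)
        (Ideal.fg_of_isNoetherianRing _) (gen_fg j)
      let e : {y // y ∈ t} → Soc q f := fun y =>
        ⟨algebraMap A (MonoidAlgebra A D) c • (y : M), by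
          obtain ⟨a, ha, m, hm, h⟩ := ht1 y.1 y.2
          rw [h, smul_smul, ← map_mul]
          exact hsoc j hj a ha m hm⟩
      refine ⟨Finset.univ.image e, fun _ a ha m hm => ?_⟩
      have h2 := ht2 a ha m hm
      have h3 : algebraMap A (MonoidAlgebra A D) (c * a) • m =
          algebraMap A (MonoidAlgebra A D) c • (algebraMap A (MonoidAlgebra A D) a • m) := by
        rw [map_mul, mul_smul]
      rw [h3]
      generalize algebraMap A (MonoidAlgebra A D) a • m = z at h2
      induction h2 using Submodule.span_induction with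
      | mem z hz =>
        exact ⟨e ⟨z, hz⟩, Submodule.subset_span (Finset.mem_coe.2
          (Finset.mem_image_of_mem e (Finset.mem_univ _))), rfl⟩
      | zero => exact ⟨0, Submodule.zero_mem _, (smul_zero _).symm⟩
      | add z w _ _ hz hw =>
        obtain ⟨y, hy, hyz⟩ := hz
        obtain ⟨y', hy', hyz'⟩ := hw
        exact ⟨y + y', Submodule.add_mem _ hy hy', by rw [smul_add, ← hyz, ← hyz']; rfl⟩
      | smul r z _ hz =>
        obtain ⟨y, hy, hyz⟩ := hz
        refine ⟨r • y, Submodule.smul_mem _ _ hy, ?_⟩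
        rw [smul_smul, Algebra.commutes, ← smul_smul, ← hyz]
        rfl
    · exact ⟨∅, fun h => absurd h hj⟩
  choose t ht using h1
  refine ⟨c, (Finset.range (s + 1)).biUnion t, hc, fun j hj a ha m hm => ?_⟩
  obtain ⟨y, hy, hyz⟩ := ht j hj a ha m hm
  refine ⟨y, Submodule.span_mono ?_ hy, hyz⟩
  exact_mod_cast Finset.subset_biUnion_of_mem t (Finset.mem_range.2 (Nat.lt_succ_of_le hj))

/-- The V step: one divides by a free submodule of the socle. -/
theorem vStep_data [IsNoetherianRing A] {I q : Ideal A} (hIq : I ≤ q)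
    (hP : ∀ n : ℕ, Perf (MonoidAlgebra A D) ((Fin n → MonoidAlgebra A D) ⧸ csub D fun _ => q))
    {s : ℕ} (hs : 1 ≤ s) [hqp : q.IsPrime] {f : M →ₛₗ[incD D A] Ind A D M}
    (hM : Perf (MonoidAlgebra A D) M) (hf : SNil f) (hI : Killed (D := D) I M)
    (hord : Ord q (s + 1) f) (hsoc : GenLFq q D (Soc q f)) :
    ∃ (T : Type u) (_ : AddCommGroup T) (_ : Module (MonoidAlgebra A D) T)
      (V : Submodule (MonoidAlgebra A D) (M × T))
      (f' : ((M × T) ⧸ V) →ₛₗ[incD D A] Ind A D ((M × T) ⧸ V)),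
      Perf (MonoidAlgebra A D) T ∧ Perf (MonoidAlgebra A D) V ∧
      (∀ y ∈ V, prodZ f T y = 0) ∧ IsHom (prodZ f T) f' V.mkQ ∧
      Perf (MonoidAlgebra A D) ((M × T) ⧸ V) ∧ SNil f' ∧ Killed (D := D) I ((M × T) ⧸ V) ∧
      Ord q s f' := by
  classical
  have := hM.finite
  obtain ⟨c, t, hc, ht⟩ := exists_soc_set hord
  obtain ⟨c', n, m, j, hc', hj0, hj⟩ := hsoc t
  obtain ⟨T, hT⟩ : ∃ T, T = ((Fin m → MonoidAlgebra A D) ⧸ csub D fun _ => q) := ⟨_, rfl⟩
  let j' : (Fin n → MonoidAlgebra A D) →ₗ[MonoidAlgebra A D]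
      M × ((Fin m → MonoidAlgebra A D) ⧸ csub D fun _ => q) :=
    ((Soc q f).subtype.prodMap LinearMap.id) ∘ₗ j
  have hj' : ∀ v, j' v = (((j v).1 : M), (j v).2) := fun v => rfl
  let V : Submodule (MonoidAlgebra A D)
      (M × ((Fin m → MonoidAlgebra A D) ⧸ csub D fun _ => q)) := LinearMap.range j'
  have hV0 : ∀ y ∈ V, prodZ f ((Fin m → MonoidAlgebra A D) ⧸ csub D fun _ => q) y = 0 := by
    rintro y ⟨v, rfl⟩
    apply Ind.ext
    intro x
    rw [prodZ_apply, hj', (mem_Soc.1 (j v).1.2).2]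
    rfl
  obtain ⟨f', hf'⟩ := exists_quot (prodZ f ((Fin m → MonoidAlgebra A D) ⧸ csub D fun _ => q)) V
    (fun y hy x => by
      rw [hV0 y hy, Ind.zero_apply]
      exact V.zero_mem)
  have hTP := hP m
  have hker : LinearMap.ker j' = csub D fun _ => q := by
    ext v
    rw [LinearMap.mem_ker, ← hj0 v]
    constructor
    · intro h
      rw [hj', Prod.mk_eq_zero] at h
      exact Prod.ext (Subtype.ext h.1) h.2
    · intro h
      rw [hj', h]
      rfl
  have hVP : Perf (MonoidAlgebra A D) V := by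
    refine (hP n).congr ?_
    exact (Submodule.quotEquivOfEq _ _ hker.symm).trans j'.quotKerEquivRange
  have hspan : ∀ z ∈ Submodule.span (MonoidAlgebra A D) (t : Set (Soc q f)),
      ((algebraMap A (MonoidAlgebra A D) c' • (z : M), 0) :
        M × ((Fin m → MonoidAlgebra A D) ⧸ csub D fun _ => q)) ∈ V := by
    intro z hz
    induction hz using Submodule.span_induction with
    | mem z hz =>
      obtain ⟨v, hv⟩ := hj z hz
      refine ⟨v, ?_⟩
      rw [hj', hv]
      rfl
    | zero =>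
      have h1 : algebraMap A (MonoidAlgebra A D) c' • ((0 : Soc q f) : M) = 0 := smul_zero _
      rw [h1]
      exact V.zero_mem
    | add z w _ _ hz hw =>
      have h1 := V.add_mem hz hw
      rw [Prod.mk_add_mk, add_zero, ← smul_add] at h1
      exact h1
    | smul r z _ hz =>
      have h1 := V.smul_mem r hz
      rw [Prod.smul_mk, smul_zero, smul_smul, ← Algebra.commutes, ← smul_smul] at h1
      exact h1
  refine ⟨_, _, _, V, f', hTP, hVP, hV0, hf', Perf.quot V hVP (hM.prod hTP),
    SNil.of_surj hf' V.mkQ_surjective (hf.prodZ _), ?_, ?_⟩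
  · -- killed by `I`
    intro a ha y
    obtain ⟨⟨y1, y2⟩, rfl⟩ := V.mkQ_surjective y
    rw [← map_smul]
    have h1 : algebraMap A (MonoidAlgebra A D) a • (y1, y2) = 0 := by
      refine Prod.ext (hI a ha y1) ?_
      obtain ⟨v, rfl⟩ := (csub D fun _ : Fin m => q).mkQ_surjective y2
      change algebraMap A (MonoidAlgebra A D) a • (csub D fun _ : Fin m => q).mkQ v = 0
      rw [← map_smul, Submodule.mkQ_apply, Submodule.Quotient.mk_eq_zero, mem_csub]
      intro i g
      rw [Pi.smul_apply, smul_eq_mul, coeff_algebraMap_mul]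
      exact q.mul_mem_right _ (hIq ha)
    rw [h1, map_zero]
  · -- the order
    refine ⟨c' * c, fun h => ?_, fun k hk a ha y hy => ?_⟩
    · rcases hqp.mem_or_mem h with h | h
      · exact hc' h
      · exact hc h
    · obtain ⟨⟨y1, y2⟩, hy12, rfl⟩ := hf'.gen_le_map V.mkQ_surjective k hy
      rw [← map_smul, Submodule.mkQ_apply, Submodule.Quotient.mk_eq_zero]
      have h2 : algebraMap A (MonoidAlgebra A D) (c' * c * a) • y2 = 0 := by
        cases k with
        | zero =>
          obtain ⟨v, rfl⟩ := (csub D fun _ : Fin m => q).mkQ_surjective y2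
          rw [← map_smul, Submodule.mkQ_apply, Submodule.Quotient.mk_eq_zero, mem_csub]
          intro i g
          rw [Pi.smul_apply, smul_eq_mul, coeff_algebraMap_mul]
          refine q.mul_mem_right _ (q.mul_mem_left _ ?_)
          rw [Nat.sub_zero] at ha
          exact Ideal.pow_le_self (by omega) ha
        | succ k =>
          have h3 : y2 = 0 := gen_prodZ f _ k (y1, y2) hy12
          rw [h3, smul_zero]
      have h4 : y1 ∈ gen f k := (prodZ_fst f _).map_mem_gen hy12
      obtain ⟨z, hz, hzy⟩ := ht k hk a ha y1 h4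
      have h5 : algebraMap A (MonoidAlgebra A D) (c' * c * a) • (y1, y2) =
          (algebraMap A (MonoidAlgebra A D) c' • (z : M), 0) := by
        refine Prod.ext ?_ h2
        change algebraMap A (MonoidAlgebra A D) (c' * c * a) • y1 = _
        rw [hzy, smul_smul, ← map_mul, mul_assoc]
      rw [h5]
      exact hspan z hz

/-- The V step. -/
theorem vStep (K : K1C (MonoidAlgebra A G)) [IsNoetherianRing A] {I q : Ideal A} (hIq : I ≤ q)
    (hP : ∀ n : ℕ, Perf (MonoidAlgebra A D) ((Fin n → MonoidAlgebra A D) ⧸ csub D fun _ => q))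
    {s : ℕ} (hs : 1 ≤ s) [hqp : q.IsPrime] {f : M →ₛₗ[incD D A] Ind A D M}
    (hM : Perf (MonoidAlgebra A D) M) (hf : SNil f) (hI : Killed (D := D) I M)
    (hord : Ord q (s + 1) f) (hsoc : GenLFq q D (Soc q f)) :
    ∃ (M' : Type u) (_ : AddCommGroup M') (_ : Module (MonoidAlgebra A D) M')
      (f' : M' →ₛₗ[incD D A] Ind A D M'),
      Perf (MonoidAlgebra A D) M' ∧ SNil f' ∧ Killed (D := D) I M' ∧ Ord q s f' ∧
      (NGM K f' → NGM K f) := by
  obtain ⟨T, i1, i2, V, f', hT, hV, hV0, hf', h1, h2, h3, h4⟩ :=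
    vStep_data hIq hP hs hM hf hI hord hsoc
  refine ⟨_, _, _, f', h1, h2, h3, h4, fun hN => ?_⟩
  have h5 : NGM K (prodZ f T) := by
    refine NGM.mid K (i := V.subtype) (q := V.mkQ) V.injective_subtype V.mkQ_surjective
      (fun y => ?_) (fun m x => ?_) hf' (NGM.zero K hV) hN
    · rw [← LinearMap.mem_ker, Submodule.ker_mkQ]
      exact ⟨fun h => ⟨⟨y, h⟩, rfl⟩, fun ⟨x, hx⟩ => by rw [← hx]; exact x.2⟩
    · have h6 : prodZ f T (V.subtype m) = 0 := hV0 m.1 m.2
      rw [h6]
      exact (map_zero V.subtype).symm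
  refine NGM.left K (i := LinearMap.inl (MonoidAlgebra A D) M T)
    (q := LinearMap.snd (MonoidAlgebra A D) M T) LinearMap.inl_injective
    LinearMap.snd_surjective (fun y => ⟨fun h => ⟨y.1, Prod.ext rfl h.symm⟩, ?_⟩)
    (prodZ_inl f T) (prodZ_snd f T) h5 (NGM.zero K hT)
  rintro ⟨x, rfl⟩
  rfl

end

end Pool.Agent.Lib.MP_551055_al.T4
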